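import Pool.Agent.T6.H89.ITM.Two

/-!
# Small induced topological minors
-/

set_option autoImplicit false

namespace Pool.Agent.T6.H89.ITM

open Pool.Agent.H175R2

variable {V : Type}

/-- a function on `Fin 4` given by its values -/
def vec4 (a b c d : V) (i : Fin 4) : V := if i = 0 then a else if i = 1 then b else if i = 2 then c else d

lemma vec4_0 (a b c d : V) : vec4 a b c d 0 = a := rfl
lemma vec4_1 (a b c d : V) : vec4 a b c d 1 = b := rfl
lemma vec4_2 (a b c d : V) : vec4 a b c d 2 = c := rfl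
lemma vec4_3 (a b c d : V) : vec4 a b c d 3 = d := rfl

lemma forall4 (P : Fin 4 → Prop) : (∀ i, P i) ↔ P 0 ∧ P 1 ∧ P 2 ∧ P 3 := by
  constructor
  · intro h; exact ⟨h 0, h 1, h 2, h 3⟩
  · rintro ⟨h0, h1, h2, h3⟩ i
    fin_cases i <;> assumption

lemma vec4_inj {a b c d : V} (h1 : a ≠ b) (h2 : a ≠ c) (h3 : a ≠ d) (h4 : b ≠ c) (h5 : b ≠ d)
    (h6 : c ≠ d) : Function.Injective (vec4 a b c d) := by
  have : ∀ i j : Fin 4, vec4 a b c d i = vec4 a b c d j → i = j := by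
    simp only [forall4, vec4_0, vec4_1, vec4_2, vec4_3]
    simp [h1, h2, h3, h4, h5, h6, h1.symm, h2.symm, h3.symm, h4.symm, h5.symm, h6.symm]
  exact fun i j h => this i j h

lemma vec4_adj {G : SimpleGraph V} {T : SimpleGraph (Fin 4)} {a b c d : V}
    (h01 : G.Adj a b ↔ T.Adj 0 1) (h02 : G.Adj a c ↔ T.Adj 0 2) (h03 : G.Adj a d ↔ T.Adj 0 3)
    (h12 : G.Adj b c ↔ T.Adj 1 2) (h13 : G.Adj b d ↔ T.Adj 1 3) (h23 : G.Adj c d ↔ T.Adj 2 3) :
    ∀ i j : Fin 4, G.Adj (vec4 a b c d i) (vec4 a b c d j) ↔ T.Adj i j := by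
  have h10 := (G.adj_comm b a).trans (h01.trans (T.adj_comm 0 1))
  have h20 := (G.adj_comm c a).trans (h02.trans (T.adj_comm 0 2))
  have h30 := (G.adj_comm d a).trans (h03.trans (T.adj_comm 0 3))
  have h21 := (G.adj_comm c b).trans (h12.trans (T.adj_comm 1 2))
  have h31 := (G.adj_comm d b).trans (h13.trans (T.adj_comm 1 3))
  have h32 := (G.adj_comm d c).trans (h23.trans (T.adj_comm 2 3))
  simp only [forall4, vec4_0, vec4_1, vec4_2, vec4_3]
  simp [h01, h02, h03, h12, h13, h23, h10, h20, h30, h21, h31, h32]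

lemma diamond_adj' : diamond.Adj 0 1 ∧ diamond.Adj 0 2 ∧ diamond.Adj 0 3 ∧ diamond.Adj 1 2 ∧
    diamond.Adj 1 3 ∧ ¬ diamond.Adj 2 3 := by
  refine ⟨?_, ?_, ?_, ?_, ?_, ?_⟩ <;> simp [diamond]

lemma paw_adj' : paw.Adj 0 1 ∧ paw.Adj 0 2 ∧ paw.Adj 0 3 ∧ paw.Adj 1 2 ∧
    ¬ paw.Adj 1 3 ∧ ¬ paw.Adj 2 3 := by
  refine ⟨?_, ?_, ?_, ?_, ?_, ?_⟩ <;> simp [paw]

lemma itm_diamond {G : SimpleGraph V} {R : Set V} {a b c d : V} (ha : a ∈ R) (hb : b ∈ R)
    (hc : c ∈ R) (hd : d ∈ R) (hab : G.Adj a b) (hac : G.Adj a c) (had : G.Adj a d)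
    (hbc : G.Adj b c) (hbd : G.Adj b d) (hcd : c ≠ d) (hncd : ¬ G.Adj c d) :
    ItmOn diamond G R := by
  obtain ⟨d1, d2, d3, d4, d5, d6⟩ := diamond_adj'
  have key := vec4_adj (G := G) (T := diamond) (a := a) (b := b) (c := c) (d := d)
    (iff_of_true hab d1) (iff_of_true hac d2) (iff_of_true had d3) (iff_of_true hbc d4)
    (iff_of_true hbd d5) (iff_of_false hncd d6)
  have hinj := vec4_inj hab.ne hac.ne had.ne hbc.ne hbd.ne hcd
  have hR : ∀ i, vec4 a b c d i ∈ R := by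
    rw [forall4]; exact ⟨ha, hb, hc, hd⟩
  exact itmOn_of_embedding (K := diamond) (Subdivision.iso (SimpleGraph.Iso.refl))
    ⟨⟨vec4 a b c d, hinj⟩, fun {i j} => key i j⟩ hR

lemma itm_paw {G : SimpleGraph V} {R : Set V} {a b c d : V} (ha : a ∈ R) (hb : b ∈ R)
    (hc : c ∈ R) (hd : d ∈ R) (hab : G.Adj a b) (hac : G.Adj a c) (had : G.Adj a d)
    (hbc : G.Adj b c) (hnbd : ¬ G.Adj b d) (hncd : ¬ G.Adj c d) :
    ItmOn paw G R := by
  have h5 : b ≠ d := by rintro rfl; exact hncd hbc.symm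
  have h6 : c ≠ d := by rintro rfl; exact hnbd hbc
  obtain ⟨d1, d2, d3, d4, d5, d6⟩ := paw_adj'
  have key := vec4_adj (G := G) (T := paw) (a := a) (b := b) (c := c) (d := d)
    (iff_of_true hab d1) (iff_of_true hac d2) (iff_of_true had d3) (iff_of_true hbc d4)
    (iff_of_false hnbd d5) (iff_of_false hncd d6)
  have hinj := vec4_inj hab.ne hac.ne had.ne hbc.ne h5 h6
  have hR : ∀ i, vec4 a b c d i ∈ R := by
    rw [forall4]; exact ⟨ha, hb, hc, hd⟩
  exact itmOn_of_embedding (K := paw) (Subdivision.iso (SimpleGraph.Iso.refl))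
    ⟨⟨vec4 a b c d, hinj⟩, fun {i j} => key i j⟩ hR

/-- the four-cycle `a b e c` with the pendant vertex `d` at `a` -/
lemma itm_paw_c4 {G : SimpleGraph V} {R : Set V} {a b c d e : V} (ha : a ∈ R) (hb : b ∈ R)
    (hc : c ∈ R) (hd : d ∈ R) (he : e ∈ R) (hab : G.Adj a b) (hac : G.Adj a c) (had : G.Adj a d)
    (hbe : G.Adj b e) (hce : G.Adj c e) (hnbc : ¬ G.Adj b c) (hbc : b ≠ c) (hnae : ¬ G.Adj a e)
    (hnbd : ¬ G.Adj b d) (hncd : ¬ G.Adj c d) (hned : ¬ G.Adj e d) (hae : a ≠ e) :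
    ItmOn paw G R := by
  -- lift the paw `a b c d` over the vertex `e`
  have h5 : b ≠ d := by rintro rfl; exact hned hbe.symm
  have h6 : c ≠ d := by rintro rfl; exact hned hce.symm
  have h9 : d ≠ e := by rintro rfl; exact hnae had
  set R' : Set V := {a, b, c, d, e} with hR'
  have hsub : R' ⊆ R := by
    intro x hx
    simp only [hR', Set.mem_insert_iff, Set.mem_singleton_iff] at hx
    rcases hx with rfl | rfl | rfl | rfl | rfl <;> assumption
  refine ItmOn.mono ?_ hsub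
  refine ItmOn.lift (x := e) (u := b) (v := c) (by simp [hR']) hbe.symm hce.symm hbc hnbc ?_ ?_
  · intro y hy hey
    simp only [hR', Set.mem_insert_iff, Set.mem_singleton_iff] at hy
    rcases hy with rfl | rfl | rfl | rfl | rfl
    · exact absurd hey.symm hnae
    · exact Or.inl rfl
    · exact Or.inr rfl
    · exact absurd hey hned
    · exact absurd hey (SimpleGraph.irrefl _)
  · refine itm_paw (a := a) (b := b) (c := c) (d := d) ?_ ?_ ?_ ?_ (Or.inl hab) (Or.inl hac)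
      (Or.inl had) ?_ ?_ ?_
    · simp [hR', hae]
    · simp [hR', hbe.ne]
    · simp [hR', hce.ne]
    · simp [hR', h9]
    · simp [SimpleGraph.edge_adj, hbc]
    · simp only [SimpleGraph.sup_adj, SimpleGraph.edge_adj, not_or, not_and]
      refine ⟨hnbd, ?_⟩
      rintro (⟨_, h⟩ | ⟨h, _⟩)
      · exact absurd h.symm h6
      · exact absurd h hbc
    · simp only [SimpleGraph.sup_adj, SimpleGraph.edge_adj, not_or, not_and]
      refine ⟨hncd, ?_⟩
      rintro (⟨h, _⟩ | ⟨_, h⟩)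
      · exact absurd h.symm hbc
      · exact absurd h.symm h5

end Pool.Agent.T6.H89.ITM
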