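import Pool.Agent.T6.H89.ITM.Inv
import Pool.Agent.T6.H89.ITM.Small

/-!
# The finite classification
-/

set_option autoImplicit false

namespace Pool.Agent.T6.H89.ITM

open Pool.Agent.H175R2


/-- triples -/
def LT3 : List (Fin 3 × Fin 3 × Fin 3) := [(0, 1, 2)]

/-- triples -/
def LT4 : List (Fin 4 × Fin 4 × Fin 4) := [(0, 1, 2), (0, 1, 3), (0, 2, 3), (1, 2, 3)]

/-- pairs of disjoint pairs -/
def LM4 : List (Fin 4 × Fin 4 × Fin 4 × Fin 4) := [(0, 1, 2, 3), (0, 2, 1, 3), (0, 3, 1, 2)]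

/-- four-cycles -/
def LC4 : List (Fin 4 × Fin 4 × Fin 4 × Fin 4) := [(0, 1, 2, 3), (0, 1, 3, 2), (0, 2, 1, 3)]

/-- quadruples -/
def LK4 : List (Fin 4 × Fin 4 × Fin 4 × Fin 4) := [(0, 1, 2, 3)]

/-- a vertex and a triple -/
def LP4 : List (Fin 4 × Fin 4 × Fin 4 × Fin 4) := [(0, 1, 2, 3), (1, 0, 2, 3), (2, 0, 1, 3), (3, 0, 1, 2)]

/-- triples -/
def LT5 : List (Fin 5 × Fin 5 × Fin 5) := [(0, 1, 2), (0, 1, 3), (0, 1, 4), (0, 2, 3), (0, 2, 4), (0, 3, 4), (1, 2, 3), (1, 2, 4), (1, 3, 4), (2, 3, 4)]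

/-- pairs of disjoint pairs -/
def LM5 : List (Fin 5 × Fin 5 × Fin 5 × Fin 5) := [(0, 1, 2, 3), (0, 1, 2, 4), (0, 1, 3, 4), (0, 2, 1, 3), (0, 2, 1, 4), (0, 2, 3, 4), (0, 3, 1, 2), (0, 3, 1, 4), (0, 3, 2, 4), (0, 4, 1, 2), (0, 4, 1, 3), (0, 4, 2, 3), (1, 2, 3, 4), (1, 3, 2, 4), (1, 4, 2, 3)]

/-- four-cycles -/
def LC5 : List (Fin 5 × Fin 5 × Fin 5 × Fin 5) := [(0, 1, 2, 3), (0, 1, 3, 2), (0, 2, 1, 3), (0, 1, 2, 4), (0, 1, 4, 2), (0, 2, 1, 4), (0, 1, 3, 4), (0, 1, 4, 3), (0, 3, 1, 4), (0, 2, 3, 4), (0, 2, 4, 3), (0, 3, 2, 4), (1, 2, 3, 4), (1, 2, 4, 3), (1, 3, 2, 4)]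

/-- quadruples -/
def LK5 : List (Fin 5 × Fin 5 × Fin 5 × Fin 5) := [(0, 1, 2, 3), (0, 1, 2, 4), (0, 1, 3, 4), (0, 2, 3, 4), (1, 2, 3, 4)]

/-- a vertex and a triple -/
def LP5 : List (Fin 5 × Fin 5 × Fin 5 × Fin 5) := [(0, 1, 2, 3), (1, 0, 2, 3), (2, 0, 1, 3), (3, 0, 1, 2), (0, 1, 2, 4), (1, 0, 2, 4), (2, 0, 1, 4), (4, 0, 1, 2), (0, 1, 3, 4), (1, 0, 3, 4), (3, 0, 1, 4), (4, 0, 1, 3), (0, 2, 3, 4), (2, 0, 3, 4), (3, 0, 2, 4), (4, 0, 2, 3), (1, 2, 3, 4), (2, 1, 3, 4), (3, 1, 2, 4), (4, 1, 2, 3)]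

/-- five-cycles -/
def LF : List (Fin 5 × Fin 5 × Fin 5 × Fin 5 × Fin 5) := [(0, 1, 2, 3, 4), (0, 1, 2, 4, 3), (0, 1, 3, 2, 4), (0, 1, 3, 4, 2), (0, 1, 4, 2, 3), (0, 1, 4, 3, 2), (0, 2, 1, 3, 4), (0, 2, 1, 4, 3), (0, 2, 3, 1, 4), (0, 2, 4, 1, 3), (0, 3, 1, 2, 4), (0, 3, 2, 1, 4)]

/-- stars -/
def LS : List (Fin 5 × Fin 5 × Fin 5 × Fin 5 × Fin 5) := [(0, 1, 2, 3, 4), (1, 0, 2, 3, 4), (2, 0, 1, 3, 4), (3, 0, 1, 2, 4), (4, 0, 1, 2, 3)]

/-- the permutations of `Fin 4` -/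
def perms4 : List (Fin 4 × Fin 4 × Fin 4 × Fin 4) := [(0, 1, 2, 3), (0, 1, 3, 2), (0, 2, 1, 3), (0, 2, 3, 1), (0, 3, 1, 2), (0, 3, 2, 1), (1, 0, 2, 3), (1, 0, 3, 2), (1, 2, 0, 3), (1, 2, 3, 0), (1, 3, 0, 2), (1, 3, 2, 0), (2, 0, 1, 3), (2, 0, 3, 1), (2, 1, 0, 3), (2, 1, 3, 0), (2, 3, 0, 1), (2, 3, 1, 0), (3, 0, 1, 2), (3, 0, 2, 1), (3, 1, 0, 2), (3, 1, 2, 0), (3, 2, 0, 1), (3, 2, 1, 0)]


section checks
variable {n : ℕ} (a : Fin n → Fin n → Bool)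

/-- independent triple -/
def cT (t : Fin n × Fin n × Fin n) : Bool := !a t.1 t.2.1 && !a t.1 t.2.2 && !a t.2.1 t.2.2

/-- induced `2 P₂` -/
def cM (t : Fin n × Fin n × Fin n × Fin n) : Bool :=
  a t.1 t.2.1 && a t.2.2.1 t.2.2.2 && !a t.1 t.2.2.1 && !a t.1 t.2.2.2 && !a t.2.1 t.2.2.1 &&
    !a t.2.1 t.2.2.2

/-- induced four-cycle -/
def cC (t : Fin n × Fin n × Fin n × Fin n) : Bool :=
  a t.1 t.2.1 && a t.2.1 t.2.2.1 && a t.2.2.1 t.2.2.2 && a t.1 t.2.2.2 && !a t.1 t.2.2.1 &&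
    !a t.2.1 t.2.2.2

/-- `K₄` -/
def cK (t : Fin n × Fin n × Fin n × Fin n) : Bool :=
  a t.1 t.2.1 && a t.1 t.2.2.1 && a t.1 t.2.2.2 && a t.2.1 t.2.2.1 && a t.2.1 t.2.2.2 &&
    a t.2.2.1 t.2.2.2

/-- isolated vertex and triangle -/
def cP (t : Fin n × Fin n × Fin n × Fin n) : Bool :=
  !a t.1 t.2.1 && !a t.1 t.2.2.1 && !a t.1 t.2.2.2 && a t.2.1 t.2.2.1 && a t.2.1 t.2.2.2 &&
    a t.2.2.1 t.2.2.2

/-- induced five-cycle -/
def cF (t : Fin n × Fin n × Fin n × Fin n × Fin n) : Bool :=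
  a t.1 t.2.1 && a t.2.1 t.2.2.1 && a t.2.2.1 t.2.2.2.1 && a t.2.2.2.1 t.2.2.2.2 &&
    a t.1 t.2.2.2.2 && !a t.1 t.2.2.1 && !a t.1 t.2.2.2.1 && !a t.2.1 t.2.2.2.1 &&
    !a t.2.1 t.2.2.2.2 && !a t.2.2.1 t.2.2.2.2

/-- a vertex adjacent to four others -/
def cS (t : Fin n × Fin n × Fin n × Fin n × Fin n) : Bool :=
  a t.1 t.2.1 && a t.1 t.2.2.1 && a t.1 t.2.2.2.1 && a t.1 t.2.2.2.2

end checks

/-- symmetric table -/
def tab5 (e01 e02 e03 e04 e12 e13 e14 e23 e24 e34 : Bool) : Fin 5 → Fin 5 → Bool :=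
  ![![false, e01, e02, e03, e04], ![e01, false, e12, e13, e14], ![e02, e12, false, e23, e24],
    ![e03, e13, e23, false, e34], ![e04, e14, e24, e34, false]]

/-- symmetric table -/
def tab4 (e01 e02 e03 e12 e13 e23 : Bool) : Fin 4 → Fin 4 → Bool :=
  ![![false, e01, e02, e03], ![e01, false, e12, e13], ![e02, e12, false, e23],
    ![e03, e13, e23, false]]

/-- symmetric table -/
def tab3 (e01 e02 e12 : Bool) : Fin 3 → Fin 3 → Bool :=
  ![![false, e01, e02], ![e01, false, e12], ![e02, e12, false]]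

/-- the check on five vertices -/
def chk5 (a : Fin 5 → Fin 5 → Bool) : Bool :=
  LT5.any (cT a) || LP5.any (cP a) || LK5.any (cK a) || LS.any (cS a) || LM5.any (cM a) ||
    LC5.any (cC a) || LF.any (cF a)

theorem chk5_all : ∀ e01 e02 e03 e04 e12 e13 e14 e23 e24 e34 : Bool,
    chk5 (tab5 e01 e02 e03 e04 e12 e13 e14 e23 e24 e34) = true := by
  decide +kernel

/-- the function `Fin m → Fin 4` given by a quadruple -/
def pf (t : Fin 4 × Fin 4 × Fin 4 × Fin 4) (i : Fin 4) : Fin 4 :=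
  if i = 0 then t.1 else if i = 1 then t.2.1 else if i = 2 then t.2.2.1 else t.2.2.2

/-- path -/
def tP : Fin 4 → Fin 4 → Bool := tab4 true false false true false true

/-- paw: triangle `0 1 2` and the pendant edge `0 3` -/
def tW : Fin 4 → Fin 4 → Bool := tab4 true true true true false false

/-- diamond: `K₄` minus `2 3` -/
def tD : Fin 4 → Fin 4 → Bool := tab4 true true true true true false

/-- embedding check for four vertices -/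
def cE4 (T a : Fin 4 → Fin 4 → Bool) (t : Fin 4 × Fin 4 × Fin 4 × Fin 4) : Bool :=
  (a 0 1 == T t.1 t.2.1) && (a 0 2 == T t.1 t.2.2.1) && (a 0 3 == T t.1 t.2.2.2) &&
    (a 1 2 == T t.2.1 t.2.2.1) && (a 1 3 == T t.2.1 t.2.2.2) && (a 2 3 == T t.2.2.1 t.2.2.2)

/-- embedding check for three vertices -/
def cE3 (T : Fin 4 → Fin 4 → Bool) (a : Fin 3 → Fin 3 → Bool)
    (t : Fin 4 × Fin 4 × Fin 4 × Fin 4) : Bool :=
  (a 0 1 == T t.1 t.2.1) && (a 0 2 == T t.1 t.2.2.1) && (a 1 2 == T t.2.1 t.2.2.1)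

/-- the check on four vertices -/
def chk4 (a : Fin 4 → Fin 4 → Bool) : Bool :=
  LT4.any (cT a) || LP4.any (cP a) || LK4.any (cK a) || LM4.any (cM a) || LC4.any (cC a) ||
    perms4.any (cE4 tP a) || perms4.any (cE4 tW a) || perms4.any (cE4 tD a)

theorem chk4_all : ∀ e01 e02 e03 e12 e13 e23 : Bool,
    chk4 (tab4 e01 e02 e03 e12 e13 e23) = true := by
  decide +kernel

/-- the check on three vertices -/
def chk3 (a : Fin 3 → Fin 3 → Bool) : Bool :=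
  LT3.any (cT a) || perms4.any (cE3 tP a) || perms4.any (cE3 tW a)

theorem chk3_all : ∀ e01 e02 e12 : Bool, chk3 (tab3 e01 e02 e12) = true := by
  decide +kernel

/-! ### From checks to graphs -/

section link

variable {n : ℕ} {G : SimpleGraph (Fin n)} {a : Fin n → Fin n → Bool}
  (ha : ∀ i j, a i j = true ↔ G.Adj i j)
include ha

lemma nb (i j : Fin n) : a i j = false ↔ ¬ G.Adj i j := by
  rw [← ha i j]; simp

lemma I3_of {L : List (Fin n × Fin n × Fin n)}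
    (hL : ∀ t ∈ L, t.1 ≠ t.2.1 ∧ t.1 ≠ t.2.2 ∧ t.2.1 ≠ t.2.2) (h : L.any (cT a) = true) :
    I3 G := by
  rw [List.any_eq_true] at h
  obtain ⟨t, ht, h⟩ := h
  obtain ⟨h1, h2, h3⟩ := hL t ht
  simp only [cT, Bool.and_eq_true, Bool.not_eq_true', nb ha] at h
  exact ⟨_, _, _, h1, h2, h3, h.1.1, h.1.2, h.2⟩

lemma M2_of {L : List (Fin n × Fin n × Fin n × Fin n)}
    (hL : ∀ t ∈ L, t.1 ≠ t.2.2.1 ∧ t.1 ≠ t.2.2.2 ∧ t.2.1 ≠ t.2.2.1 ∧ t.2.1 ≠ t.2.2.2)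
    (h : L.any (cM a) = true) : M2 G := by
  rw [List.any_eq_true] at h
  obtain ⟨t, ht, h⟩ := h
  obtain ⟨h1, h2, h3, h4⟩ := hL t ht
  simp only [cM, Bool.and_eq_true, Bool.not_eq_true', nb ha, ha] at h
  obtain ⟨⟨⟨⟨⟨k1, k2⟩, k3⟩, k4⟩, k5⟩, k6⟩ := h
  exact ⟨_, _, _, _, k1, k2, h1, h2, h3, h4, k3, k4, k5, k6⟩

lemma NC_of4 {L : List (Fin n × Fin n × Fin n × Fin n)}
    (hL : ∀ t ∈ L, t.1 ≠ t.2.2.1 ∧ t.2.1 ≠ t.2.2.2)
    (h : L.any (cC a) = true) : NC G := by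
  rw [List.any_eq_true] at h
  obtain ⟨t, ht, h⟩ := h
  obtain ⟨h1, h2⟩ := hL t ht
  simp only [cC, Bool.and_eq_true, Bool.not_eq_true', nb ha, ha] at h
  obtain ⟨⟨⟨⟨⟨k1, k2⟩, k3⟩, k4⟩, k5⟩, k6⟩ := h
  refine ⟨{t.1, t.2.1, t.2.2.1, t.2.2.2}, ⟨t.1, by simp⟩, ?_⟩
  intro x hx
  simp only [Set.mem_insert_iff, Set.mem_singleton_iff] at hx
  rcases hx with rfl | rfl | rfl | rfl
  · exact ⟨t.2.1, by simp, t.2.2.2, by simp, k1, k4, h2, k6⟩
  · exact ⟨t.1, by simp, t.2.2.1, by simp, k1.symm, k2, h1, k5⟩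
  · exact ⟨t.2.1, by simp, t.2.2.2, by simp, k2.symm, k3, h2, k6⟩
  · exact ⟨t.1, by simp, t.2.2.1, by simp, k4.symm, k3.symm, h1, k5⟩

lemma NC_of5 {L : List (Fin n × Fin n × Fin n × Fin n × Fin n)}
    (hL : ∀ t ∈ L, t.1 ≠ t.2.2.1 ∧ t.1 ≠ t.2.2.2.1 ∧ t.2.1 ≠ t.2.2.2.1 ∧ t.2.1 ≠ t.2.2.2.2 ∧
      t.2.2.1 ≠ t.2.2.2.2)
    (h : L.any (cF a) = true) : NC G := by
  rw [List.any_eq_true] at h
  obtain ⟨t, ht, h⟩ := h
  obtain ⟨h1, h2, h3, h4, h5⟩ := hL t ht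
  simp only [cF, Bool.and_eq_true, Bool.not_eq_true', nb ha, ha] at h
  obtain ⟨⟨⟨⟨⟨⟨⟨⟨⟨k1, k2⟩, k3⟩, k4⟩, k5⟩, l1⟩, l2⟩, l3⟩, l4⟩, l5⟩ := h
  refine ⟨{t.1, t.2.1, t.2.2.1, t.2.2.2.1, t.2.2.2.2}, ⟨t.1, by simp⟩, ?_⟩
  intro x hx
  simp only [Set.mem_insert_iff, Set.mem_singleton_iff] at hx
  rcases hx with rfl | rfl | rfl | rfl | rfl
  · exact ⟨t.2.1, by simp, t.2.2.2.2, by simp, k1, k5, h4, l4⟩
  · exact ⟨t.1, by simp, t.2.2.1, by simp, k1.symm, k2, h1, l1⟩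
  · exact ⟨t.2.1, by simp, t.2.2.2.1, by simp, k2.symm, k3, h3, l3⟩
  · exact ⟨t.2.2.1, by simp, t.2.2.2.2, by simp, k3.symm, k4, h5, l5⟩
  · exact ⟨t.1, by simp, t.2.2.2.1, by simp, k5.symm, k4.symm, h2, l2⟩

lemma K4_of {L : List (Fin n × Fin n × Fin n × Fin n)}
    (h : L.any (cK a) = true) : KDC G := by
  rw [List.any_eq_true] at h
  obtain ⟨t, ht, h⟩ := h
  simp only [cK, Bool.and_eq_true, ha] at h
  obtain ⟨⟨⟨⟨⟨k1, k2⟩, k3⟩, k4⟩, k5⟩, k6⟩ := h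
  exact Or.inl ⟨_, _, _, _, k1, k2, k3, k4, k5, k6⟩

lemma CP_of {L : List (Fin n × Fin n × Fin n × Fin n)}
    (hL : ∀ t ∈ L, t.1 ≠ t.2.1 ∧ t.1 ≠ t.2.2.1 ∧ t.1 ≠ t.2.2.2)
    (h : L.any (cP a) = true) : CP G := by
  rw [List.any_eq_true] at h
  obtain ⟨t, ht, h⟩ := h
  obtain ⟨h1, h2, h3⟩ := hL t ht
  simp only [cP, Bool.and_eq_true, Bool.not_eq_true', nb ha, ha] at h
  obtain ⟨⟨⟨⟨⟨k1, k2⟩, k3⟩, k4⟩, k5⟩, k6⟩ := h
  refine ⟨t.1, {t.2.1, t.2.2.1, t.2.2.2}, ⟨t.2.1, by simp⟩, by simp [h1, h2, h3], ?_, ?_⟩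
  · intro x hx
    simp only [Set.mem_insert_iff, Set.mem_singleton_iff] at hx
    rcases hx with rfl | rfl | rfl
    · exact k1
    · exact k2
    · exact k3
  · intro x hx
    simp only [Set.mem_insert_iff, Set.mem_singleton_iff] at hx
    rcases hx with rfl | rfl | rfl
    · exact ⟨t.2.2.1, by simp, t.2.2.2, by simp, k6.ne, k4, k5⟩
    · exact ⟨t.2.1, by simp, t.2.2.2, by simp, k5.ne, k4.symm, k6⟩
    · exact ⟨t.2.1, by simp, t.2.2.1, by simp, k4.ne, k5.symm, k6.symm⟩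

lemma D4_of {L : List (Fin n × Fin n × Fin n × Fin n × Fin n)}
    (hL : ∀ t ∈ L, t.2.1 ≠ t.2.2.1 ∧ t.2.1 ≠ t.2.2.2.1 ∧ t.2.1 ≠ t.2.2.2.2 ∧
      t.2.2.1 ≠ t.2.2.2.1 ∧ t.2.2.1 ≠ t.2.2.2.2 ∧ t.2.2.2.1 ≠ t.2.2.2.2)
    (h : L.any (cS a) = true) : D4 G := by
  rw [List.any_eq_true] at h
  obtain ⟨t, ht, h⟩ := h
  obtain ⟨h1, h2, h3, h4, h5, h6⟩ := hL t ht
  simp only [cS, Bool.and_eq_true, ha] at h
  obtain ⟨⟨⟨k1, k2⟩, k3⟩, k4⟩ := h
  exact ⟨_, _, _, _, _, k1, k2, k3, k4, h1, h2, h3, h4, h5, h6⟩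

end link

/-- the table of a graph -/
noncomputable def adjB {n : ℕ} (G : SimpleGraph (Fin n)) (i j : Fin n) : Bool :=
  @decide (G.Adj i j) (Classical.propDecidable _)

lemma adjB_iff {n : ℕ} (G : SimpleGraph (Fin n)) (i j : Fin n) :
    adjB G i j = true ↔ G.Adj i j := by
  unfold adjB; simp

lemma adjB_comm {n : ℕ} (G : SimpleGraph (Fin n)) (i j : Fin n) : adjB G i j = adjB G j i := by
  have h1 := adjB_iff G i j
  have h2 := adjB_iff G j i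
  rw [G.adj_comm, ← h2] at h1
  exact Bool.eq_iff_iff.2 h1

lemma adjB_self {n : ℕ} (G : SimpleGraph (Fin n)) (i : Fin n) : adjB G i i = false := by
  have h1 := adjB_iff G i i
  simpa using h1

lemma adjB_eq5 (G : SimpleGraph (Fin 5)) : adjB G = tab5 (adjB G 0 1) (adjB G 0 2) (adjB G 0 3)
    (adjB G 0 4) (adjB G 1 2) (adjB G 1 3) (adjB G 1 4) (adjB G 2 3) (adjB G 2 4)
    (adjB G 3 4) := by
  funext i j
  fin_cases i <;> fin_cases j <;> first | exact adjB_self G _ | rfl | exact adjB_comm G _ _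

lemma adjB_eq4 (G : SimpleGraph (Fin 4)) : adjB G = tab4 (adjB G 0 1) (adjB G 0 2) (adjB G 0 3)
    (adjB G 1 2) (adjB G 1 3) (adjB G 2 3) := by
  funext i j
  fin_cases i <;> fin_cases j <;> first | exact adjB_self G _ | rfl | exact adjB_comm G _ _

lemma adjB_eq3 (G : SimpleGraph (Fin 3)) : adjB G = tab3 (adjB G 0 1) (adjB G 0 2)
    (adjB G 1 2) := by
  funext i j
  fin_cases i <;> fin_cases j <;> first | exact adjB_self G _ | rfl | exact adjB_comm G _ _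

/-- one of the bad properties -/
def Bad {V : Type} (G : SimpleGraph V) : Prop := I3 G ∨ M2 G ∨ NC G ∨ KDC G ∨ CP G ∨ D4 G

lemma Bad.mono {V W : Type} {G : SimpleGraph V} {G' : SimpleGraph W} (f : G ↪g G') (h : Bad G) :
    Bad G' := by
  rcases h with h | h | h | h | h | h
  · exact Or.inl (I3_mono _ _ f h)
  · exact Or.inr (Or.inl (M2_mono _ _ f h))
  · exact Or.inr (Or.inr (Or.inl (NC_mono _ _ f h)))
  · exact Or.inr (Or.inr (Or.inr (Or.inl (KDC_mono _ _ f h))))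
  · exact Or.inr (Or.inr (Or.inr (Or.inr (Or.inl (CP_mono _ _ f h)))))
  · exact Or.inr (Or.inr (Or.inr (Or.inr (Or.inr (D4_mono _ _ f h)))))

theorem bad5 (G : SimpleGraph (Fin 5)) : Bad G := by
  have h := chk5_all (adjB G 0 1) (adjB G 0 2) (adjB G 0 3)
    (adjB G 0 4) (adjB G 1 2) (adjB G 1 3) (adjB G 1 4) (adjB G 2 3) (adjB G 2 4) (adjB G 3 4)
  rw [← adjB_eq5] at h
  simp only [chk5, Bool.or_eq_true] at h
  have ha := adjB_iff G
  rcases h with (((((h | h) | h) | h) | h) | h) | h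
  · exact Or.inl (I3_of ha (by decide +kernel) h)
  · exact Or.inr (Or.inr (Or.inr (Or.inr (Or.inl (CP_of ha (by decide +kernel) h)))))
  · exact Or.inr (Or.inr (Or.inr (Or.inl (K4_of ha h))))
  · exact Or.inr (Or.inr (Or.inr (Or.inr (Or.inr (D4_of ha (by decide +kernel) h)))))
  · exact Or.inr (Or.inl (M2_of ha (by decide +kernel) h))
  · exact Or.inr (Or.inr (Or.inl (NC_of4 ha (by decide +kernel) h)))
  · exact Or.inr (Or.inr (Or.inl (NC_of5 ha (by decide +kernel) h)))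

/-- `T` is the table of `X` -/
def IsTab (T : Fin 4 → Fin 4 → Bool) (X : SimpleGraph (Fin 4)) : Prop :=
  ∀ i j, T i j = true ↔ X.Adj i j

lemma isTab_P : IsTab tP (SimpleGraph.pathGraph 4) := by
  intro i j
  fin_cases i <;> fin_cases j <;> simp [tP, tab4, SimpleGraph.pathGraph_adj]

lemma isTab_W : IsTab tW paw := by
  intro i j
  fin_cases i <;> fin_cases j <;> simp [tW, tab4, paw]

lemma isTab_D : IsTab tD diamond := by
  intro i j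
  fin_cases i <;> fin_cases j <;> simp [tD, tab4, diamond]

lemma perms4_inj : ∀ t ∈ perms4, t.1 ≠ t.2.1 ∧ t.1 ≠ t.2.2.1 ∧ t.1 ≠ t.2.2.2 ∧ t.2.1 ≠ t.2.2.1 ∧
    t.2.1 ≠ t.2.2.2 ∧ t.2.2.1 ≠ t.2.2.2 := by decide +kernel

lemma iff_of_beq {b c : Bool} {P Q : Prop} (h : (b == c) = true) (hb : b = true ↔ P)
    (hc : c = true ↔ Q) : Q ↔ P := by
  rw [beq_iff_eq] at h
  rw [← hb, ← hc, h]

lemma emb4_of {G : SimpleGraph (Fin 4)} {T : Fin 4 → Fin 4 → Bool} {X : SimpleGraph (Fin 4)}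
    (hT : IsTab T X) (h : perms4.any (cE4 T (adjB G)) = true) : Nonempty (G ↪g X) := by
  rw [List.any_eq_true] at h
  obtain ⟨t, ht, h⟩ := h
  obtain ⟨n1, n2, n3, n4, n5, n6⟩ := perms4_inj t ht
  simp only [cE4, Bool.and_eq_true] at h
  obtain ⟨⟨⟨⟨⟨k1, k2⟩, k3⟩, k4⟩, k5⟩, k6⟩ := h
  have key := vec4_adj (G := X) (T := G) (a := t.1) (b := t.2.1) (c := t.2.2.1) (d := t.2.2.2)
    (iff_of_beq k1 (adjB_iff G _ _) (hT _ _)) (iff_of_beq k2 (adjB_iff G _ _) (hT _ _))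
    (iff_of_beq k3 (adjB_iff G _ _) (hT _ _)) (iff_of_beq k4 (adjB_iff G _ _) (hT _ _))
    (iff_of_beq k5 (adjB_iff G _ _) (hT _ _)) (iff_of_beq k6 (adjB_iff G _ _) (hT _ _))
  exact ⟨⟨⟨vec4 t.1 t.2.1 t.2.2.1 t.2.2.2, vec4_inj n1 n2 n3 n4 n5 n6⟩, fun {i j} => key i j⟩⟩

theorem four (G : SimpleGraph (Fin 4)) : Bad G ∨ Nonempty (G ↪g SimpleGraph.pathGraph 4) ∨
    Nonempty (G ↪g paw) ∨ Nonempty (G ↪g diamond) := by
  have h := chk4_all (adjB G 0 1) (adjB G 0 2) (adjB G 0 3) (adjB G 1 2) (adjB G 1 3) (adjB G 2 3)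
  rw [← adjB_eq4] at h
  simp only [chk4, Bool.or_eq_true] at h
  have ha := adjB_iff G
  rcases h with ((((((h | h) | h) | h) | h) | h) | h) | h
  · exact Or.inl (Or.inl (I3_of ha (by decide +kernel) h))
  · exact Or.inl (Or.inr (Or.inr (Or.inr (Or.inr (Or.inl (CP_of ha (by decide +kernel) h))))))
  · exact Or.inl (Or.inr (Or.inr (Or.inr (Or.inl (K4_of ha h)))))
  · exact Or.inl (Or.inr (Or.inl (M2_of ha (by decide +kernel) h)))
  · exact Or.inl (Or.inr (Or.inr (Or.inl (NC_of4 ha (by decide +kernel) h))))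
  · exact Or.inr (Or.inl (emb4_of isTab_P h))
  · exact Or.inr (Or.inr (Or.inl (emb4_of isTab_W h)))
  · exact Or.inr (Or.inr (Or.inr (emb4_of isTab_D h)))

lemma emb3_of {G : SimpleGraph (Fin 3)} {T : Fin 4 → Fin 4 → Bool} {X : SimpleGraph (Fin 4)}
    (hT : IsTab T X) (h : perms4.any (cE3 T (adjB G)) = true) : Nonempty (G ↪g X) := by
  rw [List.any_eq_true] at h
  obtain ⟨t, ht, h⟩ := h
  obtain ⟨n1, n2, n3, n4, n5, n6⟩ := perms4_inj t ht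
  simp only [cE3, Bool.and_eq_true] at h
  obtain ⟨⟨k1, k2⟩, k3⟩ := h
  have h1 := iff_of_beq k1 (adjB_iff G _ _) (hT _ _)
  have h2 := iff_of_beq k2 (adjB_iff G _ _) (hT _ _)
  have h3 := iff_of_beq k3 (adjB_iff G _ _) (hT _ _)
  have h1' := (X.adj_comm _ _).trans (h1.trans (G.adj_comm _ _))
  have h2' := (X.adj_comm _ _).trans (h2.trans (G.adj_comm _ _))
  have h3' := (X.adj_comm _ _).trans (h3.trans (G.adj_comm _ _))
  let f : Fin 3 → Fin 4 := fun i => if i = 0 then t.1 else if i = 1 then t.2.1 else t.2.2.1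
  have f0 : f 0 = t.1 := rfl
  have f1 : f 1 = t.2.1 := rfl
  have f2 : f 2 = t.2.2.1 := rfl
  have all3 : ∀ P : Fin 3 → Prop, (∀ i, P i) ↔ P 0 ∧ P 1 ∧ P 2 := by
    intro P
    constructor
    · intro h; exact ⟨h 0, h 1, h 2⟩
    · rintro ⟨h0, h1, h2⟩ i
      fin_cases i <;> assumption
  have hinj : ∀ i j : Fin 3, f i = f j → i = j := by
    simp only [all3, f0, f1, f2]
    simp [n1, n2, n4, n1.symm, n2.symm, n4.symm]
  have hadj : ∀ i j : Fin 3, X.Adj (f i) (f j) ↔ G.Adj i j := by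
    simp only [all3, f0, f1, f2]
    simp [h1, h2, h3, h1', h2', h3']
  exact ⟨⟨⟨f, fun i j h => hinj i j h⟩, fun {i j} => hadj i j⟩⟩

theorem three (G : SimpleGraph (Fin 3)) : Bad G ∨ Nonempty (G ↪g SimpleGraph.pathGraph 4) ∨
    Nonempty (G ↪g paw) ∨ Nonempty (G ↪g diamond) := by
  have h := chk3_all (adjB G 0 1) (adjB G 0 2) (adjB G 1 2)
  rw [← adjB_eq3] at h
  simp only [chk3, Bool.or_eq_true] at h
  have ha := adjB_iff G
  rcases h with (h | h) | h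
  · exact Or.inl (Or.inl (I3_of ha (by decide +kernel) h))
  · exact Or.inr (Or.inl (emb3_of isTab_P h))
  · exact Or.inr (Or.inr (Or.inl (emb3_of isTab_W h)))

/-- at most two vertices -/
theorem two {W : Type} [Finite W] (G : SimpleGraph W) (h : Nat.card W ≤ 2) :
    Nonempty (G ↪g SimpleGraph.pathGraph 4) := by
  classical
  have : Fintype W := Fintype.ofFinite W
  rw [Nat.card_eq_fintype_card] at h
  by_cases hadj : ∃ a b : W, G.Adj a b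
  · obtain ⟨a, b, hab⟩ := hadj
    have hall : ∀ x : W, x = a ∨ x = b := by
      intro x
      by_contra hcon
      push Not at hcon
      have : ({x, a, b} : Finset W).card ≤ Fintype.card W := Finset.card_le_univ _
      rw [Finset.card_eq_three.2 ⟨x, a, b, hcon.1, hcon.2, hab.ne, rfl⟩] at this
      omega
    refine ⟨⟨⟨fun x => if x = a then 0 else 1, ?_⟩, ?_⟩⟩
    · intro x y hxy
      rcases hall x with rfl | rfl <;> rcases hall y with rfl | rfl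
      · rfl
      · simp [hab.ne.symm] at hxy
      · simp [hab.ne.symm] at hxy
      · rfl
    · intro x y
      rcases hall x with rfl | rfl <;> rcases hall y with rfl | rfl
      · simp
      · simp [hab.ne.symm, hab, SimpleGraph.pathGraph_adj]
      · simp [hab.ne.symm, hab.symm, SimpleGraph.pathGraph_adj]
      · simp
  · push Not at hadj
    by_cases hne : Nonempty W
    · obtain ⟨a⟩ := hne
      have hall : ∀ x y : W, x ≠ a → y ≠ a → x = y := by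
        intro x y hx hy
        by_contra hxy
        have : ({x, y, a} : Finset W).card ≤ Fintype.card W := Finset.card_le_univ _
        rw [Finset.card_eq_three.2 ⟨x, y, a, hxy, hx, hy, rfl⟩] at this
        omega
      refine ⟨⟨⟨fun x => if x = a then 0 else 2, ?_⟩, ?_⟩⟩
      · intro x y hxy
        by_cases hx : x = a <;> by_cases hy : y = a
        · rw [hx, hy]
        · simp [hx, hy] at hxy
        · simp [hx, hy] at hxy
        · exact hall x y hx hy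
      · intro x y
        by_cases hx : x = a <;> by_cases hy : y = a <;>
          simp [hx, hy, hadj, SimpleGraph.pathGraph_adj]
    · exact ⟨⟨⟨fun x => absurd ⟨x⟩ hne, fun x => absurd ⟨x⟩ hne⟩, fun {x} => absurd ⟨x⟩ hne⟩⟩

theorem classify {W : Type} [Finite W] (H : SimpleGraph W) (h : ¬ Bad H) :
    Nonempty (H ↪g SimpleGraph.pathGraph 4) ∨ Nonempty (H ↪g paw) ∨ Nonempty (H ↪g diamond) := by
  by_cases h5 : 5 ≤ Nat.card W
  · exfalso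
    have : Fintype W := Fintype.ofFinite W
    rw [Nat.card_eq_fintype_card] at h5
    obtain ⟨f⟩ := Function.Embedding.nonempty_of_card_le (α := Fin 5) (β := W) (by simpa using h5)
    exact h ((bad5 (H.comap f)).mono (SimpleGraph.Embedding.comap f H))
  by_cases h2 : Nat.card W ≤ 2
  · exact Or.inl (two H h2)
  have hcase : Nat.card W = 3 ∨ Nat.card W = 4 := by omega
  rcases hcase with hc | hc
  · let e : W ≃ Fin 3 := Finite.equivFinOfCardEq hc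
    let f : H ≃g H.comap e.symm := ⟨e, by intro a b; simp⟩
    rcases three (H.comap e.symm) with h' | ⟨⟨h'⟩⟩ | ⟨⟨h'⟩⟩ | ⟨⟨h'⟩⟩
    · exact absurd (h'.mono f.symm.toEmbedding) h
    · exact Or.inl ⟨h'.comp f.toEmbedding⟩
    · exact Or.inr (Or.inl ⟨h'.comp f.toEmbedding⟩)
    · exact Or.inr (Or.inr ⟨h'.comp f.toEmbedding⟩)
  · let e : W ≃ Fin 4 := Finite.equivFinOfCardEq hc
    let f : H ≃g H.comap e.symm := ⟨e, by intro a b; simp⟩
    rcases four (H.comap e.symm) with h' | ⟨⟨h'⟩⟩ | ⟨⟨h'⟩⟩ | ⟨⟨h'⟩⟩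
    · exact absurd (h'.mono f.symm.toEmbedding) h
    · exact Or.inl ⟨h'.comp f.toEmbedding⟩
    · exact Or.inr (Or.inl ⟨h'.comp f.toEmbedding⟩)
    · exact Or.inr (Or.inr ⟨h'.comp f.toEmbedding⟩)

end Pool.Agent.T6.H89.ITM
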