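import Pool.Agent.T6.H89.ITM.Basic

/-!
# Seven properties of graphs preserved by subdivisions
-/

set_option autoImplicit false

namespace Pool.Agent.T6.H89.ITM

open SimpleGraph

section defs
variable {V : Type} (G : SimpleGraph V)

/-- three pairwise non-adjacent vertices -/
def I3 : Prop := ∃ a b c : V, a ≠ b ∧ a ≠ c ∧ b ≠ c ∧ ¬ G.Adj a b ∧ ¬ G.Adj a c ∧ ¬ G.Adj b c

/-- an induced `2 P₂` -/
def M2 : Prop := ∃ a b c d : V, G.Adj a b ∧ G.Adj c d ∧ a ≠ c ∧ a ≠ d ∧ b ≠ c ∧ b ≠ d ∧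
  ¬ G.Adj a c ∧ ¬ G.Adj a d ∧ ¬ G.Adj b c ∧ ¬ G.Adj b d

/-- a nonempty vertex set in which every vertex has two non-adjacent neighbours -/
def NC : Prop := ∃ S : Set V, S.Nonempty ∧ ∀ a ∈ S, ∃ p ∈ S, ∃ q ∈ S, G.Adj a p ∧ G.Adj a q ∧
  p ≠ q ∧ ¬ G.Adj p q

/-- an edge with two common neighbours -/
def E2 : Prop := ∃ a b c d : V, G.Adj a b ∧ G.Adj a c ∧ G.Adj a d ∧ G.Adj b c ∧ G.Adj b d ∧ c ≠ d

/-- a claw -/
def Claw : Prop := ∃ a b c d : V, G.Adj a b ∧ G.Adj a c ∧ G.Adj a d ∧ b ≠ c ∧ b ≠ d ∧ c ≠ d ∧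
  ¬ G.Adj b c ∧ ¬ G.Adj b d ∧ ¬ G.Adj c d

/-- `K₄` -/
def K4 : Prop := ∃ a b c d : V, G.Adj a b ∧ G.Adj a c ∧ G.Adj a d ∧ G.Adj b c ∧ G.Adj b d ∧
  G.Adj c d

/-- a diamond both of whose non-adjacent vertices have a further neighbour -/
def D2 : Prop := ∃ a b c d c' d' : V, G.Adj a b ∧ G.Adj a c ∧ G.Adj a d ∧ G.Adj b c ∧ G.Adj b d ∧
  c ≠ d ∧ ¬ G.Adj c d ∧ G.Adj c c' ∧ G.Adj d d' ∧ ¬ G.Adj c' a ∧ ¬ G.Adj c' b ∧ ¬ G.Adj d' a ∧
  ¬ G.Adj d' b ∧ c' ≠ a ∧ c' ≠ b ∧ d' ≠ a ∧ d' ≠ b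

/-- `K₄`, or a once subdivided `K₄` roughly, or a claw -/
def KDC : Prop := K4 G ∨ D2 G ∨ Claw G

/-- a vertex not adjacent to any vertex of a nonempty set of minimum degree at least two -/
def CP : Prop := ∃ (p : V) (S : Set V), S.Nonempty ∧ p ∉ S ∧ (∀ a ∈ S, ¬ G.Adj p a) ∧
  ∀ a ∈ S, ∃ b ∈ S, ∃ c ∈ S, b ≠ c ∧ G.Adj a b ∧ G.Adj a c

/-- a vertex with four neighbours -/
def D4 : Prop := ∃ a b c d e : V, G.Adj a b ∧ G.Adj a c ∧ G.Adj a d ∧ G.Adj a e ∧ b ≠ c ∧ b ≠ d ∧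
  b ≠ e ∧ c ≠ d ∧ c ≠ e ∧ d ≠ e

end defs

lemma I3_mono : MonoProp @I3 := by
  rintro V W G G' f ⟨a, b, c, h1, h2, h3, h4, h5, h6⟩
  refine ⟨f a, f b, f c, ?_⟩
  simp only [ne_eq, f.injective.eq_iff, f.map_adj_iff]
  exact ⟨h1, h2, h3, h4, h5, h6⟩

lemma M2_mono : MonoProp @M2 := by
  rintro V W G G' f ⟨a, b, c, d, h⟩
  refine ⟨f a, f b, f c, f d, ?_⟩
  simpa only [ne_eq, f.injective.eq_iff, f.map_adj_iff] using h

lemma NC_mono : MonoProp @NC := by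
  rintro V W G G' f ⟨S, hS, h⟩
  refine ⟨f '' S, hS.image f, ?_⟩
  rintro _ ⟨a, ha, rfl⟩
  obtain ⟨p, hp, q, hq, h1, h2, h3, h4⟩ := h a ha
  refine ⟨f p, ⟨p, hp, rfl⟩, f q, ⟨q, hq, rfl⟩, ?_⟩
  simp only [ne_eq, f.injective.eq_iff, f.map_adj_iff]
  exact ⟨h1, h2, h3, h4⟩

lemma KDC_mono : MonoProp @KDC := by
  rintro V W G G' f (⟨a, b, c, d, h⟩ | ⟨a, b, c, d, c', d', h⟩ | ⟨a, b, c, d, h⟩)
  · refine Or.inl ⟨f a, f b, f c, f d, ?_⟩
    simpa only [ne_eq, f.injective.eq_iff, f.map_adj_iff] using h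
  · refine Or.inr (Or.inl ⟨f a, f b, f c, f d, f c', f d', ?_⟩)
    simpa only [ne_eq, f.injective.eq_iff, f.map_adj_iff] using h
  · refine Or.inr (Or.inr ⟨f a, f b, f c, f d, ?_⟩)
    simpa only [ne_eq, f.injective.eq_iff, f.map_adj_iff] using h

lemma CP_mono : MonoProp @CP := by
  rintro V W G G' f ⟨p, S, hS, hp, h1, h2⟩
  refine ⟨f p, f '' S, hS.image f, ?_, ?_, ?_⟩
  · rintro ⟨a, ha, h⟩
    rw [f.injective.eq_iff] at h
    exact hp (h ▸ ha)
  · rintro _ ⟨a, ha, rfl⟩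
    rw [f.map_adj_iff]; exact h1 a ha
  · rintro _ ⟨a, ha, rfl⟩
    obtain ⟨b, hb, c, hc, h3, h4, h5⟩ := h2 a ha
    refine ⟨f b, ⟨b, hb, rfl⟩, f c, ⟨c, hc, rfl⟩, ?_⟩
    simp only [ne_eq, f.injective.eq_iff, f.map_adj_iff]
    exact ⟨h3, h4, h5⟩

lemma D4_mono : MonoProp @D4 := by
  rintro V W G G' f ⟨a, b, c, d, e, h⟩
  refine ⟨f a, f b, f c, f d, f e, ?_⟩
  simpa only [ne_eq, f.injective.eq_iff, f.map_adj_iff] using h

/-! ### Stability -/

lemma I3_stable : StableProp @I3 := by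
  rintro V G u v huv ⟨a, b, c, h1, h2, h3, h4, h5, h6⟩
  refine ⟨some a, some b, some c, ?_⟩
  simp only [ne_eq, Option.some_inj, sd_some_some]
  tauto

/-- replacing a neighbour by the new vertex -/
lemma repl {V : Type} {G : SimpleGraph V} {u v a p : V} (h : G.Adj a p) :
    ∃ p' : Option V, (subdivideEdge G u v).Adj (some a) p' ∧
      ((p' = some p ∧ s(a, p) ≠ s(u, v)) ∨ (p' = none ∧ s(a, p) = s(u, v))) := by
  by_cases hs : s(a, p) = s(u, v)
  · refine ⟨none, ?_, Or.inr ⟨rfl, hs⟩⟩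
    rw [sd_some_none]
    rw [Sym2.eq_iff] at hs
    tauto
  · exact ⟨some p, by rw [sd_some_some]; exact ⟨h, hs⟩, Or.inl ⟨rfl, hs⟩⟩

lemma M2_stable : StableProp @M2 := by
  rintro V G u v huv ⟨a, b, c, d, h1, h2, h3, h4, h5, h6, h7, h8, h9, h10⟩
  by_cases e1 : s(a, b) = s(u, v)
  · have e2 : s(c, d) ≠ s(u, v) := by
      intro e2
      rw [← e1, Sym2.eq_iff] at e2
      rcases e2 with ⟨e, _⟩ | ⟨e, _⟩
      · exact h3 e.symm
      · exact h5 e.symm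
    refine ⟨some a, none, some c, some d, ?_⟩
    simp only [ne_eq, Option.some_inj, sd_some_some, sd_some_none, sd_none_some, reduceCtorEq,
      not_false_eq_true]
    rw [Sym2.eq_iff] at e1
    rcases e1 with ⟨rfl, rfl⟩ | ⟨rfl, rfl⟩
    · exact ⟨Or.inl rfl, ⟨h2, e2⟩, h3, h4, trivial, trivial, fun h => h7 h.1, fun h => h8 h.1,
        by rintro (h | h) <;> [exact h3 h.symm; exact h5 h.symm],
        by rintro (h | h) <;> [exact h4 h.symm; exact h6 h.symm]⟩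
    · exact ⟨Or.inr rfl, ⟨h2, e2⟩, h3, h4, trivial, trivial, fun h => h7 h.1, fun h => h8 h.1,
        by rintro (h | h) <;> [exact h5 h.symm; exact h3 h.symm],
        by rintro (h | h) <;> [exact h6 h.symm; exact h4 h.symm]⟩
  by_cases e2 : s(c, d) = s(u, v)
  · refine ⟨some a, some b, some c, none, ?_⟩
    simp only [ne_eq, Option.some_inj, sd_some_some, sd_some_none, sd_none_some, reduceCtorEq,
      not_false_eq_true]
    rw [Sym2.eq_iff] at e2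
    rcases e2 with ⟨rfl, rfl⟩ | ⟨rfl, rfl⟩
    · exact ⟨⟨h1, e1⟩, Or.inl rfl, h3, trivial, h5, trivial, fun h => h7 h.1,
        by rintro (h | h) <;> [exact h3 h; exact h4 h], fun h => h9 h.1,
        by rintro (h | h) <;> [exact h5 h; exact h6 h]⟩
    · exact ⟨⟨h1, e1⟩, Or.inr rfl, h3, trivial, h5, trivial, fun h => h7 h.1,
        by rintro (h | h) <;> [exact h4 h; exact h3 h], fun h => h9 h.1,
        by rintro (h | h) <;> [exact h6 h; exact h5 h]⟩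
  refine ⟨some a, some b, some c, some d, ?_⟩
  simp only [ne_eq, Option.some_inj, sd_some_some]
  exact ⟨⟨h1, e1⟩, ⟨h2, e2⟩, h3, h4, h5, h6, fun h => h7 h.1, fun h => h8 h.1, fun h => h9 h.1,
    fun h => h10 h.1⟩

lemma NC_stable : StableProp @NC := by
  rintro V G u v huv ⟨S, hS, h⟩
  refine ⟨{x | (∃ a ∈ S, x = some a) ∨ (x = none ∧ u ∈ S ∧ v ∈ S)}, ?_, ?_⟩
  · obtain ⟨a, ha⟩ := hS
    exact ⟨some a, Or.inl ⟨a, ha, rfl⟩⟩
  · rintro x (⟨a, ha, rfl⟩ | ⟨rfl, hu, hv⟩)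
    · obtain ⟨p, hp, q, hq, h1, h2, h3, h4⟩ := h a ha
      by_cases e1 : s(a, p) = s(u, v)
      · have e2 : s(a, q) ≠ s(u, v) := by
          intro e2
          rw [← e1, Sym2.eq_iff] at e2
          rcases e2 with ⟨_, e⟩ | ⟨e, e'⟩
          · exact h3 e.symm
          · exact h1.ne e
        have hm : u ∈ S ∧ v ∈ S := by
          rw [Sym2.eq_iff] at e1
          rcases e1 with ⟨rfl, rfl⟩ | ⟨rfl, rfl⟩
          · exact ⟨ha, hp⟩
          · exact ⟨hp, ha⟩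
        refine ⟨none, Or.inr ⟨rfl, hm.1, hm.2⟩, some q, Or.inl ⟨q, hq, rfl⟩, ?_, ?_, ?_, ?_⟩
        · rw [sd_some_none]; rw [Sym2.eq_iff] at e1; tauto
        · rw [sd_some_some]; exact ⟨h2, e2⟩
        · simp
        · rw [sd_none_some]
          rw [Sym2.eq_iff] at e1
          rintro (e | e)
          · rcases e1 with ⟨e3, e4⟩ | ⟨e3, e4⟩
            · exact h2.ne (e3.trans e.symm)
            · exact h3 (e4.trans e.symm)
          · rcases e1 with ⟨e3, e4⟩ | ⟨e3, e4⟩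
            · exact h3 (e4.trans e.symm)
            · exact h2.ne (e3.trans e.symm)
      · by_cases e2 : s(a, q) = s(u, v)
        · have hm : u ∈ S ∧ v ∈ S := by
            rw [Sym2.eq_iff] at e2
            rcases e2 with ⟨rfl, rfl⟩ | ⟨rfl, rfl⟩
            · exact ⟨ha, hq⟩
            · exact ⟨hq, ha⟩
          refine ⟨some p, Or.inl ⟨p, hp, rfl⟩, none, Or.inr ⟨rfl, hm.1, hm.2⟩, ?_, ?_, ?_, ?_⟩
          · rw [sd_some_some]; exact ⟨h1, e1⟩
          · rw [sd_some_none]; rw [Sym2.eq_iff] at e2; tauto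
          · simp
          · rw [sd_some_none]
            rw [Sym2.eq_iff] at e2
            rintro (e | e)
            · rcases e2 with ⟨e3, e4⟩ | ⟨e3, e4⟩
              · exact h1.ne (e3.trans e.symm)
              · exact h3 (e.trans e4.symm)
            · rcases e2 with ⟨e3, e4⟩ | ⟨e3, e4⟩
              · exact h3 (e.trans e4.symm)
              · exact h1.ne (e3.trans e.symm)
        · refine ⟨some p, Or.inl ⟨p, hp, rfl⟩, some q, Or.inl ⟨q, hq, rfl⟩, ?_⟩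
          simp only [ne_eq, Option.some_inj, sd_some_some]
          exact ⟨⟨h1, e1⟩, ⟨h2, e2⟩, h3, fun h => h4 h.1⟩
    · refine ⟨some u, Or.inl ⟨u, hu, rfl⟩, some v, Or.inl ⟨v, hv, rfl⟩, ?_, ?_, ?_, ?_⟩
      · rw [sd_none_some]; exact Or.inl rfl
      · rw [sd_none_some]; exact Or.inr rfl
      · simpa using huv.ne
      · rw [sd_some_some]
        rintro ⟨_, h⟩
        exact h rfl

lemma CP_stable : StableProp @CP := by
  rintro V G u v huv ⟨p, S, hS, hp, h1, h2⟩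
  refine ⟨some p, {x | (∃ a ∈ S, x = some a) ∨ (x = none ∧ u ∈ S ∧ v ∈ S)}, ?_, ?_, ?_, ?_⟩
  · obtain ⟨a, ha⟩ := hS
    exact ⟨some a, Or.inl ⟨a, ha, rfl⟩⟩
  · rintro (⟨a, ha, h⟩ | ⟨h, _⟩)
    · rw [Option.some_inj] at h
      exact hp (h ▸ ha)
    · simp at h
  · rintro x (⟨a, ha, rfl⟩ | ⟨rfl, hu, hv⟩)
    · rw [sd_some_some]; exact fun h => h1 a ha h.1
    · rw [sd_some_none]
      rintro (rfl | rfl)
      · exact hp hu
      · exact hp hv
  · rintro x (⟨a, ha, rfl⟩ | ⟨rfl, hu, hv⟩)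
    · obtain ⟨b, hb, c, hc, h3, h4, h5⟩ := h2 a ha
      have key : ∀ b ∈ S, G.Adj a b → ∃ b' : Option V, (subdivideEdge G u v).Adj (some a) b' ∧
          ((∃ a ∈ S, b' = some a) ∨ (b' = none ∧ u ∈ S ∧ v ∈ S)) ∧
          ((b' = some b ∧ s(a, b) ≠ s(u, v)) ∨ (b' = none ∧ s(a, b) = s(u, v))) := by
        intro b hb hab
        obtain ⟨b', h6, h7⟩ := repl (u := u) (v := v) hab
        refine ⟨b', h6, ?_, h7⟩
        rcases h7 with ⟨rfl, _⟩ | ⟨rfl, h8⟩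
        · exact Or.inl ⟨b, hb, rfl⟩
        · rw [Sym2.eq_iff] at h8
          rcases h8 with ⟨rfl, rfl⟩ | ⟨rfl, rfl⟩
          · exact Or.inr ⟨rfl, ha, hb⟩
          · exact Or.inr ⟨rfl, hb, ha⟩
      obtain ⟨b', k1, k2, k3⟩ := key b hb h4
      obtain ⟨c', l1, l2, l3⟩ := key c hc h5
      refine ⟨b', k2, c', l2, ?_, k1, l1⟩
      rintro rfl
      rcases k3 with ⟨rfl, _⟩ | ⟨rfl, e1⟩
      · rcases l3 with ⟨e, _⟩ | ⟨e, _⟩
        · rw [Option.some_inj] at e; exact h3 e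
        · simp at e
      · rcases l3 with ⟨e, _⟩ | ⟨_, e2⟩
        · simp at e
        · rw [← e2, Sym2.eq_iff] at e1
          rcases e1 with ⟨_, e⟩ | ⟨e, e'⟩
          · exact h3 e
          · exact h5.ne e
    · refine ⟨some u, Or.inl ⟨u, hu, rfl⟩, some v, Or.inl ⟨v, hv, rfl⟩, ?_, ?_, ?_⟩
      · simpa using huv.ne
      · rw [sd_none_some]; exact Or.inl rfl
      · rw [sd_none_some]; exact Or.inr rfl

/-- distinct neighbours are replaced by distinct neighbours -/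
lemma repl_ne {V : Type} {u v a p q : V} (hap : a ≠ p) (hpq : p ≠ q)
    {p' q' : Option V} (h1 : (p' = some p ∧ s(a, p) ≠ s(u, v)) ∨ (p' = none ∧ s(a, p) = s(u, v)))
    (h2 : (q' = some q ∧ s(a, q) ≠ s(u, v)) ∨ (q' = none ∧ s(a, q) = s(u, v))) : p' ≠ q' := by
  rcases h1 with ⟨rfl, _⟩ | ⟨rfl, e1⟩ <;> rcases h2 with ⟨rfl, _⟩ | ⟨rfl, e2⟩
  · simpa using hpq
  · simp
  · simp
  · exfalso
    rw [← e2, Sym2.eq_iff] at e1
    rcases e1 with ⟨_, e⟩ | ⟨e, e'⟩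
    · exact hpq e
    · exact hap e'.symm

/-- replaced neighbours of `a` are non-adjacent if the old ones were -/
lemma repl_nadj {V : Type} {G : SimpleGraph V} {u v a p q : V} (hap : G.Adj a p) (haq : G.Adj a q)
    (hpq : p ≠ q) (hn : ¬ G.Adj p q)
    {p' q' : Option V} (h1 : (p' = some p ∧ s(a, p) ≠ s(u, v)) ∨ (p' = none ∧ s(a, p) = s(u, v)))
    (h2 : (q' = some q ∧ s(a, q) ≠ s(u, v)) ∨ (q' = none ∧ s(a, q) = s(u, v))) :
    ¬ (subdivideEdge G u v).Adj p' q' := by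
  rcases h1 with ⟨rfl, k1⟩ | ⟨rfl, e1⟩ <;> rcases h2 with ⟨rfl, k2⟩ | ⟨rfl, e2⟩
  · rw [sd_some_some]; exact fun h => hn h.1
  · rw [sd_some_none]
    rw [Sym2.eq_iff] at e2
    rintro (rfl | rfl)
    · rcases e2 with ⟨e, _⟩ | ⟨_, e⟩
      · exact hap.ne e
      · exact hpq e.symm
    · rcases e2 with ⟨_, e⟩ | ⟨e, _⟩
      · exact hpq e.symm
      · exact hap.ne e
  · rw [sd_none_some]
    rw [Sym2.eq_iff] at e1
    rintro (rfl | rfl)
    · rcases e1 with ⟨e, _⟩ | ⟨_, e⟩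
      · exact haq.ne e
      · exact hpq e
    · rcases e1 with ⟨_, e⟩ | ⟨e, _⟩
      · exact hpq e
      · exact haq.ne e
  · simp

lemma D4_stable : StableProp @D4 := by
  rintro V G u v huv ⟨a, b, c, d, e, h1, h2, h3, h4, h5, h6, h7, h8, h9, h10⟩
  obtain ⟨b', k1, l1⟩ := repl (u := u) (v := v) h1
  obtain ⟨c', k2, l2⟩ := repl (u := u) (v := v) h2
  obtain ⟨d', k3, l3⟩ := repl (u := u) (v := v) h3
  obtain ⟨e', k4, l4⟩ := repl (u := u) (v := v) h4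
  exact ⟨some a, b', c', d', e', k1, k2, k3, k4, repl_ne h1.ne h5 l1 l2, repl_ne h1.ne h6 l1 l3,
    repl_ne h1.ne h7 l1 l4, repl_ne h2.ne h8 l2 l3, repl_ne h2.ne h9 l2 l4,
    repl_ne h3.ne h10 l3 l4⟩

lemma Claw_stable : StableProp @Claw := by
  rintro V G u v huv ⟨a, b, c, d, h1, h2, h3, h4, h5, h6, h7, h8, h9⟩
  obtain ⟨b', k1, l1⟩ := repl (u := u) (v := v) h1
  obtain ⟨c', k2, l2⟩ := repl (u := u) (v := v) h2
  obtain ⟨d', k3, l3⟩ := repl (u := u) (v := v) h3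
  exact ⟨some a, b', c', d', k1, k2, k3, repl_ne h1.ne h4 l1 l2, repl_ne h1.ne h5 l1 l3,
    repl_ne h2.ne h6 l2 l3, repl_nadj h1 h2 h4 h7 l1 l2, repl_nadj h1 h3 h5 h8 l1 l3,
    repl_nadj h2 h3 h6 h9 l2 l3⟩

/-- a claw centred at the end `a` of the subdivided edge `a w` with further non-adjacent
neighbours `p`, `q` -/
lemma claw_at {V : Type} {G : SimpleGraph V} {u v a w p q : V} (e : s(a, w) = s(u, v))
    (hp : G.Adj a p) (hq : G.Adj a q) (hpq : p ≠ q) (hn : ¬ G.Adj p q) (hwp : w ≠ p)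
    (hwq : w ≠ q) : Claw (subdivideEdge G u v) := by
  have e0 := e
  rw [Sym2.eq_iff] at e
  have ep : s(a, p) ≠ s(u, v) := by
    rw [← e0]; intro h
    rw [Sym2.eq_iff] at h
    rcases h with ⟨_, h⟩ | ⟨h, h'⟩
    · exact hwp h.symm
    · exact hp.ne h'.symm
  have eq : s(a, q) ≠ s(u, v) := by
    rw [← e0]; intro h
    rw [Sym2.eq_iff] at h
    rcases h with ⟨_, h⟩ | ⟨h, h'⟩
    · exact hwq h.symm
    · exact hq.ne h'.symm
  refine ⟨some a, none, some p, some q, ?_⟩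
  simp only [ne_eq, Option.some_inj, sd_some_some, sd_some_none, sd_none_some, reduceCtorEq,
      not_false_eq_true, true_and]
  have hap := hp.ne
  have haq := hq.ne
  refine ⟨by tauto, ⟨hp, ep⟩, ⟨hq, eq⟩, hpq, ?_, ?_, fun h => hn h.1⟩
  · rintro (rfl | rfl)
    · rcases e with ⟨h, _⟩ | ⟨_, h⟩
      · exact hap h
      · exact hwp h
    · rcases e with ⟨_, h⟩ | ⟨h, _⟩
      · exact hwp h
      · exact hap h
  · rintro (rfl | rfl)
    · rcases e with ⟨h, _⟩ | ⟨_, h⟩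
      · exact haq h
      · exact hwq h
    · rcases e with ⟨_, h⟩ | ⟨h, _⟩
      · exact hwq h
      · exact haq h

/-- subdividing the edge `c d` of a `K₄` -/
lemma k4_step {V : Type} {G : SimpleGraph V} {u v a b c d : V} (e : s(c, d) = s(u, v))
    (h1 : G.Adj a b) (h2 : G.Adj a c) (h3 : G.Adj a d) (h4 : G.Adj b c) (h5 : G.Adj b d)
    (h6 : G.Adj c d) : D2 (subdivideEdge G u v) := by
  have n1 := h1.ne
  have n2 := h2.ne
  have n3 := h3.ne
  have n4 := h4.ne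
  have n5 := h5.ne
  have n6 := h6.ne
  refine ⟨some a, some b, some c, some d, none, none, ?_⟩
  simp only [ne_eq, Option.some_inj, sd_some_some, sd_some_none, sd_none_some, reduceCtorEq,
      not_false_eq_true, ← e, and_true, Sym2.eq_iff]
  have e' := e
  rw [Sym2.eq_iff] at e'
  have key : ∀ z, (z = u ∨ z = v) ↔ (z = c ∨ z = d) := by
    intro z
    rcases e' with ⟨rfl, rfl⟩ | ⟨rfl, rfl⟩ <;> tauto
  simp only [key]
  refine ⟨⟨h1, ?_⟩, ⟨h2, ?_⟩, ⟨h3, ?_⟩, ⟨h4, ?_⟩, ⟨h5, ?_⟩, n6, ?_, ?_, ?_, ?_, ?_, ?_, ?_⟩ <;> tauto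

lemma KDC_stable : StableProp @KDC := by
  rintro V G u v huv (⟨a, b, c, d, h1, h2, h3, h4, h5, h6⟩ |
    ⟨a, b, c, d, c', d', h1, h2, h3, h4, h5, h6, h7, h8, h9, h10, h11, h12, h13, h14, h15, h16,
      h17⟩ | h)
  · -- `K₄`
    by_cases e1 : s(a, b) = s(u, v)
    · exact Or.inr (Or.inl (k4_step e1 h6 h2.symm h4.symm h3.symm h5.symm h1))
    by_cases e2 : s(a, c) = s(u, v)
    · exact Or.inr (Or.inl (k4_step e2 h5 h1.symm h4 h3.symm h6.symm h2))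
    by_cases e3 : s(a, d) = s(u, v)
    · exact Or.inr (Or.inl (k4_step e3 h4 h1.symm h5 h2.symm h6 h3))
    by_cases e4 : s(b, c) = s(u, v)
    · exact Or.inr (Or.inl (k4_step e4 h3 h1 h2 h5.symm h6.symm h4))
    by_cases e5 : s(b, d) = s(u, v)
    · exact Or.inr (Or.inl (k4_step e5 h2 h1 h3 h4.symm h6 h5))
    by_cases e6 : s(c, d) = s(u, v)
    · exact Or.inr (Or.inl (k4_step e6 h1 h2 h3 h4 h5 h6))
    refine Or.inl ⟨some a, some b, some c, some d, ?_⟩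
    simp only [sd_some_some]
    exact ⟨⟨h1, e1⟩, ⟨h2, e2⟩, ⟨h3, e3⟩, ⟨h4, e4⟩, ⟨h5, e5⟩, ⟨h6, e6⟩⟩
  · have nab := h1.ne
    have nac := h2.ne
    have nad := h3.ne
    have nbc := h4.ne
    have nbd := h5.ne
    have hcd' : c ≠ d' := by rintro rfl; exact h12 h2.symm
    have hdc' : d ≠ c' := by rintro rfl; exact h10 h3.symm
    by_cases e1 : s(a, b) = s(u, v)
    · exact Or.inr (Or.inr (claw_at e1 h2 h3 h6 h7 nbc nbd))
    by_cases e2 : s(a, c) = s(u, v)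
    · refine Or.inr (Or.inr (claw_at (a := c) (w := a) (by rw [Sym2.eq_swap]; exact e2) h4.symm h8
        h15.symm (fun h => h11 h.symm) nab h14.symm))
    by_cases e3 : s(a, d) = s(u, v)
    · refine Or.inr (Or.inr (claw_at (a := d) (w := a) (by rw [Sym2.eq_swap]; exact e3) h5.symm h9
        h17.symm (fun h => h13 h.symm) nab h16.symm))
    by_cases e4 : s(b, c) = s(u, v)
    · refine Or.inr (Or.inr (claw_at (a := c) (w := b) (by rw [Sym2.eq_swap]; exact e4) h2.symm h8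
        h14.symm (fun h => h10 h.symm) nab.symm h15.symm))
    by_cases e5 : s(b, d) = s(u, v)
    · refine Or.inr (Or.inr (claw_at (a := d) (w := b) (by rw [Sym2.eq_swap]; exact e5) h3.symm h9
        h16.symm (fun h => h12 h.symm) nab.symm h17.symm))
    -- the diamond is untouched
    obtain ⟨c'', k1, l1⟩ := repl (u := u) (v := v) h8
    obtain ⟨d'', k2, l2⟩ := repl (u := u) (v := v) h9
    have hc : ∀ z, z ≠ c → ¬ G.Adj c' z → c' ≠ z → ¬ (subdivideEdge G u v).Adj c'' (some z) ∧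
        c'' ≠ some z := by
      intro z hz hz1 hz2
      rcases l1 with ⟨rfl, _⟩ | ⟨rfl, e⟩
      · rw [sd_some_some]
        exact ⟨fun h => hz1 h.1, by simpa using hz2⟩
      · rw [sd_none_some]
        refine ⟨?_, by simp⟩
        rw [Sym2.eq_iff] at e
        rcases e with ⟨rfl, rfl⟩ | ⟨rfl, rfl⟩
        · rintro (h | h)
          · exact hz h
          · exact hz2 h.symm
        · rintro (h | h)
          · exact hz2 h.symm
          · exact hz h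
    have hd : ∀ z, z ≠ d → ¬ G.Adj d' z → d' ≠ z → ¬ (subdivideEdge G u v).Adj d'' (some z) ∧
        d'' ≠ some z := by
      intro z hz hz1 hz2
      rcases l2 with ⟨rfl, _⟩ | ⟨rfl, e⟩
      · rw [sd_some_some]
        exact ⟨fun h => hz1 h.1, by simpa using hz2⟩
      · rw [sd_none_some]
        refine ⟨?_, by simp⟩
        rw [Sym2.eq_iff] at e
        rcases e with ⟨rfl, rfl⟩ | ⟨rfl, rfl⟩
        · rintro (h | h)
          · exact hz h
          · exact hz2 h.symm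
        · rintro (h | h)
          · exact hz2 h.symm
          · exact hz h
    obtain ⟨p1, p2⟩ := hc a nac h10 h14
    obtain ⟨p3, p4⟩ := hc b nbc h11 h15
    obtain ⟨q1, q2⟩ := hd a nad h12 h16
    obtain ⟨q3, q4⟩ := hd b nbd h13 h17
    refine Or.inr (Or.inl ⟨some a, some b, some c, some d, c'', d'', ?_, ?_, ?_, ?_, ?_, ?_, ?_,
      k1, k2, p1, p3, q1, q3, p2, p4, q2, q4⟩)
    · rw [sd_some_some]; exact ⟨h1, e1⟩
    · rw [sd_some_some]; exact ⟨h2, e2⟩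
    · rw [sd_some_some]; exact ⟨h3, e3⟩
    · rw [sd_some_some]; exact ⟨h4, e4⟩
    · rw [sd_some_some]; exact ⟨h5, e5⟩
    · simpa using h6
    · rw [sd_some_some]; exact fun h => h7 h.1
  · exact Or.inr (Or.inr (Claw_stable G u v huv h))

end Pool.Agent.T6.H89.ITM
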