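import Pool.Agent.H175R2.Fam
import Pool.Agent.T6.H89.ITM.Inv

/-!
# Families of unbounded clique-width
-/

set_option autoImplicit false

namespace Pool.Agent.T6.H89.ITM

open Pool.Agent.H175R2 Pool.Agent.H175R2.CutAux

/-! ### The known families -/

theorem cobip_not_I3 (n : ℕ) : ¬ I3 (famCobip n) := by
  rintro ⟨a, b, c, h1, h2, h3, h4, h5, h6⟩
  have key1 : ∀ x y : Fin n, Sum.inl x ≠ (Sum.inl y : Fin n ⊕ (Fin n × Fin n)) →
      (famCobip n).Adj (.inl x) (.inl y) := by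
    intro x y hxy
    rw [famCobip, SimpleGraph.fromRel_adj]
    exact ⟨hxy, Or.inl (Or.inl ⟨x, y, rfl, rfl⟩)⟩
  have key2 : ∀ x y : Fin n × Fin n, Sum.inr x ≠ (Sum.inr y : Fin n ⊕ (Fin n × Fin n)) →
      (famCobip n).Adj (.inr x) (.inr y) := by
    intro x y hxy
    rw [famCobip, SimpleGraph.fromRel_adj]
    exact ⟨hxy, Or.inl (Or.inr (Or.inl ⟨x, y, rfl, rfl⟩))⟩
  rcases a with a | a <;> rcases b with b | b <;> rcases c with c | c <;>
    first
    | exact h4 (key1 _ _ h1)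
    | exact h5 (key1 _ _ h2)
    | exact h6 (key1 _ _ h3)
    | exact h4 (key2 _ _ h1)
    | exact h5 (key2 _ _ h2)
    | exact h6 (key2 _ _ h3)

theorem split_clique (n : ℕ) (x y : Fin n) (hxy : x ≠ y) : (famSplit n).Adj (.inl x) (.inl y) := by
  rw [famSplit, SimpleGraph.fromRel_adj]
  exact ⟨by simpa using hxy, Or.inl (Or.inl ⟨x, y, rfl, rfl⟩)⟩

theorem split_indep (n : ℕ) (x y : Fin n × Fin n) : ¬ (famSplit n).Adj (.inr x) (.inr y) := by
  rw [famSplit, SimpleGraph.fromRel_adj]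
  simp

theorem split_not_M2 (n : ℕ) : ¬ M2 (famSplit n) := by
  rintro ⟨a, b, c, d, h1, h2, h3, h4, h5, h6, h7, h8, h9, h10⟩
  -- each edge has an end in the clique
  have hends : ∀ a b : Fin n ⊕ (Fin n × Fin n), (famSplit n).Adj a b →
      (∃ x, a = .inl x) ∨ ∃ x, b = .inl x := by
    rintro (a | a) (b | b) h
    · exact Or.inl ⟨a, rfl⟩
    · exact Or.inl ⟨a, rfl⟩
    · exact Or.inr ⟨b, rfl⟩
    · exact absurd h (split_indep n a b)
  have hcl : ∀ a b : Fin n ⊕ (Fin n × Fin n), (∃ x, a = .inl x) → (∃ x, b = .inl x) → a ≠ b →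
      (famSplit n).Adj a b := by
    rintro _ _ ⟨x, rfl⟩ ⟨y, rfl⟩ h
    exact split_clique n x y (by simpa using h)
  rcases hends a b h1 with ha | hb <;> rcases hends c d h2 with hc | hd
  · exact h7 (hcl a c ha hc h3)
  · exact h8 (hcl a d ha hd h4)
  · exact h9 (hcl b c hb hc h5)
  · exact h10 (hcl b d hb hd h6)

theorem split_not_NC (n : ℕ) : ¬ NC (famSplit n) := by
  rintro ⟨S, ⟨a, ha⟩, h⟩
  -- no vertex of the independent side
  have hno : ∀ x : Fin n × Fin n, Sum.inr x ∉ S := by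
    intro x hx
    obtain ⟨p, hp, q, hq, h1, h2, h3, h4⟩ := h _ hx
    rcases p with p | p
    · rcases q with q | q
      · exact h4 (split_clique n p q (by simpa using h3))
      · exact split_indep n x q h2
    · exact split_indep n x p h1
  obtain ⟨p, hp, q, hq, h1, h2, h3, h4⟩ := h a ha
  rcases p with p | p
  · rcases q with q | q
    · exact h4 (split_clique n p q (by simpa using h3))
    · exact hno q hq
  · exact hno p hp

theorem trunc_adj' {n : ℕ} (x y : {p : Fin n × Fin n // p.1 ≠ p.2}) :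
    (famTrunc n).Adj x y ↔ x ≠ y ∧ ¬ (x.1.1 = y.1.1 ∨ (x.1.1 = y.1.2 ∧ x.1.2 = y.1.1)) := by
  unfold famTrunc
  rw [SimpleGraph.fromRel_adj]
  constructor
  · rintro ⟨h1, h2 | h2⟩
    · exact ⟨h1, h2⟩
    · refine ⟨h1, ?_⟩
      rintro (h | ⟨h, h'⟩)
      · exact h2 (Or.inl h.symm)
      · exact h2 (Or.inr ⟨h'.symm, h.symm⟩)
  · rintro ⟨h1, h2⟩
    exact ⟨h1, Or.inl h2⟩

theorem trunc_not_CP (n : ℕ) : ¬ CP (famTrunc n) := by
  rintro ⟨p, S, ⟨a, ha⟩, hp, h1, h2⟩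
  have hS : ∀ a ∈ S, p.1.1 = a.1.1 ∨ (p.1.1 = a.1.2 ∧ p.1.2 = a.1.1) := by
    intro a ha
    by_contra hcon
    refine h1 a ha ?_
    rw [trunc_adj']
    exact ⟨by rintro rfl; exact hp ha, hcon⟩
  -- vertices of the same clique as `p` have at most one neighbour in `S`
  have hone : ∀ a ∈ S, ¬ p.1.1 = a.1.1 := by
    intro a ha hpa
    obtain ⟨b, hb, c, hc, hbc, hab, hac⟩ := h2 a ha
    rw [trunc_adj'] at hab hac
    have hb1 : ¬ p.1.1 = b.1.1 := fun h => hab.2 (Or.inl (hpa.symm.trans h))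
    have hc1 : ¬ p.1.1 = c.1.1 := fun h => hac.2 (Or.inl (hpa.symm.trans h))
    have hb2 := (hS b hb).resolve_left hb1
    have hc2 := (hS c hc).resolve_left hc1
    apply hbc
    apply Subtype.ext
    apply Prod.ext
    · exact hb2.2.symm.trans hc2.2
    · exact hb2.1.symm.trans hc2.1
  obtain ⟨b, hb, c, hc, hbc, hab, hac⟩ := h2 a ha
  have hb2 := (hS b hb).resolve_left (hone b hb)
  have ha2 := (hS a ha).resolve_left (hone a ha)
  rw [trunc_adj'] at hab
  exact hab.1 (Subtype.ext (Prod.ext (ha2.2.symm.trans hb2.2) (ha2.1.symm.trans hb2.1)))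

/-! ### The truncated hexagonal grid -/

/-- vertices of the truncated hexagonal grid -/
abbrev TV (n : ℕ) : Type := (Fin n × Fin n) × (Bool × Fin 3)

/-- the links between two triangles -/
def Link {n : ℕ} (x y : TV n) : Prop :=
  x.2.1 = true ∧ y.2.1 = false ∧ x.2.2 = y.2.2 ∧
    ((x.2.2 = 0 ∧ x.1.1 = y.1.1 ∧ x.1.2 = y.1.2) ∨
     (x.2.2 = 1 ∧ x.1.1 = y.1.1 ∧ x.1.2.val + 1 = y.1.2.val) ∨
     (x.2.2 = 2 ∧ x.1.1.val + 1 = y.1.1.val ∧ x.1.2 = y.1.2))

/-- The truncated hexagonal grid: `n²` triangles `((i, j), (false, ·))`, `n²` triangles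
`((i, j), (true, ·))`, and links. -/
def hex (n : ℕ) : SimpleGraph (TV n) :=
  SimpleGraph.fromRel (fun x y => (x.1 = y.1 ∧ x.2.1 = y.2.1) ∨ Link x y)

theorem hex_adj {n : ℕ} (x y : TV n) : (hex n).Adj x y ↔
    x ≠ y ∧ ((x.1 = y.1 ∧ x.2.1 = y.2.1) ∨ Link x y ∨ Link y x) := by
  unfold hex
  rw [SimpleGraph.fromRel_adj]
  constructor
  · rintro ⟨h, (h1 | h1) | (h1 | h1)⟩
    · exact ⟨h, Or.inl h1⟩
    · exact ⟨h, Or.inr (Or.inl h1)⟩
    · exact ⟨h, Or.inl ⟨h1.1.symm, h1.2.symm⟩⟩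
    · exact ⟨h, Or.inr (Or.inr h1)⟩
  · rintro ⟨h, h1 | h1 | h1⟩
    · exact ⟨h, Or.inl (Or.inl h1)⟩
    · exact ⟨h, Or.inl (Or.inr h1)⟩
    · exact ⟨h, Or.inr (Or.inr h1)⟩

/-- partners -/
def Part {n : ℕ} (x y : TV n) : Prop := Link x y ∨ Link y x

theorem Part.symm {n : ℕ} {x y : TV n} (h : Part x y) : Part y x := h.elim Or.inr Or.inl

theorem part_unique {n : ℕ} {x y z : TV n} (h1 : Part x y) (h2 : Part x z) : y = z := by
  obtain ⟨⟨i, j⟩, s, r⟩ := x
  obtain ⟨⟨i', j'⟩, s', r'⟩ := y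
  obtain ⟨⟨i'', j''⟩, s'', r''⟩ := z
  unfold Part Link at h1 h2
  simp only [Prod.mk.injEq] at *
  have e1 : s' = s'' := by
    rcases h1 with h1 | h1 <;> rcases h2 with h2 | h2
    · rw [h1.2.1, h2.2.1]
    · have := h1.1.symm.trans h2.2.1; simp at this
    · have := h1.2.1.symm.trans h2.1; simp at this
    · rw [h1.1, h2.1]
  have e2 : r' = r'' := by
    rcases h1 with h1 | h1 <;> rcases h2 with h2 | h2
    · exact h1.2.2.1.symm.trans h2.2.2.1
    · exact h1.2.2.1.symm.trans h2.2.2.1.symm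
    · exact h1.2.2.1.trans h2.2.2.1
    · exact h1.2.2.1.trans h2.2.2.1.symm
  refine ⟨⟨?_, ?_⟩, e1, e2⟩
  · rcases h1 with ⟨a1, a2, a3, a4⟩ | ⟨a1, a2, a3, a4⟩ <;>
      rcases h2 with ⟨b1, b2, b3, b4⟩ | ⟨b1, b2, b3, b4⟩
    · rcases a4 with a4 | a4 | a4 <;> rcases b4 with b4 | b4 | b4 <;>
        first
        | (have := a4.1.symm.trans b4.1; simp at this; done)
        | exact a4.2.1.symm.trans b4.2.1
        | (apply Fin.ext; have h1 := a4.2.1; have h2 := b4.2.1; omega)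
    · have := a1.symm.trans b2; simp at this
    · have := a2.symm.trans b1; simp at this
    · subst a3; subst b3
      rcases a4 with a4 | a4 | a4 <;> rcases b4 with b4 | b4 | b4 <;>
        first
        | (have := a4.1.symm.trans b4.1; simp at this; done)
        | exact a4.2.1.trans b4.2.1.symm
        | (apply Fin.ext; have h1 := a4.2.1; have h2 := b4.2.1; omega)
  · rcases h1 with ⟨a1, a2, a3, a4⟩ | ⟨a1, a2, a3, a4⟩ <;>
      rcases h2 with ⟨b1, b2, b3, b4⟩ | ⟨b1, b2, b3, b4⟩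
    · rcases a4 with a4 | a4 | a4 <;> rcases b4 with b4 | b4 | b4 <;>
        first
        | (have := a4.1.symm.trans b4.1; simp at this; done)
        | exact a4.2.2.symm.trans b4.2.2
        | (apply Fin.ext; have h1 := a4.2.2; have h2 := b4.2.2; omega)
    · have := a1.symm.trans b2; simp at this
    · have := a2.symm.trans b1; simp at this
    · subst a3; subst b3
      rcases a4 with a4 | a4 | a4 <;> rcases b4 with b4 | b4 | b4 <;>
        first
        | (have := a4.1.symm.trans b4.1; simp at this; done)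
        | exact a4.2.2.trans b4.2.2.symm
        | (apply Fin.ext; have h1 := a4.2.2; have h2 := b4.2.2; omega)

/-- in the same triangle -/
def Tri {n : ℕ} (x y : TV n) : Prop := x.1 = y.1 ∧ x.2.1 = y.2.1

theorem Tri.symm {n : ℕ} {x y : TV n} (h : Tri x y) : Tri y x := ⟨h.1.symm, h.2.symm⟩

theorem Tri.trans {n : ℕ} {x y z : TV n} (h : Tri x y) (h' : Tri y z) : Tri x z :=
  ⟨h.1.trans h'.1, h.2.trans h'.2⟩

theorem not_tri_part {n : ℕ} {x y : TV n} (h : Tri x y) : ¬ Part x y := by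
  rintro (h' | h')
  · have := h'.1.symm.trans (h.2.trans h'.2.1); simp at this
  · have := h'.2.1.symm.trans (h.2.trans h'.1); simp at this

theorem hex_adj' {n : ℕ} (x y : TV n) : (hex n).Adj x y ↔ x ≠ y ∧ (Tri x y ∨ Part x y) :=
  hex_adj x y

theorem tri_four {n : ℕ} {x a b c : TV n} (h1 : Tri x a) (h2 : Tri x b) (h3 : Tri x c)
    (n1 : x ≠ a) (n2 : x ≠ b) (n3 : x ≠ c) (n4 : a ≠ b) (n5 : a ≠ c) (n6 : b ≠ c) : False := by
  have key : ∀ y z : TV n, Tri x y → Tri x z → y ≠ z → y.2.2 ≠ z.2.2 := by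
    intro y z hy hz hne he
    apply hne
    obtain ⟨y1, y2, y3⟩ := y
    obtain ⟨z1, z2, z3⟩ := z
    have e1 := hy.1.symm.trans hz.1
    have e2 := hy.2.symm.trans hz.2
    simp only at e1 e2 he
    rw [e1, e2, he]
  have hx : Tri x x := ⟨rfl, rfl⟩
  have k1 := key x a hx h1 n1
  have k2 := key x b hx h2 n2
  have k3 := key x c hx h3 n3
  have k4 := key a b h1 h2 n4
  have k5 := key a c h1 h3 n5
  have k6 := key b c h2 h3 n6
  have b1 := x.2.2.isLt
  have b2 := a.2.2.isLt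
  have b3 := b.2.2.isLt
  have b4 := c.2.2.isLt
  simp only [ne_eq, Fin.ext_iff] at k1 k2 k3 k4 k5 k6
  omega

theorem hex_not_D4 (n : ℕ) : ¬ D4 (hex n) := by
  rintro ⟨a, b, c, d, e, h1, h2, h3, h4, n1, n2, n3, n4, n5, n6⟩
  rw [hex_adj'] at h1 h2 h3 h4
  rcases h1 with ⟨m1, h1 | h1⟩
  · rcases h2 with ⟨m2, h2 | h2⟩
    · rcases h3 with ⟨m3, h3 | h3⟩
      · exact tri_four h1 h2 h3 m1 m2 m3 n1 n2 n4
      · rcases h4 with ⟨m4, h4 | h4⟩
        · exact tri_four h1 h2 h4 m1 m2 m4 n1 n3 n5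
        · exact n6 (part_unique h3 h4)
    · rcases h3 with ⟨m3, h3 | h3⟩
      · rcases h4 with ⟨m4, h4 | h4⟩
        · exact tri_four h1 h3 h4 m1 m3 m4 n2 n3 n6
        · exact n5 (part_unique h2 h4)
      · exact n4 (part_unique h2 h3)
  · rcases h2 with ⟨m2, h2 | h2⟩
    · rcases h3 with ⟨m3, h3 | h3⟩
      · rcases h4 with ⟨m4, h4 | h4⟩
        · exact tri_four h2 h3 h4 m2 m3 m4 n4 n5 n6
        · exact n3 (part_unique h1 h4)
      · exact n2 (part_unique h1 h3)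
    · exact n1 (part_unique h1 h2)

theorem hex_not_claw (n : ℕ) : ¬ Claw (hex n) := by
  rintro ⟨a, b, c, d, h1, h2, h3, n1, n2, n3, m1, m2, m3⟩
  rw [hex_adj'] at h1 h2 h3
  have key : ∀ p q : TV n, p ≠ q → Tri a p → Tri a q → (hex n).Adj p q := by
    intro p q hpq hp hq
    rw [hex_adj']
    exact ⟨hpq, Or.inl (hp.symm.trans hq)⟩
  rcases h1 with ⟨_, h1 | h1⟩ <;> rcases h2 with ⟨_, h2 | h2⟩ <;> rcases h3 with ⟨_, h3 | h3⟩
  · exact m1 (key b c n1 h1 h2)
  · exact m1 (key b c n1 h1 h2)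
  · exact m2 (key b d n2 h1 h3)
  · exact n3 (part_unique h2 h3)
  · exact m3 (key c d n3 h2 h3)
  · exact n2 (part_unique h1 h3)
  · exact n1 (part_unique h1 h2)
  · exact n1 (part_unique h1 h2)

theorem hex_not_E2 (n : ℕ) : ¬ E2 (hex n) := by
  rintro ⟨a, b, c, d, h1, h2, h3, h4, h5, hcd⟩
  rw [hex_adj'] at h1 h2 h3 h4 h5
  obtain ⟨nab, h1⟩ := h1
  obtain ⟨nac, h2⟩ := h2
  obtain ⟨nad, h3⟩ := h3
  obtain ⟨nbc, h4⟩ := h4
  obtain ⟨nbd, h5⟩ := h5
  -- a common neighbour of adjacent vertices lies in the same triangle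
  have key : ∀ c : TV n, a ≠ c → b ≠ c → (Tri a c ∨ Part a c) → (Tri b c ∨ Part b c) → Tri a c := by
    intro c nac nbc h2 h4
    rcases h2 with h2 | h2
    · exact h2
    · exfalso
      rcases h1 with h1 | h1
      · rcases h4 with h4 | h4
        · exact not_tri_part (h1.trans h4) h2
        · exact nab (part_unique h2.symm h4.symm)
      · exact nbc (part_unique h1 h2)
  have key' : ∀ c : TV n, a ≠ c → b ≠ c → (Tri a c ∨ Part a c) → (Tri b c ∨ Part b c) → Tri b c := by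
    intro c nac nbc h2 h4
    rcases h4 with h4 | h4
    · exact h4
    · exfalso
      rcases h1 with h1 | h1
      · rcases h2 with h2 | h2
        · exact not_tri_part (h1.symm.trans h2) h4
        · exact nab (part_unique h2.symm h4.symm)
      · exact nac (part_unique h1.symm h4)
  have t1 := key c nac nbc h2 h4
  have t2 := key d nad nbd h3 h5
  have t3 := (key' c nac nbc h2 h4).symm
  exact tri_four (t1.trans t3) t1 t2 nab nac nad nbc nbd hcd

theorem hex_not_KDC (n : ℕ) : ¬ KDC (hex n) := by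
  rintro (⟨a, b, c, d, h⟩ | ⟨a, b, c, d, c', d', h⟩ | h)
  · exact hex_not_E2 n ⟨a, b, c, d, h.1, h.2.1, h.2.2.1, h.2.2.2.1, h.2.2.2.2.1,
      h.2.2.2.2.2.ne⟩
  · exact hex_not_E2 n ⟨a, b, c, d, h.1, h.2.1, h.2.2.1, h.2.2.2.1, h.2.2.2.2.1,
      h.2.2.2.2.2.1⟩
  · exact hex_not_claw n h

/-! ### Unbounded clique-width of the truncated hexagonal grid -/

/-- few indices share a type -/
theorem few_lines {V : Type} {n k : ℕ} {G : SimpleGraph V} {A : Set V} (h : Types G A k)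
    (I : Finset (Fin n)) (ρ : V → ℕ) (hρ : ∀ x y, G.Adj x y → ρ x ≤ ρ y + 1)
    (hI : ∀ i ∈ I, ∃ x y, x ∈ A ∧ y ∉ A ∧ G.Adj x y ∧ ρ x = i.val ∧ ρ y = i.val) :
    I.card ≤ 2 * k := by
  classical
  obtain ⟨l, hl⟩ := h
  by_cases hk : ∃ z : V, True
  · obtain ⟨z, _⟩ := hk
    have hI' : ∀ i : Fin n, ∃ x y : V, i ∈ I → x ∈ A ∧ y ∉ A ∧ G.Adj x y ∧ ρ x = i.val ∧
        ρ y = i.val := by
      intro i
      by_cases hi : i ∈ I
      · obtain ⟨x, y, h⟩ := hI i hi
        exact ⟨x, y, fun _ => h⟩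
      · exact ⟨z, z, fun h => absurd h hi⟩
    choose x y hxy using hI'
    by_contra hcon
    push Not at hcon
    have hcard : (Finset.univ : Finset (Fin k)).card * 2 < I.card := by
      simp; omega
    obtain ⟨t, _, ht⟩ := Finset.exists_lt_card_fiber_of_mul_lt_card_of_maps_to
      (f := fun i => l (x i)) (s := I) (t := Finset.univ) (fun _ _ => Finset.mem_univ _) hcard
    rw [Finset.two_lt_card] at ht
    obtain ⟨a, ha, b, hb, c, hc, hab, hac, hbc⟩ := ht
    simp only [Finset.mem_filter] at ha hb hc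
    have key : ∀ a b : Fin n, a ∈ I → b ∈ I → l (x a) = l (x b) → b.val ≤ a.val + 1 := by
      intro a b ha hb hab
      obtain ⟨h1, h2, h3, h4, h5⟩ := hxy a ha
      obtain ⟨g1, g2, g3, g4, g5⟩ := hxy b hb
      have h6 := (hl _ h1 _ g1 hab _ h2).1 h3
      have := hρ _ _ h6
      omega
    have k1 := key a b ha.1 hb.1 (ha.2.trans hb.2.symm)
    have k2 := key b a hb.1 ha.1 (hb.2.trans ha.2.symm)
    have k3 := key a c ha.1 hc.1 (ha.2.trans hc.2.symm)
    have k4 := key c a hc.1 ha.1 (hc.2.trans ha.2.symm)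
    have k5 := key b c hb.1 hc.1 (hb.2.trans hc.2.symm)
    have k6 := key c b hc.1 hb.1 (hc.2.trans hb.2.symm)
    have n1 : a.val ≠ b.val := fun h => hab (Fin.ext h)
    have n2 : a.val ≠ c.val := fun h => hac (Fin.ext h)
    have n3 : b.val ≠ c.val := fun h => hbc (Fin.ext h)
    omega
  · have : I = ∅ := by
      rw [Finset.eq_empty_iff_forall_notMem]
      intro i hi
      obtain ⟨x, _⟩ := hI i hi
      exact hk ⟨x, trivial⟩
    rw [this]; simp

/-- along a path of five vertices -/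
theorem path_step {V : Type} {G : SimpleGraph V} {A : Set V} {p0 p1 p2 p3 p4 : V} (Q : V → Prop)
    (q0 : Q p0) (q1 : Q p1) (q2 : Q p2) (q3 : Q p3) (q4 : Q p4)
    (h1 : G.Adj p0 p1) (h2 : G.Adj p1 p2) (h3 : G.Adj p2 p3) (h4 : G.Adj p3 p4)
    (h : (p0 ∈ A ∧ p4 ∉ A) ∨ (p4 ∈ A ∧ p0 ∉ A)) :
    ∃ x y, x ∈ A ∧ y ∉ A ∧ G.Adj x y ∧ Q x ∧ Q y := by
  by_contra hcon
  push Not at hcon
  have key : ∀ p q, Q p → Q q → G.Adj p q → (p ∈ A ↔ q ∈ A) := by
    intro p q hp hq hpq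
    constructor
    · intro hpA
      by_contra hqA
      exact hcon p q hpA hqA hpq hp hq
    · intro hqA
      by_contra hpA
      exact hcon q p hqA hpA hpq.symm hq hp
  have e1 := key _ _ q0 q1 h1
  have e2 := key _ _ q1 q2 h2
  have e3 := key _ _ q2 q3 h3
  have e4 := key _ _ q3 q4 h4
  tauto

theorem row_step {n : ℕ} {A : Set (TV n)} {i j j' : Fin n} (hj : j.val + 1 = j'.val)
    (h : ((((i, j), (false, 0)) : TV n) ∈ A ∧ (((i, j'), (false, 0)) : TV n) ∉ A) ∨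
      ((((i, j'), (false, 0)) : TV n) ∈ A ∧ (((i, j), (false, 0)) : TV n) ∉ A)) :
    ∃ x y, x ∈ A ∧ y ∉ A ∧ (hex n).Adj x y ∧ x.1.1 = i ∧ y.1.1 = i := by
  refine path_step (G := hex n) (fun x => x.1.1 = i)
    (p0 := ((i, j), (false, 0))) (p1 := ((i, j), (true, 0))) (p2 := ((i, j), (true, 1)))
    (p3 := ((i, j'), (false, 1))) (p4 := ((i, j'), (false, 0))) rfl rfl rfl rfl rfl ?_ ?_ ?_ ?_ h
  · rw [hex_adj]
    exact ⟨by simp, Or.inr (Or.inr ⟨rfl, rfl, rfl, Or.inl ⟨rfl, rfl, rfl⟩⟩)⟩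
  · rw [hex_adj]
    exact ⟨by simp, Or.inl ⟨rfl, rfl⟩⟩
  · rw [hex_adj]
    exact ⟨by simp, Or.inr (Or.inl ⟨rfl, rfl, rfl, Or.inr (Or.inl ⟨rfl, rfl, hj⟩)⟩)⟩
  · rw [hex_adj]
    exact ⟨by simp, Or.inl ⟨rfl, rfl⟩⟩

theorem col_step {n : ℕ} {A : Set (TV n)} {i i' j : Fin n} (hi : i.val + 1 = i'.val)
    (h : ((((i, j), (false, 0)) : TV n) ∈ A ∧ (((i', j), (false, 0)) : TV n) ∉ A) ∨
      ((((i', j), (false, 0)) : TV n) ∈ A ∧ (((i, j), (false, 0)) : TV n) ∉ A)) :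
    ∃ x y, x ∈ A ∧ y ∉ A ∧ (hex n).Adj x y ∧ x.1.2 = j ∧ y.1.2 = j := by
  refine path_step (G := hex n) (fun x => x.1.2 = j)
    (p0 := ((i, j), (false, 0))) (p1 := ((i, j), (true, 0))) (p2 := ((i, j), (true, 2)))
    (p3 := ((i', j), (false, 2))) (p4 := ((i', j), (false, 0))) rfl rfl rfl rfl rfl ?_ ?_ ?_ ?_ h
  · rw [hex_adj]
    exact ⟨by simp, Or.inr (Or.inr ⟨rfl, rfl, rfl, Or.inl ⟨rfl, rfl, rfl⟩⟩)⟩
  · rw [hex_adj]
    exact ⟨by simp, Or.inl ⟨rfl, rfl⟩⟩
  · rw [hex_adj]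
    exact ⟨by simp, Or.inr (Or.inl ⟨rfl, rfl, rfl, Or.inr (Or.inr ⟨rfl, hi, rfl⟩)⟩)⟩
  · rw [hex_adj]
    exact ⟨by simp, Or.inl ⟨rfl, rfl⟩⟩

theorem hex_row_le {n : ℕ} (x y : TV n) (h : (hex n).Adj x y) : x.1.1.val ≤ y.1.1.val + 1 := by
  rw [hex_adj] at h
  rcases h.2 with h | h | h
  · rw [h.1]; omega
  · rcases h.2.2.2 with h | h | h
    · rw [h.2.1]; omega
    · rw [h.2.1]; omega
    · have := h.2.1; omega
  · rcases h.2.2.2 with h | h | h
    · rw [h.2.1]; omega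
    · rw [h.2.1]; omega
    · have := h.2.1; omega

theorem hex_col_le {n : ℕ} (x y : TV n) (h : (hex n).Adj x y) : x.1.2.val ≤ y.1.2.val + 1 := by
  rw [hex_adj] at h
  rcases h.2 with h | h | h
  · rw [h.1]; omega
  · rcases h.2.2.2 with h | h | h
    · rw [h.2.2]; omega
    · have := h.2.2; omega
    · rw [h.2.2]; omega
  · rcases h.2.2.2 with h | h | h
    · rw [h.2.2]; omega
    · have := h.2.2; omega
    · rw [h.2.2]; omega

theorem hex_unbounded : ∀ c N : ℕ, ∃ n ≥ N, ∀ k ≤ c, ¬ CwLE (hex n) k := by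
  classical
  intro c N
  refine ⟨N + 6 * c + 2, by omega, ?_⟩
  intro k hk hcw
  set n := N + 6 * c + 2 with hn
  let P : Fin n × Fin n → TV n := fun p => (p, (false, 0))
  have hP : Function.Injective P := fun p q h => (Prod.mk.injEq _ _ _ _ ▸ h).1
  have hcard : (Set.range P).ncard = n * n := by
    rw [← Set.image_univ, Set.ncard_image_of_injective _ hP, Set.ncard_univ]; simp
  obtain ⟨A, hT, h1, h2⟩ := balanced_cut (hex n) k hcw (Set.range P) (by rw [hcard]; nlinarith)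
  rw [hcard] at h1 h2
  set B : Set (Fin n × Fin n) := P ⁻¹' A with hB
  have hAB : (A ∩ Set.range P).ncard = B.ncard := by
    rw [← Set.ncard_image_of_injective _ hP, hB, Set.image_preimage_eq_inter_range]
  rw [hAB] at h1 h2
  have hcompl : B.ncard + Bᶜ.ncard = n * n := by
    rw [Set.ncard_add_ncard_compl]; simp
  have hm : (mixed B).card ≤ 2 * k := by
    refine few_lines hT (mixed B) (fun x => x.1.1.val) hex_row_le ?_
    intro i hi
    simp only [mixed, Finset.mem_filter, Finset.mem_univ, true_and] at hi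
    obtain ⟨a, b, ha, hb, hab⟩ := step_exists (fun j => (i, j) ∈ B) hi.1 hi.2
    have : ∃ x y, x ∈ A ∧ y ∉ A ∧ (hex n).Adj x y ∧ x.1.1 = i ∧ y.1.1 = i := by
      rcases hab with hab | hab
      · exact row_step hab (Or.inl ⟨ha, hb⟩)
      · exact row_step hab (Or.inr ⟨ha, hb⟩)
    obtain ⟨x, y, hx, hy, hxy, e1, e2⟩ := this
    exact ⟨x, y, hx, hy, hxy, by rw [e1], by rw [e2]⟩
  have hbig : n ≤ 3 * (mixed B).card → False := by
    intro h; omega
  by_cases hfull : ∃ i, ∀ j, (i, j) ∈ B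
  · by_cases hempty : ∃ i, ∀ j, (i, j) ∉ B
    · obtain ⟨i, hi⟩ := hfull
      obtain ⟨i', hi'⟩ := hempty
      have hm' : (Finset.univ : Finset (Fin n)).card ≤ 2 * k := by
        refine few_lines hT Finset.univ (fun x => x.1.2.val) hex_col_le ?_
        intro j _
        obtain ⟨a, b, ha, hb, hab⟩ := step_exists (fun i => (i, j) ∈ B) ⟨i, hi j⟩ ⟨i', hi' j⟩
        have : ∃ x y, x ∈ A ∧ y ∉ A ∧ (hex n).Adj x y ∧ x.1.2 = j ∧ y.1.2 = j := by
          rcases hab with hab | hab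
          · exact col_step hab (Or.inl ⟨ha, hb⟩)
          · exact col_step hab (Or.inr ⟨ha, hb⟩)
        obtain ⟨x, y, hx, hy, hxy, e1, e2⟩ := this
        exact ⟨x, y, hx, hy, hxy, by rw [e1], by rw [e2]⟩
      simp at hm'
      omega
    · push Not at hempty
      have h3 : Bᶜ.ncard ≤ (mixed Bᶜ).card * n := by
        apply card_le_mixed
        rintro i ⟨j, hj⟩
        rw [mixed_compl]
        simp only [mixed, Finset.mem_filter, Finset.mem_univ, true_and]
        exact ⟨hempty i, j, hj⟩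
      rw [mixed_compl] at h3
      apply hbig
      have : n * n ≤ 3 * ((mixed B).card * n) := by omega
      have : n * n ≤ (3 * (mixed B).card) * n := by linarith
      exact Nat.le_of_mul_le_mul_right this (by omega)
  · push Not at hfull
    have h3 : B.ncard ≤ (mixed B).card * n := by
      apply card_le_mixed
      rintro i ⟨j, hj⟩
      simp only [mixed, Finset.mem_filter, Finset.mem_univ, true_and]
      exact ⟨⟨j, hj⟩, hfull i⟩
    apply hbig
    have : n * n ≤ (3 * (mixed B).card) * n := by linarith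
    exact Nat.le_of_mul_le_mul_right this (by omega)

end Pool.Agent.T6.H89.ITM
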