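import Pool.Agent.H175R2.Defs

/-!
# Subdivisions and induced topological minors
-/

set_option autoImplicit false

namespace Pool.Agent.T6.H89.ITM

open SimpleGraph

/-- The graph obtained from `G` by replacing the edge `u v` by a path `u x v`, where `x` is a new
vertex (written `none`). -/
def subdivideEdge {V : Type} (G : SimpleGraph V) (u v : V) : SimpleGraph (Option V) :=
  SimpleGraph.fromRel (fun x y =>
    (∃ a b : V, x = some a ∧ y = some b ∧ G.Adj a b ∧ s(a, b) ≠ s(u, v)) ∨
    (x = none ∧ (y = some u ∨ y = some v)))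

/-- `Subdivision H K`: the graph `K` is (isomorphic to) a subdivision of `H`, i.e. it arises from `H`
by zero or more steps, each replacing an edge by a path of length two through a new vertex. -/
inductive Subdivision : ∀ {V W : Type}, SimpleGraph V → SimpleGraph W → Prop
  | iso {V W : Type} {H : SimpleGraph V} {K : SimpleGraph W} (e : H ≃g K) : Subdivision H K
  | step {V W : Type} {H : SimpleGraph V} {K : SimpleGraph W} {u v : V} (huv : H.Adj u v)
      (h : Subdivision (subdivideEdge H u v) K) : Subdivision H K

/-- `H` is an induced topological minor of `G`: some induced subgraph of `G` is isomorphic to a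
subdivision of `H`. -/
def InducedTopMinor {V W : Type} (H : SimpleGraph W) (G : SimpleGraph V) : Prop :=
  ∃ S : Set V, Subdivision H (G.induce S)

section adj

variable {V : Type} {G : SimpleGraph V} {u v : V}

lemma sd_some_some (a b : V) :
    (subdivideEdge G u v).Adj (some a) (some b) ↔ G.Adj a b ∧ s(a, b) ≠ s(u, v) := by
  unfold subdivideEdge
  rw [SimpleGraph.fromRel_adj]
  constructor
  · rintro ⟨_, (⟨a', b', h1, h2, h3, h4⟩ | ⟨h1, _⟩) | (⟨a', b', h1, h2, h3, h4⟩ | ⟨h1, _⟩)⟩
    · rw [Option.some_inj] at h1 h2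
      subst h1; subst h2
      exact ⟨h3, h4⟩
    · simp at h1
    · rw [Option.some_inj] at h1 h2
      subst h1; subst h2
      exact ⟨h3.symm, by rw [Sym2.eq_swap]; exact h4⟩
    · simp at h1
  · rintro ⟨h1, h2⟩
    exact ⟨by simpa using h1.ne, Or.inl (Or.inl ⟨a, b, rfl, rfl, h1, h2⟩)⟩

lemma sd_none_some (b : V) : (subdivideEdge G u v).Adj none (some b) ↔ b = u ∨ b = v := by
  unfold subdivideEdge
  rw [SimpleGraph.fromRel_adj]
  simp

lemma sd_some_none (b : V) : (subdivideEdge G u v).Adj (some b) none ↔ b = u ∨ b = v := by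
  rw [SimpleGraph.adj_comm, sd_none_some]

end adj

/-- transport of `subdivideEdge` along an isomorphism -/
def sdIso {V W : Type} {G : SimpleGraph V} {G' : SimpleGraph W} (e : G ≃g G') (u v : V) :
    subdivideEdge G u v ≃g subdivideEdge G' (e u) (e v) where
  toEquiv := Equiv.optionCongr e.toEquiv
  map_rel_iff' := by
    intro a b
    have key : ∀ a b : V, s(e a, e b) = s(e u, e v) ↔ s(a, b) = s(u, v) := by
      intro a b
      rw [Sym2.eq_iff, Sym2.eq_iff]
      simp [e.injective.eq_iff]
    cases a with
    | none =>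
      cases b with
      | none => simp
      | some b =>
        simp only [Equiv.optionCongr_apply, Option.map_none, Option.map_some, sd_none_some]
        simp
    | some a =>
      cases b with
      | none =>
        simp only [Equiv.optionCongr_apply, Option.map_none, Option.map_some, sd_some_none]
        simp
      | some b =>
        simp only [Equiv.optionCongr_apply, Option.map_some, sd_some_some, ne_eq]
        have h1 : G'.Adj (e a) (e b) ↔ G.Adj a b := e.map_adj_iff
        have h2 := key a b
        simp only [RelIso.coe_fn_toEquiv] at *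
        rw [h1, h2]

lemma Subdivision.iso_left {V V' W : Type} {H : SimpleGraph V} {H' : SimpleGraph V'}
    {K : SimpleGraph W} (e : H' ≃g H) (h : Subdivision H K) : Subdivision H' K := by
  induction h generalizing V' with
  | iso f => exact Subdivision.iso (e.trans f)
  | @step V W H K u v huv h ih =>
    have e2 := sdIso e (e.symm u) (e.symm v)
    rw [e.apply_symm_apply, e.apply_symm_apply] at e2
    have hadj : H'.Adj (e.symm u) (e.symm v) := by
      rw [← e.map_adj_iff, e.apply_symm_apply, e.apply_symm_apply]; exact huv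
    exact Subdivision.step hadj (ih e2)

lemma Subdivision.iso_right {V W W' : Type} {H : SimpleGraph V} {K : SimpleGraph W}
    {K' : SimpleGraph W'} (h : Subdivision H K) (e : K ≃g K') : Subdivision H K' := by
  induction h generalizing W' with
  | iso f => exact Subdivision.iso (f.trans e)
  | step huv h ih => exact Subdivision.step huv (ih e)

/-- a further subdivision step at the end -/
lemma Subdivision.snoc {V W : Type} {H : SimpleGraph V} {K : SimpleGraph W} (h : Subdivision H K)
    {u v : W} (huv : K.Adj u v) : Subdivision H (subdivideEdge K u v) := by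
  induction h with
  | @iso V W H K f =>
    have e2 := sdIso f (f.symm u) (f.symm v)
    rw [f.apply_symm_apply, f.apply_symm_apply] at e2
    have hadj : H.Adj (f.symm u) (f.symm v) := by
      rw [← f.map_adj_iff, f.apply_symm_apply, f.apply_symm_apply]; exact huv
    exact Subdivision.step hadj (Subdivision.iso e2)
  | step h1 h ih => exact Subdivision.step h1 (ih huv)

/-- transitivity -/
lemma Subdivision.trans {U V W : Type} {H : SimpleGraph U} {K : SimpleGraph V}
    {L : SimpleGraph W} (h : Subdivision H K) (h' : Subdivision K L) : Subdivision H L := by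
  induction h' with
  | iso e => exact h.iso_right e
  | step huv _ ih => exact ih (h.snoc huv)

/-- monotone properties (inherited by graphs containing an induced copy) -/
def MonoProp (P : ∀ {V : Type}, SimpleGraph V → Prop) : Prop :=
  ∀ {V W : Type} (G : SimpleGraph V) (G' : SimpleGraph W), (G ↪g G') → P G → P G'

/-- properties preserved by subdividing an edge -/
def StableProp (P : ∀ {V : Type}, SimpleGraph V → Prop) : Prop :=
  ∀ {V : Type} (G : SimpleGraph V) (u v : V), G.Adj u v → P G → P (subdivideEdge G u v)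

theorem prop_of_subdivision (P : ∀ {V : Type}, SimpleGraph V → Prop) (hm : MonoProp @P)
    (hs : StableProp @P) {V W : Type} {H : SimpleGraph V} {K : SimpleGraph W}
    (h : Subdivision H K) (hP : P H) : P K := by
  induction h with
  | iso e => exact hm _ _ e.toEmbedding hP
  | step huv h ih => exact ih (hs _ _ _ huv hP)

theorem prop_of_itm (P : ∀ {V : Type}, SimpleGraph V → Prop) (hm : MonoProp @P)
    (hs : StableProp @P) {V W : Type} {H : SimpleGraph V} {G : SimpleGraph W}
    (h : InducedTopMinor H G) (hP : P H) : P G := by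
  obtain ⟨S, hS⟩ := h
  exact hm _ _ (SimpleGraph.Embedding.induce S) (prop_of_subdivision @P hm hs hS hP)

/-- image of an induced subgraph -/
noncomputable def induceImage {V W : Type} {G : SimpleGraph V} {G' : SimpleGraph W} (f : G ↪g G')
    (S : Set V) : G.induce S ≃g G'.induce (f '' S) where
  toEquiv := Equiv.Set.image f S f.injective
  map_rel_iff' := by
    rintro ⟨a, ha⟩ ⟨b, hb⟩
    simp only [Equiv.Set.image_apply, comap_adj, Function.Embedding.subtype_apply]
    exact f.map_adj_iff

lemma InducedTopMinor.mono {U V W : Type} {H : SimpleGraph U} {G : SimpleGraph V}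
    {G' : SimpleGraph W} (f : G ↪g G') (h : InducedTopMinor H G) : InducedTopMinor H G' := by
  obtain ⟨S, hS⟩ := h
  exact ⟨f '' S, hS.iso_right (induceImage f S)⟩

/-- the vertex set of the induced subgraph after a subdivision -/
lemma restrict_subdivision {V W : Type} {H : SimpleGraph V} {K : SimpleGraph W}
    (h : Subdivision H K) : ∀ S : Set V, InducedTopMinor (H.induce S) K := by
  induction h with
  | @iso V W H K e =>
    intro S
    exact ⟨e '' S, Subdivision.iso (induceImage e.toEmbedding S)⟩
  | @step V W H K u v huv h ih =>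
    intro S
    by_cases hS : u ∈ S ∧ v ∈ S
    · obtain ⟨hu, hv⟩ := hS
      obtain ⟨T, hT⟩ := ih (insert none (some '' S))
      refine ⟨T, ?_⟩
      refine Subdivision.step (u := ⟨u, hu⟩) (v := ⟨v, hv⟩) (by simpa using huv) ?_
      refine hT.iso_left ?_
      refine ⟨⟨fun x => match x with
        | none => ⟨none, by simp⟩
        | some a => ⟨some a.1, by simp⟩, fun y => match y with
        | ⟨none, _⟩ => none
        | ⟨some a, h⟩ => some ⟨a, by simpa using h⟩, ?_, ?_⟩, ?_⟩
      · rintro (_ | a) <;> rfl
      · rintro ⟨_ | a, h⟩ <;> rfl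
      · rintro (_ | ⟨a, ha⟩) (_ | ⟨b, hb⟩)
        · simp
        · simp only [Equiv.coe_fn_mk, comap_adj, Function.Embedding.subtype_apply, sd_none_some,
            Subtype.mk.injEq]
        · simp only [Equiv.coe_fn_mk, comap_adj, Function.Embedding.subtype_apply, sd_some_none,
            Subtype.mk.injEq]
        · simp only [Equiv.coe_fn_mk, comap_adj, Function.Embedding.subtype_apply, sd_some_some,
            ne_eq, Sym2.eq_iff, Subtype.mk.injEq]
    · obtain ⟨T, hT⟩ := ih (some '' S)
      refine ⟨T, ?_⟩
      refine hT.iso_left ?_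
      refine ⟨⟨fun x => ⟨some x.1, by simp⟩, fun y => match y with
        | ⟨none, h⟩ => absurd h (by simp)
        | ⟨some a, h⟩ => ⟨a, by simpa using h⟩, ?_, ?_⟩, ?_⟩
      · rintro ⟨a, ha⟩; rfl
      · rintro ⟨_ | a, h⟩
        · simp at h
        · rfl
      · rintro ⟨a, ha⟩ ⟨b, hb⟩
        simp only [Equiv.coe_fn_mk, comap_adj, Function.Embedding.subtype_apply, sd_some_some,
          ne_eq, Sym2.eq_iff, and_iff_left_iff_imp]
        rintro _ (⟨rfl, rfl⟩ | ⟨rfl, rfl⟩)
        · exact hS ⟨ha, hb⟩
        · exact hS ⟨hb, ha⟩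

/-- an induced subgraph of `H` is an induced topological minor of every graph of which `H` is one -/
lemma InducedTopMinor.of_embedding {U V W : Type} {H : SimpleGraph U} {X : SimpleGraph V}
    {G : SimpleGraph W} (f : H ↪g X) (h : InducedTopMinor X G) : InducedTopMinor H G := by
  obtain ⟨S, hS⟩ := h
  obtain ⟨T, hT⟩ := restrict_subdivision hS (Set.range f)
  have e : H ≃g X.induce (Set.range f) := by
    have e1 : H ≃g H.induce Set.univ :=
      ⟨⟨fun x => ⟨x, trivial⟩, fun x => x.1, fun _ => rfl, fun _ => rfl⟩, by simp⟩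
    have e2 := induceImage f Set.univ
    rw [Set.image_univ] at e2
    exact e1.trans e2
  exact InducedTopMinor.mono (SimpleGraph.Embedding.induce S) ⟨T, hT.iso_left e⟩

/-- induced topological minors inside a vertex set -/
def ItmOn {V W : Type} (H : SimpleGraph W) (G : SimpleGraph V) (R : Set V) : Prop :=
  ∃ S ⊆ R, Subdivision H (G.induce S)

lemma ItmOn.mono {V W : Type} {H : SimpleGraph W} {G : SimpleGraph V} {R R' : Set V}
    (h : ItmOn H G R) (hR : R ⊆ R') : ItmOn H G R' := by
  obtain ⟨S, hS, h⟩ := h
  exact ⟨S, hS.trans hR, h⟩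

lemma itmOn_univ {V W : Type} {H : SimpleGraph W} {G : SimpleGraph V} :
    ItmOn H G Set.univ ↔ InducedTopMinor H G :=
  ⟨fun ⟨S, _, h⟩ => ⟨S, h⟩, fun ⟨S, h⟩ => ⟨S, Set.subset_univ _, h⟩⟩

lemma itmOn_of_embedding {V W U : Type} {H : SimpleGraph W} {G : SimpleGraph V} {R : Set V}
    {K : SimpleGraph U} (h : Subdivision H K) (f : K ↪g G) (hf : ∀ x, f x ∈ R) : ItmOn H G R := by
  refine ⟨Set.range f, by rintro _ ⟨x, rfl⟩; exact hf x, ?_⟩
  have e1 : K ≃g K.induce Set.univ :=
    ⟨⟨fun x => ⟨x, trivial⟩, fun x => x.1, fun _ => rfl, fun _ => rfl⟩, by simp⟩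
  have e2 := induceImage f Set.univ
  rw [Set.image_univ] at e2
  exact h.iso_right (e1.trans e2)

/-- Suppressing a vertex `x` of degree two with neighbours `u`, `v`. -/
lemma ItmOn.lift {V W : Type} {H : SimpleGraph W} {G : SimpleGraph V} {R : Set V} {x u v : V}
    (hx : x ∈ R) (hxu : G.Adj x u) (hxv : G.Adj x v) (huv : u ≠ v) (hnuv : ¬ G.Adj u v)
    (hdeg : ∀ y ∈ R, G.Adj x y → y = u ∨ y = v)
    (h : ItmOn H (G ⊔ SimpleGraph.edge u v) (R \ {x})) : ItmOn H G R := by
  obtain ⟨S, hS, h⟩ := h
  have hxS : x ∉ S := fun hx' => (hS hx').2 rfl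
  have hSR : S ⊆ R := fun y hy => (hS hy).1
  have hxu' : x ≠ u := hxu.ne
  have hxv' : x ≠ v := hxv.ne
  by_cases hS' : u ∈ S ∧ v ∈ S
  · obtain ⟨hu, hv⟩ := hS'
    refine ⟨insert x S, Set.insert_subset hx hSR, ?_⟩
    have hadj : ((G ⊔ SimpleGraph.edge u v).induce S).Adj ⟨u, hu⟩ ⟨v, hv⟩ := by
      simp [edge_adj, huv]
    refine (h.snoc hadj).iso_right ?_
    classical
    refine ⟨⟨fun y => match y with
        | none => ⟨x, by simp⟩
        | some a => ⟨a.1, by right; exact a.2⟩, fun y => if hy : y.1 ∈ S then some ⟨y.1, hy⟩ else none,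
        ?_, ?_⟩, ?_⟩
    · rintro (_ | ⟨a, ha⟩)
      · simp [hxS]
      · simp [ha]
    · rintro ⟨y, hy⟩
      by_cases hyS : y ∈ S
      · simp [hyS]
      · rcases hy with hy | hy
        · subst hy
          simp [hxS]
        · exact absurd hy hyS
    · rintro (_ | ⟨a, ha⟩) (_ | ⟨b, hb⟩)
      · simp
      · simp only [Equiv.coe_fn_mk, comap_adj, Function.Embedding.subtype_apply, sd_none_some,
          Subtype.mk.injEq]
        constructor
        · intro h; exact hdeg b (hSR hb) h
        · rintro (rfl | rfl)
          · exact hxu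
          · exact hxv
      · simp only [Equiv.coe_fn_mk, comap_adj, Function.Embedding.subtype_apply, sd_some_none,
          Subtype.mk.injEq]
        constructor
        · intro h; exact hdeg a (hSR ha) h.symm
        · rintro (rfl | rfl)
          · exact hxu.symm
          · exact hxv.symm
      · simp only [Equiv.coe_fn_mk, comap_adj, Function.Embedding.subtype_apply, sd_some_some,
          sup_adj, edge_adj, ne_eq, Sym2.eq_iff, Subtype.mk.injEq]
        constructor
        · intro h0
          refine ⟨Or.inl h0, ?_⟩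
          rintro (⟨rfl, rfl⟩ | ⟨rfl, rfl⟩)
          · exact hnuv h0
          · exact hnuv h0.symm
        · rintro ⟨h1 | ⟨h1, _⟩, h2⟩
          · exact h1
          · exact absurd h1 h2
  · refine ⟨S, hSR, ?_⟩
    have : (G ⊔ SimpleGraph.edge u v).induce S = G.induce S := by
      ext ⟨a, ha⟩ ⟨b, hb⟩
      simp only [comap_adj, Function.Embedding.subtype_apply, sup_adj, edge_adj, or_iff_left_iff_imp]
      rintro ⟨⟨rfl, rfl⟩ | ⟨rfl, rfl⟩, _⟩
      · exact absurd ⟨ha, hb⟩ hS'
      · exact absurd ⟨hb, ha⟩ hS'
    rwa [this] at h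

end Pool.Agent.T6.H89.ITM
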