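import Pool.Agent.T6.H89.ITM.StructPaw

/-!
# Reduction to blocks for hereditary classes, and bounded clique-width
-/

set_option autoImplicit false

namespace Pool.Agent.T6.H89.ITM

open Finset Classical
open Pool.Agent.H175R2

/-- Reduction to 2-connected graphs. -/
theorem dt_of_blocks (P : ∀ V : Type, SimpleGraph V → Prop)
    (hP : ∀ (U V : Type) (e : U ↪ V) (G : SimpleGraph V), P V G → P U (G.comap e)) (K : ℕ)
    (h2 : ∀ (V : Type) [Fintype V] (G : SimpleGraph V), TwoConn G → P V G → DT G K univ univ) :
    ∀ (n : ℕ) (V : Type) [Fintype V] (G : SimpleGraph V), Fintype.card V ≤ n → Cn G univ →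
      P V G → DT G (K + 1) univ univ := by
  intro n
  induction n with
  | zero =>
    intro V _ G hn hc _
    obtain ⟨x, _⟩ := hc.1
    have := Fintype.card_pos_iff.2 ⟨x⟩
    omega
  | succ n ih =>
    intro V _ G hn hc hT
    obtain ⟨x0, _⟩ := hc.1
    by_cases h3 : 3 ≤ Fintype.card V
    · by_cases hcut : ∀ v, Cn G (univ.erase v)
      · exact (h2 V G ⟨h3, hc, hcut⟩ hT).mono (by omega)
      push Not at hcut
      obtain ⟨c0, hc0⟩ := hcut
      -- choose a smallest leaf
      have hex : ((univ : Finset (V × V)).filter (fun p => p.2 ≠ p.1 ∧ ¬ Cn G (univ.erase p.1))).Nonempty := by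
        have : 1 < Fintype.card V := by omega
        obtain ⟨y, hy⟩ := Fintype.exists_ne_of_one_lt_card this c0
        exact ⟨(c0, y), by simp [hy, hc0]⟩
      obtain ⟨⟨c, x⟩, hcx, hmin⟩ := exists_min_image _
        (fun p : V × V => (cpt G (univ.erase p.1) p.2).card) hex
      simp only [mem_filter, mem_univ, true_and] at hcx hmin
      obtain ⟨hxc, hcn⟩ := hcx
      have hxE : x ∈ univ.erase c := mem_erase.2 ⟨hxc, mem_univ _⟩
      set D := cpt G (univ.erase c) x with hD
      have hDc : Cn G D := cn_cpt hxE
      have hcD : c ∉ D := fun h => notMem_erase c univ (cpt_subset h)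
      have hDne : ∃ y, y ≠ c ∧ y ∉ D := by
        by_contra hcon
        push Not at hcon
        apply hcn
        apply cn_of_cpt_eq hxE
        apply subset_antisymm cpt_subset
        intro y hy
        exact hcon y (mem_erase.1 hy).1
      have hnb : ∀ a ∈ D, ∀ b, b ∉ D → G.Adj a b → b = c := by
        intro a ha b hb hab
        by_contra hbc
        exact not_adj_cpt hxE ha (mem_erase.2 ⟨hbc, mem_univ _⟩) hb hab
      have hcD' : Tc G {c} D := by
        obtain ⟨a, ha, b, hb, hab⟩ := hc.2 D (subset_univ _) hDc.1 ⟨c, by simp [hcD]⟩
        have := hnb a ha b (mem_sdiff.1 hb).2 hab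
        subst this
        exact ⟨b, by simp, a, ha, hab.symm⟩
      have hR1 : Cn G (D ∪ {c}) := hDc.union (Cn.singleton c) (Or.inl hcD'.symm)
      have hR2 : Cn G (univ \ D) := by
        have hcU : c ∈ univ \ D := by simp [hcD]
        apply cn_of_cpt_eq hcU
        apply subset_antisymm cpt_subset
        intro y hy
        by_contra hyc
        -- the component of y in `univ \ D` avoids c
        have hyU : y ∈ univ \ D := hy
        have hc' : c ∉ cpt G (univ \ D) y := by
          intro h
          apply hyc
          have := cpt_eq_of_mem hyU h
          rw [this]; exact mem_cpt_self hyU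
        obtain ⟨a, ha, b, hb, hab⟩ := hc.2 (cpt G (univ \ D) y) (subset_univ _)
          ⟨y, mem_cpt_self hyU⟩ ⟨c, by simp [hc']⟩
        have hbc := (mem_sdiff.1 hb).2
        by_cases hbD : b ∈ D
        · have haD : a ∉ D := by
            have := cpt_subset (G := G) ha
            simpa using this
          have := hnb b hbD a haD hab.symm
          subst this; exact hc' ha
        · exact not_adj_cpt hyU ha (by simp [hbD]) hbc hab
      have hsep : Sep G (D ∪ {c}) (univ \ D) c := by
        refine ⟨fun y => ?_, by simp, by simp [hcD], fun y h1 h2 => ?_, fun a ha b hb hab => ?_⟩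
        · simp only [mem_union, mem_singleton, mem_sdiff, mem_univ, true_and]; tauto
        · simp only [mem_union, mem_singleton, mem_sdiff, mem_univ, true_and] at h1 h2; tauto
        · simp only [mem_union, mem_singleton, mem_sdiff, mem_univ, true_and] at ha hb
          rcases ha with ha | ha
          · right; exact hnb a ha b hb hab
          · left; exact ha
      have hcardR2 : (univ \ D).card ≤ n := by
        have : (univ \ D).card < (univ : Finset V).card := card_lt_card (by
          refine ⟨sdiff_subset, fun h => ?_⟩
          obtain ⟨d, hd⟩ := hDc.1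
          exact (mem_sdiff.1 (h (mem_univ d))).2 hd)
        rw [card_univ] at this; omega
      have dtR2 : DT G (K + 1) (univ \ D) (univ \ D) := by
        have := ih (Sub (univ \ D)) (G.comap (emb _)) (by
          rw [card_sub]; exact hcardR2) (by
            apply Cn.comap; rw [map_univ_sub]; exact hR2)
          (hP _ _ _ _ hT)
        have := this.map
        rwa [map_univ_sub] at this
      have dtR1 : DT G K (D ∪ {c}) (D ∪ {c}) := by
        by_cases hD1 : D.card ≤ 1
        · obtain ⟨d, hd⟩ := card_eq_one.1 (le_antisymm hD1 (card_pos.2 hDc.1))
          rw [hd]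
          refine DT.node ?_ (DT.leaf d) (DT.leaf c) ?_
          · rw [disjoint_singleton]
            rintro rfl; exact hcD (by rw [hd]; simp)
          · rw [nt_closed]
            · exact Nat.zero_le _
            · intro a _ z hz hz' _
              exact hz' hz
        · have hTwo : TwoConn (G.comap (emb (D ∪ {c}))) := by
            refine ⟨?_, ?_, ?_⟩
            · rw [card_sub, card_union_of_disjoint (by simpa using hcD)]
              simp; omega
            · apply Cn.comap; rw [map_univ_sub]; exact hR1
            · intro v'
              obtain ⟨v, hv, rfl⟩ : ∃ (v : V) (hv : v ∈ D ∪ {c}), v' = mkS v hv :=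
                ⟨emb _ v', emb_mem v', rfl⟩
              apply Cn.comap
              have e : ((univ : Finset (Sub (D ∪ {c}))).erase (mkS v hv)).map
                  (emb (D ∪ {c})) = (D ∪ {c}).erase v := by
                ext z
                rw [mem_map, mem_erase]
                constructor
                · rintro ⟨u, h1, rfl⟩
                  rw [mem_erase] at h1
                  exact ⟨fun h => h1.1 (Subtype.ext h), emb_mem u⟩
                · rintro ⟨h1, h2⟩
                  refine ⟨mkS z h2, ?_, rfl⟩
                  rw [mem_erase]
                  exact ⟨fun h => h1 (congrArg (emb _) h), mem_univ _⟩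
              rw [e]
              by_cases hvc : v = c
              · subst hvc
                have : (D ∪ {v}).erase v = D := by
                  ext z; simp only [mem_erase, mem_union, mem_singleton]
                  constructor
                  · tauto
                  · intro hz; exact ⟨by rintro rfl; exact hcD hz, Or.inl hz⟩
                rw [this]; exact hDc
              · have hvD : v ∈ D := by
                  rcases mem_union.1 hv with h | h
                  · exact h
                  · exact absurd (mem_singleton.1 h) hvc
                have hcR : c ∈ (D ∪ {c}).erase v := mem_erase.2 ⟨Ne.symm hvc, by simp⟩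
                apply cn_of_cpt_eq hcR
                apply subset_antisymm cpt_subset
                intro y hy
                by_contra hyc
                have hc' : c ∉ cpt G ((D ∪ {c}).erase v) y := by
                  intro h
                  apply hyc
                  have := cpt_eq_of_mem hy h
                  rw [this]; exact mem_cpt_self hy
                set D' := cpt G ((D ∪ {c}).erase v) y with hD'
                have hyv : y ≠ v := (mem_erase.1 hy).1
                have hD'sub : D' ⊆ D.erase v := by
                  intro z hz
                  have h1 := mem_erase.1 (cpt_subset hz)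
                  refine mem_erase.2 ⟨h1.1, ?_⟩
                  rcases mem_union.1 h1.2 with h | h
                  · exact h
                  · rw [mem_singleton] at h; subst h; exact absurd hz hc'
                have hclosed : cpt G (univ.erase v) y ⊆ D' := by
                  by_contra hns
                  have hyE : y ∈ univ.erase v := mem_erase.2 ⟨hyv, mem_univ _⟩
                  have hDs : D' ⊆ cpt G (univ.erase v) y := by
                    apply subset_cpt _ (cn_cpt hy) (mem_cpt_self hy)
                    intro z hz
                    exact mem_erase.2 ⟨(mem_erase.1 (hD'sub hz)).1, mem_univ _⟩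
                  obtain ⟨a, ha, b, hb, hab⟩ := (cn_cpt hyE).2 D' hDs ⟨y, mem_cpt_self hy⟩ (by
                    rw [sdiff_nonempty]; exact hns)
                  obtain ⟨hb1, hb2⟩ := mem_sdiff.1 hb
                  have hbv : b ≠ v := (mem_erase.1 (cpt_subset hb1)).1
                  have haD := (mem_erase.1 (hD'sub ha)).2
                  have hbR : b ∈ D ∪ {c} := by
                    by_cases hbD : b ∈ D
                    · exact mem_union_left _ hbD
                    · have := hnb a haD b hbD hab
                      subst this; simp
                  exact not_adj_cpt hy ha (mem_erase.2 ⟨hbv, hbR⟩) hb2 hab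
                have := hmin (v, y) ⟨hyv, fun hcnv => by
                  have hyE : y ∈ univ.erase v := mem_erase.2 ⟨hyv, mem_univ _⟩
                  have h5 := hcnv.cpt_eq hyE
                  have h6 : c ∈ cpt G (univ.erase v) y := by
                    rw [h5]; exact mem_erase.2 ⟨Ne.symm hvc, mem_univ _⟩
                  exact hc' (hclosed h6)⟩
                simp only at this
                have h7 := (card_le_card hclosed).trans (card_le_card hD'sub)
                have h8 : (D.erase v).card < D.card := by
                  rw [card_erase_of_mem hvD]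
                  have := card_pos.2 ⟨v, hvD⟩
                  omega
                omega
          have := (h2 _ _ hTwo (hP _ _ _ _ hT)).map
          rwa [map_univ_sub] at this
      have h5 := hsep.dt2 (hsep.dt1 dtR1) dtR2 (Subset.refl _)
      rw [if_pos (by simp [hcD])] at h5
      have e : univ \ D ∪ (D ∪ {c}) = (univ : Finset V) := by
        ext z; simp only [mem_union, mem_sdiff, mem_univ, true_and, mem_singleton, iff_true]; tauto
      rwa [e] at h5
    · -- at most two vertices
      by_cases h1 : Fintype.card V ≤ 1
      · have : (univ : Finset V) = {x0} := by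
          apply (Finset.eq_singleton_iff_unique_mem).2 ⟨mem_univ _, fun y _ => ?_⟩
          exact Fintype.card_le_one_iff.1 h1 y x0
        rw [this]; exact DT.leaf x0
      · have h22 : (univ : Finset V).card = 2 := by rw [card_univ]; omega
        obtain ⟨a, b, hab, he⟩ := card_eq_two.1 h22
        have e : (univ : Finset V) = {a} ∪ {b} := by rw [he]; rfl
        have : DT G (K + 1) univ ({a} ∪ {b}) := by
          refine DT.node (by simpa using hab) (DT.leaf a) (DT.leaf b) ?_
          rw [← e, nt_closed]
          · exact Nat.zero_le _
          · intro a _ z hz hz' _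
            exact hz' hz
        rw [← e] at this; exact this


lemma twoConn_tc {V : Type} [Fintype V] {G : SimpleGraph V} (h : TwoConn G) : TC G univ :=
  ⟨by rw [card_univ]; exact h.card, h.conn, fun v _ => h.del v⟩

/-- from the components to the whole graph -/
theorem dt_of_conn (P : ∀ V : Type, SimpleGraph V → Prop)
    (hP : ∀ (U V : Type) (e : U ↪ V) (G : SimpleGraph V), P V G → P U (G.comap e)) (K : ℕ)
    (h2 : ∀ (V : Type) [Fintype V] (G : SimpleGraph V), Cn G univ → P V G → DT G K univ univ)
    (V : Type) [Fintype V] [Nonempty V] (G : SimpleGraph V) (hG : P V G) : DT G K univ univ := by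
  apply dt_of_components univ_nonempty
  intro x hx
  have hc : Cn G (cpt G univ x) := cn_cpt hx
  have h1 : DT G K (cpt G univ x) (cpt G univ x) := by
    have := h2 (Pool.Agent.H175R2.Sub (cpt G univ x)) (G.comap (emb _)) (by
      apply Cn.comap; rw [map_univ_sub]; exact hc) (hP _ _ _ _ hG)
    have := this.map
    rwa [map_univ_sub] at this
  refine h1.transfer fun B hB hn => le_trans ?_ hn
  unfold nt
  apply card_le_card
  intro s hs
  rw [mem_erase, mem_image] at hs ⊢
  obtain ⟨hne, y, hy, rfl⟩ := hs
  refine ⟨hne, y, hy, ?_⟩
  ext z
  simp only [mem_on, mem_univ, true_and]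
  constructor
  · rintro ⟨⟨h3, h4⟩, h5⟩
    exact ⟨h4, h5⟩
  · rintro ⟨h4, h5⟩
    refine ⟨⟨?_, h4⟩, h5⟩
    by_contra h6
    exact not_adj_cpt hx (hB hy) (mem_univ z) h6 h5

/-- complete multipartite graphs are `P₄`-free -/
lemma p4free_of_cm {V : Type} {G : SimpleGraph V} {R : Finset V} (h : CM G R) : P4Free G R := by
  intro a ha b hb c hc d hd _ _ _ hab hbc hcd
  by_contra hcon
  push Not at hcon
  obtain ⟨h1, h2, h3⟩ := hcon
  exact h a ha d hd b hb h2 (fun h' => h3 h'.symm) hab

lemma cm_of_full {V : Type} {G : SimpleGraph V} {R : Finset V} (h : Full G R) : CM G R := by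
  intro a ha b hb c hc hab hbc hac
  have h1 : a = b := by
    by_contra hne; exact hab (h a ha b hb hne)
  subst h1
  exact hbc hac

lemma dt_of_dichotomy {V : Type} [Fintype V] {G : SimpleGraph V} (hc : Cn G univ)
    (h : Deg2 G univ ∨ P4Free G univ) : DT G 2 univ univ := by
  apply dt_regions hc.1
  intro x hx
  have e : cpt G univ x = univ := hc.cpt_eq hx
  rcases h with h | h
  · left
    intro y _
    exact h y (mem_univ y)
  · right
    rw [e]; exact h

theorem bounded_of_blocks (P : ∀ V : Type, SimpleGraph V → Prop)
    (hP : ∀ (U V : Type) (e : U ↪ V) (G : SimpleGraph V), P V G → P U (G.comap e))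
    (h2 : ∀ (V : Type) [Fintype V] (G : SimpleGraph V), TwoConn G → P V G →
      Deg2 G univ ∨ P4Free G univ)
    (V : Type) [Fintype V] [Nonempty V] (G : SimpleGraph V) (hG : P V G) : DT G 3 univ univ :=
  dt_of_conn P hP 3 (fun V _ G hc hG => dt_of_blocks P hP 2 (fun V _ G hT hG =>
    dt_of_dichotomy hT.conn (h2 V G hT hG)) _ V G le_rfl hc hG) V G hG

/-- the class of graphs without `X` as an induced topological minor is hereditary -/
lemma itm_hereditary {W : Type} (X : SimpleGraph W) (U V : Type) (e : U ↪ V) (G : SimpleGraph V)
    (h : ¬ InducedTopMinor X G) : ¬ InducedTopMinor X (G.comap e) :=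
  fun h' => h (h'.mono (SimpleGraph.Embedding.comap e G))

theorem dt_diamond (V : Type) [Fintype V] [Nonempty V] (G : SimpleGraph V)
    (hG : ¬ InducedTopMinor diamond G) : DT G 3 univ univ := by
  refine bounded_of_blocks (fun _ G => ¬ InducedTopMinor diamond G)
    (fun U V e G h => itm_hereditary diamond U V e G h) ?_ V G hG
  intro V _ G hT hG
  rcases struct_diamond _ G univ le_rfl (twoConn_tc hT) (by
    rw [coe_univ, itmOn_univ]; exact hG) with h | h
  · exact Or.inl h
  · exact Or.inr (p4free_of_cm (cm_of_full h))

theorem dt_paw (V : Type) [Fintype V] [Nonempty V] (G : SimpleGraph V)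
    (hG : ¬ InducedTopMinor paw G) : DT G 3 univ univ := by
  refine bounded_of_blocks (fun _ G => ¬ InducedTopMinor paw G)
    (fun U V e G h => itm_hereditary paw U V e G h) ?_ V G hG
  intro V _ G hT hG
  rcases struct_paw _ G univ le_rfl (twoConn_tc hT) (by
    rw [coe_univ, itmOn_univ]; exact hG) with h | h
  · exact Or.inl h
  · exact Or.inr (p4free_of_cm h)

theorem dt_P4 (V : Type) [Fintype V] [Nonempty V] (G : SimpleGraph V)
    (hG : ¬ InducedTopMinor (SimpleGraph.pathGraph 4) G) : DT G 3 univ univ := by
  have h1 : DT G 1 univ univ := by
    refine dt_cograph _ univ univ le_rfl univ_nonempty (Subset.refl _) ?_ ?_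
    · intro a _ b _ c _ d _ hac had hbd hab hbc hcd
      by_contra hcon
      push Not at hcon
      obtain ⟨n1, n2, n3⟩ := hcon
      apply hG
      rw [← itmOn_univ]
      have key := vec4_adj (G := G) (T := SimpleGraph.pathGraph 4) (a := a) (b := b) (c := c)
        (d := d) (iff_of_true hab (by simp [SimpleGraph.pathGraph_adj]))
        (iff_of_false n1 (by simp [SimpleGraph.pathGraph_adj]))
        (iff_of_false n2 (by simp [SimpleGraph.pathGraph_adj]))
        (iff_of_true hbc (by simp [SimpleGraph.pathGraph_adj]))
        (iff_of_false n3 (by simp [SimpleGraph.pathGraph_adj]))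
        (iff_of_true hcd (by simp [SimpleGraph.pathGraph_adj]))
      have hinj := vec4_inj hab.ne hac had hbc.ne hbd hcd.ne
      exact itmOn_of_embedding (K := SimpleGraph.pathGraph 4)
        (Subdivision.iso (SimpleGraph.Iso.refl))
        ⟨⟨vec4 a b c d, hinj⟩, fun {i j} => key i j⟩ (fun _ => trivial)
    · intro x _ y _ z hz hz'
      exact absurd hz hz'
  exact h1.mono (by omega)

end Pool.Agent.T6.H89.ITM
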