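import Pool.Agent.T6.H89.ITM.Small

/-!
# Structure of 2-connected graphs without an induced subdivision of the diamond or of the paw
-/

set_option autoImplicit false

namespace Pool.Agent.T6.H89.ITM

open Finset Classical
open Pool.Agent.H175R2

variable {V : Type}

/-- all degrees inside `R` are at most two -/
def Deg2 (G : SimpleGraph V) (R : Finset V) : Prop :=
  ∀ v ∈ R, (R.filter (fun y => G.Adj v y)).card ≤ 2

/-- complete -/
def Full (G : SimpleGraph V) (R : Finset V) : Prop := ∀ a ∈ R, ∀ b ∈ R, a ≠ b → G.Adj a b

/-- complete multipartite -/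
def CM (G : SimpleGraph V) (R : Finset V) : Prop :=
  ∀ a ∈ R, ∀ b ∈ R, ∀ c ∈ R, ¬ G.Adj a b → ¬ G.Adj b c → ¬ G.Adj a c

lemma nbrs_of_le_two {G : SimpleGraph V} {R : Finset V} {v p q : V}
    (h : (R.filter (fun y => G.Adj v y)).card ≤ 2) (hp : p ∈ R) (hq : q ∈ R) (hpq : p ≠ q)
    (hvp : G.Adj v p) (hvq : G.Adj v q) : ∀ y ∈ R, G.Adj v y → y = p ∨ y = q := by
  intro y hy hvy
  by_contra hne
  push Not at hne
  have h1 : ({y, p, q} : Finset V) ⊆ R.filter (fun y => G.Adj v y) := by
    intro z hz
    simp only [mem_insert, mem_singleton] at hz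
    rw [mem_filter]
    rcases hz with rfl | rfl | rfl
    · exact ⟨hy, hvy⟩
    · exact ⟨hp, hvp⟩
    · exact ⟨hq, hvq⟩
  have h2 := card_le_card h1
  rw [card_eq_three.2 ⟨y, p, q, hne.1, hne.2, hpq, rfl⟩] at h2
  omega

lemma deg2_of_card {G : SimpleGraph V} {R : Finset V} (h : R.card ≤ 3) : Deg2 G R := by
  intro v hv
  have h1 : R.filter (fun y => G.Adj v y) ⊆ R.erase v := by
    intro y hy
    rw [mem_filter] at hy
    exact mem_erase.2 ⟨hy.2.ne.symm, hy.1⟩
  have h2 := card_le_card h1
  rw [card_erase_of_mem hv] at h2
  omega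

lemma coe_erase_eq {R : Finset V} {x : V} : ((R.erase x : Finset V) : Set V) = (R : Set V) \ {x} := by
  simp

/-- degrees are not changed by suppressing a vertex -/
lemma deg2_lift' {G G1 : SimpleGraph V} {R : Finset V} {x u v : V} (hu : u ∈ R)
    (hv : v ∈ R) (hxu : G.Adj x u) (hxv : G.Adj x v) (huv : u ≠ v) (hnuv : ¬ G.Adj u v)
    (hdeg : ∀ y ∈ R, G.Adj x y → y = u ∨ y = v) (hle : G ≤ G1) (huv1 : G1.Adj u v)
    (h : Deg2 G1 (R.erase x)) : Deg2 G R := by
  intro y hy
  by_cases hyx : y = x
  · subst hyx
    have : R.filter (fun z => G.Adj y z) ⊆ {u, v} := by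
      intro z hz
      rw [mem_filter] at hz
      simpa using hdeg z hz.1 hz.2
    exact (card_le_card this).trans card_le_two
  have hyR : y ∈ R.erase x := mem_erase.2 ⟨hyx, hy⟩
  have h1 := h y hyR
  by_cases hyu : y = u
  · subst hyu
    have h2 : R.filter (fun z => G.Adj y z) ⊆
        insert x (((R.erase x).filter (fun z => G1.Adj y z)).erase v) := by
      intro z hz
      rw [mem_filter] at hz
      rw [mem_insert, mem_erase, mem_filter, mem_erase]
      by_cases hzx : z = x
      · exact Or.inl hzx
      · refine Or.inr ⟨?_, ⟨hzx, hz.1⟩, hle hz.2⟩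
        rintro rfl; exact hnuv hz.2
    have hvm : v ∈ (R.erase x).filter (fun z => G1.Adj y z) := by
      rw [mem_filter, mem_erase]
      exact ⟨⟨hxv.ne.symm, hv⟩, huv1⟩
    have h3 := card_le_card h2
    have h4 := card_insert_le x (((R.erase x).filter (fun z => G1.Adj y z)).erase v)
    rw [card_erase_of_mem hvm] at h4
    have h5 := card_pos.2 ⟨v, hvm⟩
    omega
  by_cases hyv : y = v
  · subst hyv
    have h2 : R.filter (fun z => G.Adj y z) ⊆
        insert x (((R.erase x).filter (fun z => G1.Adj y z)).erase u) := by
      intro z hz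
      rw [mem_filter] at hz
      rw [mem_insert, mem_erase, mem_filter, mem_erase]
      by_cases hzx : z = x
      · exact Or.inl hzx
      · refine Or.inr ⟨?_, ⟨hzx, hz.1⟩, hle hz.2⟩
        rintro rfl; exact hnuv hz.2.symm
    have hvm : u ∈ (R.erase x).filter (fun z => G1.Adj y z) := by
      rw [mem_filter, mem_erase]
      exact ⟨⟨hxu.ne.symm, hu⟩, huv1.symm⟩
    have h3 := card_le_card h2
    have h4 := card_insert_le x (((R.erase x).filter (fun z => G1.Adj y z)).erase u)
    rw [card_erase_of_mem hvm] at h4
    have h5 := card_pos.2 ⟨u, hvm⟩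
    omega
  have h2 : R.filter (fun z => G.Adj y z) ⊆ (R.erase x).filter (fun z => G1.Adj y z) := by
    intro z hz
    rw [mem_filter] at hz
    rw [mem_filter, mem_erase]
    refine ⟨⟨?_, hz.1⟩, hle hz.2⟩
    rintro rfl
    rcases hdeg y hy hz.2.symm with h | h
    · exact hyu h
    · exact hyv h
  exact (card_le_card h2).trans h1

lemma deg2_lift {G : SimpleGraph V} {R : Finset V} {x u v : V} (hu : u ∈ R)
    (hv : v ∈ R) (hxu : G.Adj x u) (hxv : G.Adj x v) (huv : u ≠ v) (hnuv : ¬ G.Adj u v)
    (hdeg : ∀ y ∈ R, G.Adj x y → y = u ∨ y = v)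
    (h : Deg2 (G ⊔ SimpleGraph.edge u v) (R.erase x)) : Deg2 G R :=
  deg2_lift' hu hv hxu hxv huv hnuv hdeg le_sup_left (by simp [SimpleGraph.edge_adj, huv]) h

/-- a triangle all of whose vertices have degree two is everything -/
lemma triangle_all {G : SimpleGraph V} {R : Finset V} (hc : Cn G R) {y p q : V} (hy : y ∈ R)
    (hp : p ∈ R) (hq : q ∈ R) (h1 : ∀ z ∈ R, G.Adj y z → z = p ∨ z = q)
    (h2 : ∀ z ∈ R, G.Adj p z → z = y ∨ z = q) (h3 : ∀ z ∈ R, G.Adj q z → z = y ∨ z = p) :
    R = {y, p, q} := by
  apply subset_antisymm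
  · by_contra hns
    refine not_cn_of (S := R) (T := {y, p, q}) ?_ ⟨y, by simp⟩ (by rw [sdiff_nonempty]; exact hns)
      ?_ hc
    · intro z hz
      simp only [mem_insert, mem_singleton] at hz
      rcases hz with rfl | rfl | rfl <;> assumption
    · intro a ha b hb hab
      simp only [mem_insert, mem_singleton, mem_sdiff, not_or] at ha hb
      rcases ha with rfl | rfl | rfl
      · rcases h1 b hb.1 hab with h | h
        · exact hb.2.2.1 h
        · exact hb.2.2.2 h
      · rcases h2 b hb.1 hab with h | h
        · exact hb.2.1 h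
        · exact hb.2.2.2 h
      · rcases h3 b hb.1 hab with h | h
        · exact hb.2.1 h
        · exact hb.2.2.1 h
  · intro z hz
    simp only [mem_insert, mem_singleton] at hz
    rcases hz with rfl | rfl | rfl <;> assumption

theorem struct_diamond : ∀ (n : ℕ) (G : SimpleGraph V) (R : Finset V), R.card ≤ n → TC G R →
    ¬ ItmOn diamond G (R : Set V) → Deg2 G R ∨ Full G R := by
  intro n
  induction n with
  | zero =>
    intro G R h1 h2
    have := h2.card
    omega
  | succ n ih =>
    intro G R hn hT hno
    by_cases h3 : R.card ≤ 3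
    · exact Or.inl (deg2_of_card h3)
    have h4 : 4 ≤ R.card := by omega
    by_cases hfull : Full G R
    · exact Or.inr hfull
    by_cases hA : ∃ x ∈ R, ∃ u ∈ R, ∃ v ∈ R, u ≠ v ∧ G.Adj x u ∧ G.Adj x v ∧
        (∀ y ∈ R, G.Adj x y → y = u ∨ y = v)
    · obtain ⟨x, hx, u, hu, v, hv, huv, hxu, hxv, hdeg⟩ := hA
      have hsup := hT.suppress h4 hx hu hv hxu.ne hxv.ne huv hdeg
      have hcard : (R.erase x).card ≤ n := by rw [card_erase_of_mem hx]; omega
      by_cases hadj : G.Adj u v
      · -- adjacent neighbours
        have hG : G ⊔ SimpleGraph.edge u v = G := by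
          ext a b
          simp only [SimpleGraph.sup_adj, SimpleGraph.edge_adj, or_iff_left_iff_imp]
          rintro ⟨⟨rfl, rfl⟩ | ⟨rfl, rfl⟩, _⟩
          · exact hadj
          · exact hadj.symm
        rw [hG] at hsup
        have hno' : ¬ ItmOn diamond G ((R.erase x : Finset V) : Set V) :=
          fun h => hno (h.mono (by simp))
        obtain ⟨w, hw⟩ : (((R.erase x).erase u).erase v).Nonempty := by
          rw [← card_pos, card_erase_of_mem, card_erase_of_mem, card_erase_of_mem hx]
          · omega
          · exact mem_erase.2 ⟨hxu.ne.symm, hu⟩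
          · exact mem_erase.2 ⟨huv.symm, mem_erase.2 ⟨hxv.ne.symm, hv⟩⟩
        simp only [mem_erase] at hw
        obtain ⟨hwv, hwu, hwx, hw⟩ := hw
        have hxw : ¬ G.Adj x w := fun h => by
          rcases hdeg w hw h with h | h
          · exact hwu h
          · exact hwv h
        have hcont : G.Adj u w → G.Adj v w → False := fun h1 h2 =>
          hno (itm_diamond (a := u) (b := v) (c := x) (d := w) hu hv hx hw hadj hxu.symm h1
            hxv.symm h2 hwx.symm hxw)
        rcases ih G (R.erase x) hcard hsup hno' with h | h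
        · -- degrees at most two in R - x
          obtain ⟨p, hp, q, hq, hpq, hwp, hwq⟩ := hsup.two_nbrs (mem_erase.2 ⟨hwx, hw⟩)
          obtain ⟨hpx, hpR⟩ := mem_erase.1 hp
          obtain ⟨hqx, hqR⟩ := mem_erase.1 hq
          have hwd := nbrs_of_le_two (h w (mem_erase.2 ⟨hwx, hw⟩)) hp hq hpq hwp hwq
          have hwd' : ∀ y ∈ R, G.Adj w y → y = p ∨ y = q := by
            intro y hy hwy
            refine hwd y (mem_erase.2 ⟨?_, hy⟩) hwy
            rintro rfl; exact hxw hwy.symm
          by_cases hpqa : G.Adj p q
          · -- triangle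
            have hR := triangle_all hsup.conn (mem_erase.2 ⟨hwx, hw⟩) hp hq hwd
              (nbrs_of_le_two (h p hp) (mem_erase.2 ⟨hwx, hw⟩) hq hwq.ne hwp.symm hpqa)
              (nbrs_of_le_two (h q hq) (mem_erase.2 ⟨hwx, hw⟩) hp hwp.ne hwq.symm hpqa.symm)
            have hu' : u ∈ R.erase x := mem_erase.2 ⟨hxu.ne.symm, hu⟩
            have hv' : v ∈ R.erase x := mem_erase.2 ⟨hxv.ne.symm, hv⟩
            rw [hR] at hu' hv'
            simp only [mem_insert, mem_singleton] at hu' hv'
            exfalso
            apply hcont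
            · rcases hu' with h | h | h
              · exact absurd h.symm hwu
              · rw [h]; exact hwp.symm
              · rw [h]; exact hwq.symm
            · rcases hv' with h | h | h
              · exact absurd h.symm hwv
              · rw [h]; exact hwp.symm
              · rw [h]; exact hwq.symm
          · -- suppress w instead
            have hsup2 := hT.suppress h4 hw hpR hqR hwp.ne hwq.ne hpq hwd'
            have hno2 : ¬ ItmOn diamond (G ⊔ SimpleGraph.edge p q)
                ((R.erase w : Finset V) : Set V) := by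
              intro h
              rw [coe_erase_eq] at h
              exact hno (h.lift hw hwp hwq hpq hpqa hwd')
            have hcard2 : (R.erase w).card ≤ n := by rw [card_erase_of_mem hw]; omega
            rcases ih _ (R.erase w) hcard2 hsup2 hno2 with h' | h'
            · exact Or.inl (deg2_lift hpR hqR hwp hwq hpq hpqa hwd' h')
            · -- complete: x has degree at most 2, so everything has size 4
              by_cases h5 : (R.erase w).card ≤ 3
              · exact Or.inl (deg2_lift hpR hqR hwp hwq hpq hpqa hwd' (deg2_of_card h5))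
              · exfalso
                obtain ⟨z, hz⟩ : ((((R.erase w).erase x).erase u).erase v).Nonempty := by
                  rw [← card_pos, card_erase_of_mem, card_erase_of_mem, card_erase_of_mem]
                  · omega
                  · exact mem_erase.2 ⟨hwx.symm, hx⟩
                  · exact mem_erase.2 ⟨hxu.ne.symm, mem_erase.2 ⟨hwu.symm, hu⟩⟩
                  · exact mem_erase.2 ⟨huv.symm, mem_erase.2 ⟨hxv.ne.symm,
                      mem_erase.2 ⟨hwv.symm, hv⟩⟩⟩
                simp only [mem_erase] at hz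
                obtain ⟨hzv, hzu, hzx, hzw, hz⟩ := hz
                have h6 := h' x (mem_erase.2 ⟨hwx.symm, hx⟩) z (mem_erase.2 ⟨hzw, hz⟩) hzx.symm
                simp only [SimpleGraph.sup_adj, SimpleGraph.edge_adj] at h6
                rcases h6 with h6 | ⟨⟨h6, h7⟩ | ⟨h6, h7⟩, _⟩
                · rcases hdeg z hz h6 with h | h
                  · exact hzu h
                  · exact hzv h
                · exact hpx h6.symm
                · exact hqx h6.symm
        · -- complete
          exfalso
          have hw' : w ∈ R.erase x := mem_erase.2 ⟨hwx, hw⟩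
          exact hcont (h u (mem_erase.2 ⟨hxu.ne.symm, hu⟩) w hw' hwu.symm)
            (h v (mem_erase.2 ⟨hxv.ne.symm, hv⟩) w hw' hwv.symm)
      · -- non-adjacent neighbours
        have hno' : ¬ ItmOn diamond (G ⊔ SimpleGraph.edge u v)
            ((R.erase x : Finset V) : Set V) := by
          intro h
          rw [coe_erase_eq] at h
          exact hno (h.lift hx hxu hxv huv hadj hdeg)
        rcases ih _ (R.erase x) hcard hsup hno' with h | h
        · exact Or.inl (deg2_lift hu hv hxu hxv huv hadj hdeg h)
        · by_cases h5 : (R.erase x).card ≤ 3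
          · exact Or.inl (deg2_lift hu hv hxu hxv huv hadj hdeg (deg2_of_card h5))
          exfalso
          obtain ⟨p, hp⟩ : (((R.erase x).erase u).erase v).Nonempty := by
            rw [← card_pos, card_erase_of_mem, card_erase_of_mem]
            · omega
            · exact mem_erase.2 ⟨hxu.ne.symm, hu⟩
            · exact mem_erase.2 ⟨huv.symm, mem_erase.2 ⟨hxv.ne.symm, hv⟩⟩
          have hp0 := hp
          simp only [mem_erase] at hp
          obtain ⟨hpv, hpu, hpx, hp⟩ := hp
          obtain ⟨q, hq⟩ : ((((R.erase x).erase u).erase v).erase p).Nonempty := by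
            rw [← card_pos, card_erase_of_mem hp0, card_erase_of_mem, card_erase_of_mem]
            · omega
            · exact mem_erase.2 ⟨hxu.ne.symm, hu⟩
            · exact mem_erase.2 ⟨huv.symm, mem_erase.2 ⟨hxv.ne.symm, hv⟩⟩
          simp only [mem_erase] at hq
          obtain ⟨hqp, hqv, hqu, hqx, hq⟩ := hq
          have key : ∀ a ∈ R, ∀ b ∈ R, a ≠ x → b ≠ x → a ≠ b → a ≠ u → a ≠ v → G.Adj a b := by
            intro a ha b hb hax hbx hab hau hav
            have := h a (mem_erase.2 ⟨hax, ha⟩) b (mem_erase.2 ⟨hbx, hb⟩) hab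
            simp only [SimpleGraph.sup_adj, SimpleGraph.edge_adj] at this
            rcases this with h6 | ⟨⟨h6, h7⟩ | ⟨h6, h7⟩, _⟩
            · exact h6
            · exact absurd h6.symm hau.symm
            · exact absurd h6 hav
          exact hno (itm_diamond (a := p) (b := q) (c := u) (d := v) hp hq hu hv
            (key p hp q hq hpx hqx hqp.symm hpu hpv)
            (key p hp u hu hpx hxu.ne.symm hpu hpu hpv)
            (key p hp v hv hpx hxv.ne.symm hpv hpu hpv)
            (key q hq u hu hqx hxu.ne.symm hqu hqu hqv)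
            (key q hq v hv hqx hxv.ne.symm hqv hqu hqv) huv hadj)
    · -- all degrees at least three
      have hdeg3 : ∀ v ∈ R, 3 ≤ (R.filter (fun y => G.Adj v y)).card := by
        intro x hx
        by_contra hlt
        obtain ⟨u, hu, v, hv, huv, hxu, hxv⟩ := hT.two_nbrs hx
        exact hA ⟨x, hx, u, hu, v, hv, huv, hxu, hxv,
          nbrs_of_le_two (by omega) hu hv huv hxu hxv⟩
      obtain ⟨v, hv, hTv⟩ := hT.exists_del hdeg3
      have hcard : (R.erase v).card ≤ n := by rw [card_erase_of_mem hv]; omega
      have hno' : ¬ ItmOn diamond G ((R.erase v : Finset V) : Set V) :=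
        fun h => hno (h.mono (by simp))
      exfalso
      rcases ih G (R.erase v) hcard hTv hno' with h | h
      · -- wheel
        have hall : ∀ y ∈ R.erase v, G.Adj v y := by
          intro y hy
          by_contra hvy
          have h5 := hdeg3 y (mem_erase.1 hy).2
          have h6 : R.filter (fun z => G.Adj y z) ⊆ (R.erase v).filter (fun z => G.Adj y z) := by
            intro z hz
            rw [mem_filter] at hz
            rw [mem_filter, mem_erase]
            refine ⟨⟨?_, hz.1⟩, hz.2⟩
            rintro rfl; exact hvy hz.2.symm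
          have h7 := (card_le_card h6).trans (h y hy)
          omega
        obtain ⟨y, hy⟩ := hTv.conn.1
        obtain ⟨p, hp, q, hq, hpq, hyp, hyq⟩ := hTv.two_nbrs hy
        have hyR := (mem_erase.1 hy).2
        have hpR := (mem_erase.1 hp).2
        have hqR := (mem_erase.1 hq).2
        by_cases hpqa : G.Adj p q
        · have hR := triangle_all hTv.conn hy hp hq
            (nbrs_of_le_two (h y hy) hp hq hpq hyp hyq)
            (nbrs_of_le_two (h p hp) hy hq hyq.ne hyp.symm hpqa)
            (nbrs_of_le_two (h q hq) hy hp hyp.ne hyq.symm hpqa.symm)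
          apply hfull
          have tri : ∀ a ∈ R.erase v, ∀ b ∈ R.erase v, a ≠ b → G.Adj a b := by
            intro a ha b hb hab
            rw [hR] at ha hb
            simp only [mem_insert, mem_singleton] at ha hb
            rcases ha with rfl | rfl | rfl <;> rcases hb with rfl | rfl | rfl <;>
              first
              | exact absurd rfl hab
              | assumption
              | (apply SimpleGraph.Adj.symm; assumption)
          intro a ha b hb hab
          by_cases hav : a = v
          · subst hav
            exact hall b (mem_erase.2 ⟨hab.symm, hb⟩)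
          by_cases hbv : b = v
          · subst hbv
            exact (hall a (mem_erase.2 ⟨hab, ha⟩)).symm
          exact tri a (mem_erase.2 ⟨hav, ha⟩) b (mem_erase.2 ⟨hbv, hb⟩) hab
        · exact hno (itm_diamond (a := v) (b := y) (c := p) (d := q) hv hyR hpR hqR (hall y hy)
            (hall p hp) (hall q hq) hyp hyq hpq hpqa)
      · -- complete minus
        obtain ⟨w, hw, hvw⟩ : ∃ w ∈ R.erase v, ¬ G.Adj v w := by
          by_contra hc
          push Not at hc
          apply hfull
          intro a ha b hb hab
          by_cases hav : a = v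
          · subst hav
            exact hc b (mem_erase.2 ⟨hab.symm, hb⟩)
          by_cases hbv : b = v
          · subst hbv
            exact (hc a (mem_erase.2 ⟨hab, ha⟩)).symm
          exact h a (mem_erase.2 ⟨hav, ha⟩) b (mem_erase.2 ⟨hbv, hb⟩) hab
        obtain ⟨a, ha, b, hb, hab, hva, hvb⟩ := hT.two_nbrs hv
        have ha' : a ∈ R.erase v := mem_erase.2 ⟨hva.ne.symm, ha⟩
        have hb' : b ∈ R.erase v := mem_erase.2 ⟨hvb.ne.symm, hb⟩
        have haw : a ≠ w := by rintro rfl; exact hvw hva
        have hbw : b ≠ w := by rintro rfl; exact hvw hvb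
        exact hno (itm_diamond (a := a) (b := b) (c := v) (d := w) ha hb hv (mem_erase.1 hw).2
          (h a ha' b hb' hab) hva.symm (h a ha' w hw haw) hvb.symm (h b hb' w hw hbw)
          (mem_erase.1 hw).1.symm hvw)

end Pool.Agent.T6.H89.ITM
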