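import Pool.Agent.T6.H89.ITM.Struct

/-!
# Structure of 2-connected graphs without an induced subdivision of the paw
-/

set_option autoImplicit false

namespace Pool.Agent.T6.H89.ITM

open Finset Classical
open Pool.Agent.H175R2

variable {V : Type}

lemma CM.mono {G : SimpleGraph V} {R R' : Finset V} (h : CM G R) (hR : R' ⊆ R) : CM G R' :=
  fun a ha b hb c hc => h a (hR ha) b (hR hb) c (hR hc)

/-- a connected paw-free graph with a triangle is complete multipartite -/
theorem cm_of_triangle {G : SimpleGraph V} {R : Finset V} (hc : Cn G R)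
    (hno : ¬ ItmOn paw G (R : Set V)) {t1 t2 t3 : V} (h1 : t1 ∈ R) (h2 : t2 ∈ R) (h3 : t3 ∈ R)
    (h12 : G.Adj t1 t2) (h13 : G.Adj t1 t3) (h23 : G.Adj t2 t3) : CM G R := by
  -- paw-freeness
  have hpaw : ∀ a ∈ R, ∀ b ∈ R, ∀ c ∈ R, ∀ d ∈ R, G.Adj a b → G.Adj a c → G.Adj b c →
      G.Adj a d → G.Adj b d ∨ G.Adj c d := by
    intro a ha b hb c hc d hd hab hac hbc had
    by_contra hcon
    push Not at hcon
    exact hno (itm_paw (mem_coe.2 ha) (mem_coe.2 hb) (mem_coe.2 hc) (mem_coe.2 hd) hab hac had hbc
      hcon.1 hcon.2)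
  obtain ⟨M, hM⟩ := (R.powerset.filter (fun M => CM G M ∧ {t1, t2, t3} ⊆ M)).exists_maximal
    ⟨{t1, t2, t3}, by
      simp only [mem_filter, mem_powerset, Subset.refl, and_true]
      refine ⟨?_, ?_⟩
      · intro z hz
        simp only [mem_insert, mem_singleton] at hz
        rcases hz with rfl | rfl | rfl <;> assumption
      · intro a ha b hb c hc hab hbc
        simp only [mem_insert, mem_singleton] at ha hb hc
        have g12 := h12.symm
        have g13 := h13.symm
        have g23 := h23.symm
        rcases ha with rfl | rfl | rfl <;> rcases hb with rfl | rfl | rfl <;>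
          rcases hc with rfl | rfl | rfl <;> first | exact G.irrefl | exact absurd ‹_› hab | exact absurd ‹_› hbc | assumption⟩
  have hM1 := hM.prop
  simp only [mem_filter, mem_powerset] at hM1
  obtain ⟨hMR, hMc, hMt⟩ := hM1
  have m1 : t1 ∈ M := hMt (by simp)
  have m2 : t2 ∈ M := hMt (by simp)
  have m3 : t3 ∈ M := hMt (by simp)
  by_cases hMeq : M = R
  · rw [← hMeq]; exact hMc
  exfalso
  -- third vertex
  have third : ∀ p ∈ M, ∀ q ∈ M, ∃ r ∈ M, G.Adj r p ∧ G.Adj r q := by
    intro p hp q hq
    have np : ∀ t ∈ M, ∀ t' ∈ M, G.Adj t t' → G.Adj t p ∨ G.Adj t' p := by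
      intro t ht t' ht' h
      by_contra hcon
      push Not at hcon
      exact hMc t ht p hp t' ht' hcon.1 (fun h' => hcon.2 h'.symm) h
    have nq : ∀ t ∈ M, ∀ t' ∈ M, G.Adj t t' → G.Adj t q ∨ G.Adj t' q := by
      intro t ht t' ht' h
      by_contra hcon
      push Not at hcon
      exact hMc t ht q hq t' ht' hcon.1 (fun h' => hcon.2 h'.symm) h
    have a1 := np t1 m1 t2 m2 h12
    have a2 := np t1 m1 t3 m3 h13
    have a3 := np t2 m2 t3 m3 h23
    have b1 := nq t1 m1 t2 m2 h12
    have b2 := nq t1 m1 t3 m3 h13
    have b3 := nq t2 m2 t3 m3 h23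
    by_cases c1 : G.Adj t1 p ∧ G.Adj t1 q
    · exact ⟨t1, m1, c1⟩
    by_cases c2 : G.Adj t2 p ∧ G.Adj t2 q
    · exact ⟨t2, m2, c2⟩
    by_cases c3 : G.Adj t3 p ∧ G.Adj t3 q
    · exact ⟨t3, m3, c3⟩
    exfalso
    tauto
  have hns : (R \ M).Nonempty := by
    rw [sdiff_nonempty]
    intro hs
    exact hMeq (subset_antisymm hMR hs)
  obtain ⟨m, hm, y, hy, hmy⟩ := hc.2 M hMR ⟨t1, m1⟩ hns
  obtain ⟨hyR, hyM⟩ := mem_sdiff.1 hy
  -- non-neighbours of y are pairwise non-adjacent
  have k1 : ∀ p ∈ M, ∀ q ∈ M, ¬ G.Adj y p → ¬ G.Adj y q → ¬ G.Adj p q := by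
    -- first: if `r` is adjacent to `y` and to both `p`, `q` then a paw
    have base : ∀ p ∈ M, ∀ q ∈ M, ∀ r ∈ M, G.Adj p q → G.Adj r p → G.Adj r q → G.Adj y r →
        ¬ G.Adj y p → G.Adj y q := by
      intro p hp q hq r hr hpq hrp hrq hyr hyp
      rcases hpaw r (hMR hr) p (hMR hp) q (hMR hq) y hyR hrp hrq hpq hyr.symm with h | h
      · exact absurd h.symm hyp
      · exact h.symm
    intro p hp q hq hyp hyq hpq
    obtain ⟨r, hr, hrp, hrq⟩ := third p hp q hq
    by_cases hyr : G.Adj y r
    · exact hyq (base p hp q hq r hr hpq hrp hrq hyr hyp)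
    -- now y misses the triangle p q r
    -- m is adjacent to at least two of p, q, r
    have nm : ∀ t ∈ M, ∀ t' ∈ M, G.Adj t t' → G.Adj m t ∨ G.Adj m t' := by
      intro t ht t' ht' h
      by_contra hcon
      push Not at hcon
      exact hMc t ht m hm t' ht' (fun h' => hcon.1 h'.symm) hcon.2 h
    have tw : ∀ s ∈ M, ∀ t ∈ M, G.Adj s t → G.Adj m s → G.Adj m t → ¬ G.Adj y s → G.Adj y t :=
      fun s hs t ht hst hms hmt hys => base s hs t ht m hm hst hms hmt hmy.symm hys
    rcases nm p hp q hq hpq with h4 | h4
    · rcases nm q hq r hr hrq.symm with h5 | h5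
      · exact hyq (tw p hp q hq hpq h4 h5 hyp)
      · exact hyr (tw p hp r hr hrp.symm h4 h5 hyp)
    · rcases nm p hp r hr hrp.symm with h5 | h5
      · exact hyq (tw p hp q hq hpq h5 h4 hyp)
      · exact hyr (tw q hq r hr hrq.symm h4 h5 hyq)
  -- neighbours and non-neighbours are adjacent
  have k2 : ∀ p ∈ M, ∀ q ∈ M, ¬ G.Adj y p → G.Adj y q → G.Adj p q := by
    intro p hp q hq hyp hyq
    by_contra hpq
    have hadjp : ∀ a ∈ M, G.Adj a p → G.Adj y a := by
      intro a ha hap
      by_contra hya
      exact k1 a ha p hp hya hyp hap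
    obtain ⟨a, ha, haq, _⟩ := third q hq q hq
    have hap : G.Adj a p := by
      by_contra hap
      exact hMc a ha p hp q hq hap hpq haq
    have hya := hadjp a ha hap
    rcases hpaw a (hMR ha) y hyR q (hMR hq) p (hMR hp) hya.symm haq hyq hap with h | h
    · exact hyp h
    · exact hpq h.symm
  have hbig : CM G (insert y M) := by
    intro a ha b hb c hc hab hbc hac
    rw [mem_insert] at ha hb hc
    rcases ha with rfl | ha
    · rcases hb with rfl | hb
      · exact hbc hac
      · rcases hc with rfl | hc
        · exact G.irrefl hac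
        · exact hbc (k2 b hb c hc hab hac)
    · rcases hb with rfl | hb
      · rcases hc with rfl | hc
        · exact hab hac
        · exact k1 a ha c hc (fun h => hab h.symm) hbc hac
      · rcases hc with rfl | hc
        · exact hab (k2 b hb a ha (fun h => hbc h.symm) hac.symm).symm
        · exact hMc a ha b hb c hc hab hbc hac
  have := hM.le_of_ge (y := insert y M) (by
    simp only [mem_filter, mem_powerset]
    exact ⟨insert_subset hyR hMR, hbig, hMt.trans (subset_insert _ _)⟩) (subset_insert _ _)
  exact hyM (this (mem_insert_self _ _))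

theorem struct_paw : ∀ (n : ℕ) (G : SimpleGraph V) (R : Finset V), R.card ≤ n → TC G R →
    ¬ ItmOn paw G (R : Set V) → Deg2 G R ∨ CM G R := by
  intro n
  induction n with
  | zero =>
    intro G R h1 h2
    have := h2.card
    omega
  | succ n ih =>
    intro G R hn hT hno
    by_cases h3 : R.card ≤ 3
    · exact Or.inl (deg2_of_card h3)
    have h4 : 4 ≤ R.card := by omega
    by_cases htri : ∃ a ∈ R, ∃ b ∈ R, ∃ c ∈ R, G.Adj a b ∧ G.Adj a c ∧ G.Adj b c
    · obtain ⟨a, ha, b, hb, c, hc, hab, hac, hbc⟩ := htri
      exact Or.inr (cm_of_triangle hT.conn hno ha hb hc hab hac hbc)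
    push Not at htri
    have hc4 : ∀ a ∈ R, ∀ b ∈ R, ∀ c ∈ R, ∀ d ∈ R, ∀ e ∈ R, G.Adj a b → G.Adj a c → G.Adj a d →
        G.Adj b e → G.Adj c e → b ≠ c → a ≠ e → ¬ G.Adj e d → False := by
      intro a ha b hb c hc d hd e he hab hac had hbe hce hbc hae hed
      refine hno (itm_paw_c4 (a := a) (b := b) (c := c) (d := d) (e := e) (mem_coe.2 ha)
        (mem_coe.2 hb) (mem_coe.2 hc) (mem_coe.2 hd) (mem_coe.2 he) hab hac had hbe hce ?_ hbc ?_
        ?_ ?_ hed hae)
      · exact htri a ha b hb c hc hab hac
      · intro h; exact htri a ha b hb e he hab h hbe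
      · exact htri a ha b hb d hd hab had
      · exact htri a ha c hc d hd hac had
    by_cases hA : ∃ x ∈ R, ∃ u ∈ R, ∃ v ∈ R, u ≠ v ∧ G.Adj x u ∧ G.Adj x v ∧
        (∀ y ∈ R, G.Adj x y → y = u ∨ y = v)
    · obtain ⟨x, hx, u, hu, v, hv, huv, hxu, hxv, hdeg⟩ := hA
      have hsup := hT.suppress h4 hx hu hv hxu.ne hxv.ne huv hdeg
      have hcard : (R.erase x).card ≤ n := by rw [card_erase_of_mem hx]; omega
      have hadj : ¬ G.Adj u v := htri x hx u hu v hv hxu hxv
      have hno' : ¬ ItmOn paw (G ⊔ SimpleGraph.edge u v)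
          ((R.erase x : Finset V) : Set V) := by
        intro h
        rw [coe_erase_eq] at h
        exact hno (h.lift hx hxu hxv huv hadj hdeg)
      rcases ih _ (R.erase x) hcard hsup hno' with h | h
      · exact Or.inl (deg2_lift hu hv hxu hxv huv hadj hdeg h)
      -- the graph with the edge `u v` is complete multipartite
      have hux : u ≠ x := hxu.ne.symm
      have hvx : v ≠ x := hxv.ne.symm
      have huR : u ∈ R.erase x := mem_erase.2 ⟨hux, hu⟩
      have hvR : v ∈ R.erase x := mem_erase.2 ⟨hvx, hv⟩
      obtain ⟨G1, hG1⟩ : ∃ G1, G1 = G ⊔ SimpleGraph.edge u v := ⟨_, rfl⟩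
      rw [← hG1] at h
      have g1 : ∀ a b, G1.Adj a b ↔ (G.Adj a b ∨ (a = u ∧ b = v) ∨ (a = v ∧ b = u)) := by
        intro a b
        rw [hG1]
        simp only [SimpleGraph.sup_adj, SimpleGraph.edge_adj]
        constructor
        · rintro (h | ⟨h, _⟩)
          · exact Or.inl h
          · exact Or.inr h
        · rintro (h | ⟨rfl, rfl⟩ | ⟨rfl, rfl⟩)
          · exact Or.inl h
          · exact Or.inr ⟨Or.inl ⟨rfl, rfl⟩, huv⟩
          · exact Or.inr ⟨Or.inr ⟨rfl, rfl⟩, huv.symm⟩
      have guv : G1.Adj u v := (g1 u v).2 (Or.inr (Or.inl ⟨rfl, rfl⟩))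
      -- every other vertex is adjacent to `u` or `v`
      have hor : ∀ z ∈ R, z ≠ x → z ≠ u → z ≠ v → G.Adj z u ∨ G.Adj z v := by
        intro z hz hzx hzu hzv
        by_contra hcon
        push Not at hcon
        refine h u huR z (mem_erase.2 ⟨hzx, hz⟩) v hvR ?_ ?_ guv
        · intro h'
          rcases (g1 _ _).1 h' with h' | ⟨_, h'⟩ | ⟨h', _⟩
          · exact hcon.1 h'.symm
          · exact hzv h'
          · exact huv h'
        · intro h'
          rcases (g1 _ _).1 h' with h' | ⟨h', _⟩ | ⟨h', _⟩
          · exact hcon.2 h'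
          · exact hzu h'
          · exact hzv h'
      have e1 : ∀ a b, a ≠ u → a ≠ v → (G1.Adj a b ↔ G.Adj a b) := by
        intro a b ha hb
        rw [g1]
        constructor
        · rintro (h | ⟨h, _⟩ | ⟨h, _⟩)
          · exact h
          · exact absurd h ha
          · exact absurd h hb
        · exact Or.inl
      have e2 : ∀ a b, b ≠ u → b ≠ v → (G1.Adj a b ↔ G.Adj a b) := by
        intro a b ha hb
        rw [g1]
        constructor
        · rintro (h | ⟨_, h⟩ | ⟨_, h⟩)
          · exact h
          · exact absurd h hb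
          · exact absurd h ha
        · exact Or.inl
      have hxn : ∀ z, z ∈ R → z ≠ u → z ≠ v → ¬ G.Adj x z := by
        intro z hz hzu hzv h'
        rcases hdeg z hz h' with h' | h'
        · exact hzu h'
        · exact hzv h'
      by_cases hboth : ∃ y ∈ R, y ≠ x ∧ G.Adj y u ∧ G.Adj y v
      · -- K_{2, m}
        obtain ⟨y, hy, hyx, hyu, hyv⟩ := hboth
        have hall : ∀ z ∈ R, z ≠ x → z ≠ u → z ≠ v → G.Adj z u ∧ G.Adj z v := by
          intro z hz hzx hzu hzv
          by_cases hzy : z = y
          · rw [hzy]; exact ⟨hyu, hyv⟩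
          have hzR : z ∈ R.erase x := mem_erase.2 ⟨hzx, hz⟩
          have hyR : y ∈ R.erase x := mem_erase.2 ⟨hyx, hy⟩
          rcases hor z hz hzx hzu hzv with h5 | h5
          · refine ⟨h5, ?_⟩
            by_contra h6
            -- z and v in one part, so z is adjacent to y, triangle z y u
            have h7 : G.Adj z y := by
              by_contra h7
              refine h v hvR z hzR y hyR ?_ ?_ ?_
              · rw [e2 v z hzu hzv]; exact fun h' => h6 h'.symm
              · rw [e1 z y hzu hzv]; exact h7
              · rw [e2 v y hyu.ne hyv.ne]; exact hyv.symm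
            exact htri z hz y hy u hu h7 h5 hyu
          · refine ⟨?_, h5⟩
            by_contra h6
            have h7 : G.Adj z y := by
              by_contra h7
              refine h u huR z hzR y hyR ?_ ?_ ?_
              · rw [e2 u z hzu hzv]; exact fun h' => h6 h'.symm
              · rw [e1 z y hzu hzv]; exact h7
              · rw [e2 u y hyu.ne hyv.ne]; exact hyu.symm
            exact htri z hz y hy v hv h7 h5 hyv
        right
        -- classify
        have hadjiff : ∀ a ∈ R, ∀ b ∈ R, G.Adj a b ↔
            ((a = u ∨ a = v) ∧ ¬ (b = u ∨ b = v)) ∨ ((b = u ∨ b = v) ∧ ¬ (a = u ∨ a = v)) := by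
          have hN : ∀ a ∈ R, a ≠ u → a ≠ v → G.Adj a u ∧ G.Adj a v := by
            intro a ha hau hav
            by_cases hax : a = x
            · rw [hax]; exact ⟨hxu, hxv⟩
            · exact hall a ha hax hau hav
          intro a ha b hb
          by_cases hau : a = u
          · subst hau
            by_cases hbu : b = a
            · subst hbu; simp
            by_cases hbv : b = v
            · subst hbv; simp [hadj]
            · have := (hN b hb hbu hbv).1.symm
              simp [hbu, hbv, this]
          by_cases hav : a = v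
          · subst hav
            by_cases hbu : b = u
            · subst hbu; simp [fun h => hadj (SimpleGraph.Adj.symm h)]
              exact fun h => hadj h.symm
            by_cases hbv : b = a
            · subst hbv; simp
            · have := (hN b hb hbu hbv).2.symm
              simp [hbu, hbv, this]
          by_cases hbu : b = u
          · subst hbu
            have := (hN a ha hau hav).1
            simp [hau, hav, this]
          by_cases hbv : b = v
          · subst hbv
            have := (hN a ha hau hav).2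
            simp [hau, hav, this]
          simp only [hau, hav, hbu, hbv, or_self, not_false_eq_true, and_true, iff_false]
          intro h'
          exact htri a ha b hb u hu h' (hN a ha hau hav).1 (hN b hb hbu hbv).1
        intro a ha b hb c hc hab hbc hac
        rw [hadjiff a ha b hb] at hab
        rw [hadjiff b hb c hc] at hbc
        rw [hadjiff a ha c hc] at hac
        tauto
      · -- complete bipartite minus an edge: a five-cycle
        push Not at hboth
        left
        -- second neighbours
        obtain ⟨v', hv', hv'x, huv'⟩ : ∃ v' ∈ R, v' ≠ x ∧ G.Adj u v' := by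
          obtain ⟨p, hp, q, hq, hpq, hup, huq⟩ := hT.two_nbrs hu
          by_cases hpx : p = x
          · exact ⟨q, hq, fun h' => hpq (hpx.trans h'.symm), huq⟩
          · exact ⟨p, hp, hpx, hup⟩
        obtain ⟨u', hu', hu'x, hvu'⟩ : ∃ u' ∈ R, u' ≠ x ∧ G.Adj v u' := by
          obtain ⟨p, hp, q, hq, hpq, hup, huq⟩ := hT.two_nbrs hv
          by_cases hpx : p = x
          · exact ⟨q, hq, fun h' => hpq (hpx.trans h'.symm), huq⟩
          · exact ⟨p, hp, hpx, hup⟩
        have hv'u : v' ≠ u := huv'.ne.symm
        have hu'v : u' ≠ v := hvu'.ne.symm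
        have hv'v : v' ≠ v := by rintro rfl; exact hadj huv'
        have hu'u : u' ≠ u := by rintro rfl; exact hadj hvu'.symm
        have nv'v : ¬ G.Adj v' v := hboth v' hv' hv'x huv'.symm
        have nu'u : ¬ G.Adj u' u := fun h' => hboth u' hu' hu'x h' hvu'.symm
        have hu'R : u' ∈ R.erase x := mem_erase.2 ⟨hu'x, hu'⟩
        have hv'R : v' ∈ R.erase x := mem_erase.2 ⟨hv'x, hv'⟩
        -- side: z adjacent to u is adjacent to u', z adjacent to v is adjacent to v'
        have s1 : ∀ z ∈ R, z ≠ x → G.Adj z u → G.Adj z u' := by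
          intro z hz hzx hzu
          by_contra hcon
          have hzR : z ∈ R.erase x := mem_erase.2 ⟨hzx, hz⟩
          have hzu0 : z ≠ u := hzu.ne
          have hzv0 : z ≠ v := by rintro rfl; exact hadj hzu.symm
          refine h u huR u' hu'R z hzR ?_ ?_ ?_
          · rw [e2 u u' hu'u hu'v]; exact fun h' => nu'u h'.symm
          · rw [e1 u' z hu'u hu'v]; exact fun h' => hcon h'.symm
          · rw [e2 u z hzu0 hzv0]; exact hzu.symm
        have s2 : ∀ z ∈ R, z ≠ x → G.Adj z v → G.Adj z v' := by
          intro z hz hzx hzv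
          by_contra hcon
          have hzR : z ∈ R.erase x := mem_erase.2 ⟨hzx, hz⟩
          have hzu0 : z ≠ u := by rintro rfl; exact hadj hzv
          have hzv0 : z ≠ v := hzv.ne
          refine h v hvR v' hv'R z hzR ?_ ?_ ?_
          · rw [e2 v v' hv'u hv'v]; exact fun h' => nv'v h'.symm
          · rw [e1 v' z hv'u hv'v]; exact fun h' => hcon h'.symm
          · rw [e2 v z hzu0 hzv0]; exact hzv.symm
        have huv'' : G.Adj u' v' := s2 u' hu' hu'x hvu'.symm
        have hall : ∀ z ∈ R, z = x ∨ z = u ∨ z = v ∨ z = u' ∨ z = v' := by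
          intro z hz
          by_contra hcon
          push Not at hcon
          obtain ⟨hzx, hzu, hzv, hzu', hzv'⟩ := hcon
          rcases hor z hz hzx hzu hzv with h5 | h5
          · -- z ~ u, u'; four-cycle u z u' v', pendant x at u
            refine hc4 u hu z hz v' hv' x hx u' hu' h5.symm huv' hxu.symm (s1 z hz hzx h5)
              huv''.symm hzv' hu'u.symm ?_
            intro h'
            exact hxn u' hu' hu'u hu'v h'.symm
          · refine hc4 v hv z hz u' hu' x hx v' hv' h5.symm hvu' hxv.symm (s2 z hz hzx h5)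
              huv'' hzu' hv'v.symm ?_
            intro h'
            exact hxn v' hv' hv'u hv'v h'.symm
        -- degrees
        have bound : ∀ y ∈ R, ∀ p q : V, (∀ z ∈ R, G.Adj y z → z = p ∨ z = q) →
            (R.filter (fun z => G.Adj y z)).card ≤ 2 := by
          intro y _ p q hpq
          have : R.filter (fun z => G.Adj y z) ⊆ {p, q} := by
            intro z hz
            rw [mem_filter] at hz
            simpa using hpq z hz.1 hz.2
          exact (card_le_card this).trans card_le_two
        intro y hy
        rcases hall y hy with rfl | rfl | rfl | rfl | rfl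
        · exact bound y hy u v hdeg
        · refine bound y hy x v' (fun z hz hyz => ?_)
          rcases hall z hz with rfl | rfl | rfl | rfl | rfl
          · exact Or.inl rfl
          · exact absurd hyz G.irrefl
          · exact absurd hyz hadj
          · exact absurd hyz.symm nu'u
          · exact Or.inr rfl
        · refine bound y hy x u' (fun z hz hyz => ?_)
          rcases hall z hz with rfl | rfl | rfl | rfl | rfl
          · exact Or.inl rfl
          · exact absurd hyz.symm hadj
          · exact absurd hyz G.irrefl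
          · exact Or.inr rfl
          · exact absurd hyz.symm nv'v
        · refine bound y hy v v' (fun z hz hyz => ?_)
          rcases hall z hz with rfl | rfl | rfl | rfl | rfl
          · exact absurd hyz.symm (hxn y hy hu'u hu'v)
          · exact absurd hyz nu'u
          · exact Or.inl rfl
          · exact absurd hyz G.irrefl
          · exact Or.inr rfl
        · refine bound y hy u u' (fun z hz hyz => ?_)
          rcases hall z hz with rfl | rfl | rfl | rfl | rfl
          · exact absurd hyz.symm (hxn y hy hv'u hv'v)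
          · exact Or.inl rfl
          · exact absurd hyz nv'v
          · exact Or.inr rfl
          · exact absurd hyz G.irrefl
    · -- all degrees at least three
      have hdeg3 : ∀ v ∈ R, 3 ≤ (R.filter (fun y => G.Adj v y)).card := by
        intro x hx
        by_contra hlt
        obtain ⟨u, hu, v, hv, huv, hxu, hxv⟩ := hT.two_nbrs hx
        exact hA ⟨x, hx, u, hu, v, hv, huv, hxu, hxv,
          nbrs_of_le_two (by omega) hu hv huv hxu hxv⟩
      obtain ⟨v, hv, hTv⟩ := hT.exists_del hdeg3
      have hcard : (R.erase v).card ≤ n := by rw [card_erase_of_mem hv]; omega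
      have hno' : ¬ ItmOn paw G ((R.erase v : Finset V) : Set V) :=
        fun h => hno (h.mono (by simp))
      rcases ih G (R.erase v) hcard hTv hno' with h | h
      · -- wheel
        exfalso
        have hall : ∀ y ∈ R.erase v, G.Adj v y := by
          intro y hy
          by_contra hvy
          have h5 := hdeg3 y (mem_erase.1 hy).2
          have h6 : R.filter (fun z => G.Adj y z) ⊆ (R.erase v).filter (fun z => G.Adj y z) := by
            intro z hz
            rw [mem_filter] at hz
            rw [mem_filter, mem_erase]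
            refine ⟨⟨?_, hz.1⟩, hz.2⟩
            rintro rfl; exact hvy hz.2.symm
          have h7 := (card_le_card h6).trans (h y hy)
          omega
        obtain ⟨y, hy⟩ := hTv.conn.1
        obtain ⟨p, hp, q, hq, hpq, hyp, hyq⟩ := hTv.two_nbrs hy
        exact htri v hv y (mem_erase.1 hy).2 p (mem_erase.1 hp).2 (hall y hy) (hall p hp) hyp
      · right
        obtain ⟨a1, ha1, a2, ha2, ha12, hva1, hva2⟩ := hT.two_nbrs hv
        have k1 : ∀ y ∈ R, y ≠ v → ∀ q ∈ R, ¬ G.Adj v y → ¬ G.Adj y q → ¬ G.Adj v q := by
          intro y hy hyv q hq hvy hyq hvq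
          have hqv : q ≠ v := hvq.ne.symm
          have hyR : y ∈ R.erase v := mem_erase.2 ⟨hyv, hy⟩
          have hqR : q ∈ R.erase v := mem_erase.2 ⟨hqv, hq⟩
          obtain ⟨b, hb, b', hb', hbb, hqb, hqb'⟩ := hTv.two_nbrs hqR
          obtain ⟨hbv, hb1⟩ := mem_erase.1 hb
          have hyb : G.Adj y b := by
            by_contra hyb
            exact h q hqR y hyR b hb (fun h' => hyq h'.symm) hyb hqb
          obtain ⟨q', hq', hq'q, hvq'⟩ : ∃ q' ∈ R, q' ≠ q ∧ G.Adj v q' := by
            by_cases h5 : a1 = q
            · exact ⟨a2, ha2, fun h' => ha12 (h5.trans h'.symm), hva2⟩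
            · exact ⟨a1, ha1, h5, hva1⟩
          have hq'v : q' ≠ v := hvq'.ne.symm
          have hq'R : q' ∈ R.erase v := mem_erase.2 ⟨hq'v, hq'⟩
          have hqq' : ¬ G.Adj q q' := htri v hv q hq q' hq' hvq hvq'
          have hq'b : G.Adj q' b := by
            by_contra h5
            exact h q hqR q' hq'R b hb hqq' h5 hqb
          -- four-cycle b q v q', pendant y at b
          exact hc4 b hb1 q hq q' hq' y hy v hv hqb.symm hq'b.symm hyb.symm hvq.symm hvq'.symm
            hq'q.symm hbv hvy
        have k2 : ∀ p ∈ R, p ≠ v → ∀ q ∈ R, q ≠ v → ¬ G.Adj v p → ¬ G.Adj v q → ¬ G.Adj p q := by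
          intro p hp hpv q hq hqv hvp hvq hpq
          by_cases h5 : G.Adj a1 p
          · have h6 : ¬ G.Adj q a1 := fun h' => htri a1 ha1 p hp q hq h5 h'.symm hpq
            exact k1 q hq hqv a1 ha1 hvq h6 hva1
          · exact k1 p hp hpv a1 ha1 hvp (fun h' => h5 h'.symm) hva1
        intro a ha b hb c hc hab hbc hac
        by_cases hav : a = v
        · subst hav
          by_cases hbv : b = a
          · subst hbv; exact hbc hac
          · exact k1 b hb hbv c hc hab hbc hac
        by_cases hcv : c = v
        · subst hcv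
          by_cases hbv : b = c
          · subst hbv; exact hab hac
          · exact k1 b hb hbv a ha (fun h' => hbc h'.symm) (fun h' => hab h'.symm) hac.symm
        by_cases hbv : b = v
        · subst hbv
          exact k2 a ha hav c hc hcv (fun h' => hab h'.symm) hbc hac
        · exact h a (mem_erase.2 ⟨hav, ha⟩) b (mem_erase.2 ⟨hbv, hb⟩) c (mem_erase.2 ⟨hcv, hc⟩)
            hab hbc hac

end Pool.Agent.T6.H89.ITM
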