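import Pool.Agent.H175R2.Blocks
import Pool.Agent.T6.H89.ITM.Basic

/-!
# 2-connected vertex sets
-/

set_option autoImplicit false

namespace Pool.Agent.T6.H89.ITM

open Finset Classical
open Pool.Agent.H175R2

variable {V : Type}

/-- 2-connected vertex sets -/
structure TC (G : SimpleGraph V) (R : Finset V) : Prop where
  card : 3 ≤ R.card
  conn : Cn G R
  del : ∀ v ∈ R, Cn G (R.erase v)

lemma Cn.mono' {G G' : SimpleGraph V} (hG : G ≤ G') {R : Finset V} (h : Cn G R) : Cn G' R := by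
  refine ⟨h.1, fun T hT hn hn' => ?_⟩
  obtain ⟨x, hx, y, hy, hxy⟩ := h.2 T hT hn hn'
  exact ⟨x, hx, y, hy, hG hxy⟩

lemma TC.two_nbrs {G : SimpleGraph V} {R : Finset V} (h : TC G R) {v : V} (hv : v ∈ R) :
    ∃ p ∈ R, ∃ q ∈ R, p ≠ q ∧ G.Adj v p ∧ G.Adj v q := by
  have h3 := h.card
  have hn : (R \ {v}).Nonempty := by
    rw [← card_pos, card_sdiff_of_subset (by simpa using hv)]
    simp; omega
  obtain ⟨a, ha, p, hp, hap⟩ := h.conn.2 {v} (by simpa using hv) (by simp) hn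
  rw [mem_singleton] at ha
  subst ha
  have hpR : p ∈ R := (mem_sdiff.1 hp).1
  have hpv : p ≠ a := fun h => hap.ne h.symm
  have hn2 : ((R.erase p) \ {a}).Nonempty := by
    rw [← card_pos, card_sdiff_of_subset, card_erase_of_mem hpR]
    · simp; omega
    · simpa using ⟨hpv.symm, hv⟩
  obtain ⟨b, hb, q, hq, hbq⟩ := (h.del p hpR).2 {a} (by simpa using ⟨hpv.symm, hv⟩) (by simp) hn2
  rw [mem_singleton] at hb
  subst hb
  have hq' := (mem_sdiff.1 hq).1
  rw [mem_erase] at hq'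
  exact ⟨p, hpR, q, hq'.2, hq'.1.symm, hap, hbq⟩

lemma TC.suppress {G : SimpleGraph V} {R : Finset V} (h : TC G R) (h4 : 4 ≤ R.card) {x u v : V}
    (hx : x ∈ R) (hu : u ∈ R) (hv : v ∈ R) (hxu : x ≠ u) (hxv : x ≠ v) (huv : u ≠ v)
    (hdeg : ∀ y ∈ R, G.Adj x y → y = u ∨ y = v) :
    TC (G ⊔ SimpleGraph.edge u v) (R.erase x) := by
  refine ⟨?_, Cn.mono' le_sup_left (h.del x hx), ?_⟩
  · rw [card_erase_of_mem hx]; omega
  intro w hw
  rw [mem_erase] at hw
  refine ⟨?_, ?_⟩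
  · rw [← card_pos, card_erase_of_mem (mem_erase.2 hw), card_erase_of_mem hx]; omega
  intro T hT hn hn'
  have hTR : ∀ y ∈ T, y ≠ w ∧ y ≠ x ∧ y ∈ R := by
    intro y hy
    have := hT hy
    simpa [mem_erase] using this
  by_cases c1 : u ∈ T ∧ v ∈ (R.erase x).erase w \ T
  · exact ⟨u, c1.1, v, c1.2, by simp [SimpleGraph.edge_adj, huv]⟩
  by_cases c2 : v ∈ T ∧ u ∈ (R.erase x).erase w \ T
  · exact ⟨v, c2.1, u, c2.2, by simp [SimpleGraph.edge_adj, huv.symm]⟩
  by_cases c3 : u ∈ T ∨ v ∈ T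
  · obtain ⟨z, hz⟩ := hn'
    simp only [mem_sdiff, mem_erase] at hz
    obtain ⟨a, ha, b, hb, hab⟩ := (h.del w hw.2).2 (insert x T) (by
      intro y hy
      rw [mem_insert] at hy
      rcases hy with rfl | hy
      · exact mem_erase.2 ⟨hw.1.symm, hx⟩
      · exact mem_erase.2 ⟨(hTR y hy).1, (hTR y hy).2.2⟩) ⟨x, by simp⟩
      ⟨z, by
        simp only [mem_sdiff, mem_erase, mem_insert, not_or]
        exact ⟨⟨hz.1.1, hz.1.2.2⟩, hz.1.2.1, hz.2⟩⟩
    simp only [mem_sdiff, mem_erase, mem_insert, not_or] at ha hb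
    obtain ⟨⟨hb1, hb2⟩, hb3, hb4⟩ := hb
    have hbm : b ∈ (R.erase x).erase w \ T := by
      simp only [mem_sdiff, mem_erase]; exact ⟨⟨hb1, hb3, hb2⟩, hb4⟩
    rcases ha with rfl | ha
    · exfalso
      rcases hdeg b hb2 hab with rfl | rfl
      · rcases c3 with c3 | c3
        · exact hb4 c3
        · exact c2 ⟨c3, hbm⟩
      · rcases c3 with c3 | c3
        · exact c1 ⟨c3, hbm⟩
        · exact hb4 c3
    · exact ⟨a, ha, b, hbm, Or.inl hab⟩
  · push Not at c3
    obtain ⟨z, hz⟩ := hn'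
    simp only [mem_sdiff, mem_erase] at hz
    obtain ⟨a, ha, b, hb, hab⟩ := (h.del w hw.2).2 T (fun y hy =>
      mem_erase.2 ⟨(hTR y hy).1, (hTR y hy).2.2⟩) hn
      ⟨z, by simp only [mem_sdiff, mem_erase]; exact ⟨⟨hz.1.1, hz.1.2.2⟩, hz.2⟩⟩
    simp only [mem_sdiff, mem_erase] at hb
    have hbx : b ≠ x := by
      rintro rfl
      rcases hdeg a (hTR a ha).2.2 hab.symm with rfl | rfl
      · exact c3.1 ha
      · exact c3.2 ha
    exact ⟨a, ha, b, by simp only [mem_sdiff, mem_erase]; exact ⟨⟨hb.1.1, hbx, hb.1.2⟩, hb.2⟩,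
      Or.inl hab⟩

/-- disconnected certificate -/
lemma not_cn_of {G : SimpleGraph V} {S T : Finset V} (hT : T ⊆ S) (hn : T.Nonempty)
    (hn' : (S \ T).Nonempty) (h : ∀ a ∈ T, ∀ b ∈ S \ T, ¬ G.Adj a b) : ¬ Cn G S := by
  intro hc
  obtain ⟨a, ha, b, hb, hab⟩ := hc.2 T hT hn hn'
  exact h a ha b hb hab

/-- a critically 2-connected graph has a vertex of degree two -/
theorem TC.exists_del {G : SimpleGraph V} {R : Finset V} (h : TC G R)
    (h3 : ∀ v ∈ R, 3 ≤ (R.filter (fun y => G.Adj v y)).card) : ∃ v ∈ R, TC G (R.erase v) := by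
  by_contra hcon
  push Not at hcon
  have hR4 : 4 ≤ R.card := by
    obtain ⟨v, hv⟩ := h.conn.1
    have h1 := h3 v hv
    have h2 : insert v (R.filter (fun y => G.Adj v y)) ⊆ R := by
      intro y hy
      rw [mem_insert, mem_filter] at hy
      rcases hy with rfl | hy
      · exact hv
      · exact hy.1
    have h4 := card_le_card h2
    rw [card_insert_of_notMem (by simp)] at h4
    omega
  have hbad : ∀ v ∈ R, ∃ w ∈ R.erase v, ¬ Cn G ((R.erase v).erase w) := by
    intro v hv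
    by_contra hc
    push Not at hc
    exact hcon v hv ⟨by rw [card_erase_of_mem hv]; omega, h.del v hv, hc⟩
  -- minimal triple
  have hex : ((R ×ˢ R ×ˢ R).filter (fun p : V × V × V => p.2.1 ∈ R.erase p.1 ∧
      p.2.2 ∈ (R.erase p.1).erase p.2.1 ∧ ¬ Cn G ((R.erase p.1).erase p.2.1))).Nonempty := by
    obtain ⟨v, hv⟩ := h.conn.1
    obtain ⟨w, hw, hvw⟩ := hbad v hv
    have : ((R.erase v).erase w).Nonempty := by
      rw [← card_pos, card_erase_of_mem hw, card_erase_of_mem hv]; omega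
    obtain ⟨x, hx⟩ := this
    refine ⟨(v, w, x), ?_⟩
    simp only [mem_filter, mem_product]
    exact ⟨⟨hv, (mem_erase.1 hw).2, (mem_erase.1 (mem_erase.1 hx).2).2⟩, hw, hx, hvw⟩
  obtain ⟨⟨v, w, x⟩, hm, hmin⟩ := exists_min_image _
    (fun p : V × V × V => (cpt G ((R.erase p.1).erase p.2.1) p.2.2).card) hex
  simp only [mem_filter, mem_product] at hm hmin
  obtain ⟨⟨hvR, hwR, hxR⟩, hwv, hxS, hnc⟩ := hm
  have hwv' : w ≠ v := (mem_erase.1 hwv).1
  set S := (R.erase v).erase w with hSdef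
  have hmemS : ∀ y, y ∈ S ↔ y ≠ w ∧ y ≠ v ∧ y ∈ R := by
    intro y; simp [hSdef, mem_erase]
  set D := cpt G S x with hD
  have hDS : D ⊆ S := cpt_subset
  have hDc : Cn G D := cn_cpt hxS
  have hxD : x ∈ D := mem_cpt_self hxS
  have hDE : ∀ a ∈ D, ∀ b ∈ S \ D, ¬ G.Adj a b := fun a ha b hb =>
    not_adj_cpt hxS ha (mem_sdiff.1 hb).1 (mem_sdiff.1 hb).2
  have hEn : (S \ D).Nonempty := by
    rw [sdiff_nonempty]
    intro hs
    exact hnc (cn_of_cpt_eq hxS (subset_antisymm hDS hs))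
  -- minimality in usable form
  have hmin' : ∀ v' ∈ R, ∀ w' ∈ R, w' ≠ v' → ∀ x' ∈ R, x' ≠ v' → x' ≠ w' →
      ∀ Q : Finset V, Q ⊆ (R.erase v').erase w' → x' ∈ Q → ((R.erase v').erase w' \ Q).Nonempty →
      (∀ a ∈ Q, ∀ b ∈ (R.erase v').erase w' \ Q, ¬ G.Adj a b) → D.card ≤ Q.card := by
    intro v' hv' w' hw' hne x' hx' hxv hxw Q hQ hxQ hQn hQa
    have hx'S : x' ∈ (R.erase v').erase w' := hQ hxQ
    have h1 := hmin (v', w', x') ⟨⟨hv', hw', hx'⟩, mem_erase.2 ⟨hne, hw'⟩, hx'S,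
      not_cn_of hQ ⟨x', hxQ⟩ hQn hQa⟩
    refine h1.trans (card_le_card ?_)
    -- the component of x' is inside Q
    by_contra hns
    have hc := cn_cpt (G := G) hx'S
    obtain ⟨a, ha, b, hb, hab⟩ := hc.2 (cpt G ((R.erase v').erase w') x' ∩ Q) inter_subset_left
      ⟨x', mem_inter.2 ⟨mem_cpt_self hx'S, hxQ⟩⟩ (by
        rw [sdiff_nonempty]
        intro hs
        exact hns (fun y hy => (mem_inter.1 (hs hy)).2))
    rw [mem_inter] at ha
    rw [mem_sdiff, mem_inter, not_and] at hb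
    exact hQa a ha.2 b (mem_sdiff.2 ⟨cpt_subset hb.1, hb.2 hb.1⟩) hab
  -- E ∪ {v} is connected
  have hEv : Cn G (insert v (S \ D)) := by
    refine ⟨⟨v, by simp⟩, fun T hT hn hn' => ?_⟩
    by_contra hcc
    push Not at hcc
    -- choose the side avoiding v
    have side : ∀ T : Finset V, T ⊆ insert v (S \ D) → T.Nonempty → v ∉ T →
        (∀ a ∈ T, ∀ b ∈ insert v (S \ D) \ T, ¬ G.Adj a b) → False := by
      intro T hT hn hvT hTa
      have hTS : T ⊆ S \ D := by
        intro y hy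
        rcases mem_insert.1 (hT hy) with rfl | h1
        · exact absurd hy hvT
        · exact h1
      refine not_cn_of (S := R.erase w) (T := T) ?_ hn ⟨v, ?_⟩ ?_ (h.del w hwR)
      · intro y hy
        have := (hmemS y).1 (mem_sdiff.1 (hTS hy)).1
        exact mem_erase.2 ⟨this.1, this.2.2⟩
      · exact mem_sdiff.2 ⟨mem_erase.2 ⟨hwv'.symm, hvR⟩, hvT⟩
      · intro a ha b hb hab
        rw [mem_sdiff, mem_erase] at hb
        by_cases hbv : b = v
        · subst hbv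
          exact hTa a ha b (mem_sdiff.2 ⟨by simp, hb.2⟩) hab
        · have hbS : b ∈ S := (hmemS b).2 ⟨hb.1.1, hbv, hb.1.2⟩
          by_cases hbD : b ∈ D
          · exact hDE b hbD a (hTS ha) hab.symm
          · exact hTa a ha b (mem_sdiff.2 ⟨by simp [hbS, hbD], hb.2⟩) hab
    by_cases hvT : v ∈ T
    · refine side (insert v (S \ D) \ T) sdiff_subset hn' (by simp [hvT]) ?_
      intro a ha b hb hab
      rw [mem_sdiff, mem_sdiff, not_and, not_not] at hb
      exact hcc b (hb.2 hb.1) a ha hab.symm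
    · exact side T hT hn hvT hcc
  have hEw : Cn G (insert w (S \ D)) := by
    refine ⟨⟨w, by simp⟩, fun T hT hn hn' => ?_⟩
    by_contra hcc
    push Not at hcc
    have side : ∀ T : Finset V, T ⊆ insert w (S \ D) → T.Nonempty → w ∉ T →
        (∀ a ∈ T, ∀ b ∈ insert w (S \ D) \ T, ¬ G.Adj a b) → False := by
      intro T hT hn hvT hTa
      have hTS : T ⊆ S \ D := by
        intro y hy
        rcases mem_insert.1 (hT hy) with rfl | h1
        · exact absurd hy hvT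
        · exact h1
      refine not_cn_of (S := R.erase v) (T := T) ?_ hn ⟨w, ?_⟩ ?_ (h.del v hvR)
      · intro y hy
        have := (hmemS y).1 (mem_sdiff.1 (hTS hy)).1
        exact mem_erase.2 ⟨this.2.1, this.2.2⟩
      · exact mem_sdiff.2 ⟨mem_erase.2 ⟨hwv', hwR⟩, hvT⟩
      · intro a ha b hb hab
        rw [mem_sdiff, mem_erase] at hb
        by_cases hbv : b = w
        · subst hbv
          exact hTa a ha b (mem_sdiff.2 ⟨by simp, hb.2⟩) hab
        · have hbS : b ∈ S := (hmemS b).2 ⟨hbv, hb.1.1, hb.1.2⟩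
          by_cases hbD : b ∈ D
          · exact hDE b hbD a (hTS ha) hab.symm
          · exact hTa a ha b (mem_sdiff.2 ⟨by simp [hbS, hbD], hb.2⟩) hab
    by_cases hvT : w ∈ T
    · refine side (insert w (S \ D) \ T) sdiff_subset hn' (by simp [hvT]) ?_
      intro a ha b hb hab
      rw [mem_sdiff, mem_sdiff, not_and, not_not] at hb
      exact hcc b (hb.2 hb.1) a ha hab.symm
    · exact side T hT hn hvT hcc
  have hEvw : Cn G (insert v (S \ D) ∪ insert w (S \ D)) := by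
    refine hEv.union hEw (Or.inr ?_)
    obtain ⟨e, he⟩ := hEn
    exact ⟨e, by simp only [mem_inter, mem_insert]; exact ⟨Or.inr he, Or.inr he⟩⟩
  have hvD : v ∉ D := fun h1 => ((hmemS v).1 (hDS h1)).2.1 rfl
  have hwD : w ∉ D := fun h1 => ((hmemS w).1 (hDS h1)).1 rfl
  have hDR : ∀ y ∈ D, y ∈ R := fun y hy => ((hmemS y).1 (hDS hy)).2.2
  -- D has at least two vertices
  have hD2 : 2 ≤ D.card := by
    by_contra hlt
    have h1 : D.card = 1 := by
      have := card_pos.2 hDc.1; omega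
    obtain ⟨d, hd⟩ := card_eq_one.1 h1
    have hxd : x = d := by
      have := hxD; rw [hd, mem_singleton] at this; exact this
    have h4 := h3 x hxR
    have h5 : R.filter (fun y => G.Adj x y) ⊆ {v, w} := by
      intro y hy
      rw [mem_filter] at hy
      by_contra hne
      simp only [mem_insert, mem_singleton, not_or] at hne
      have hyS : y ∈ S := (hmemS y).2 ⟨hne.2, hne.1, hy.1⟩
      by_cases hyD : y ∈ D
      · rw [hd, mem_singleton] at hyD
        exact hy.2.ne (hxd.trans hyD.symm)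
      · exact hDE x hxD y (mem_sdiff.2 ⟨hyS, hyD⟩) hy.2
    have h6 := card_le_card h5
    have h7 := card_le_two (a := v) (b := w)
    omega
  -- general statement: no cut {x, z} has a component avoiding v and w
  obtain ⟨z, hz, hxz⟩ := hbad x hxR
  have hzx : z ≠ x := (mem_erase.1 hz).1
  have hzR : z ∈ R := (mem_erase.1 hz).2
  set U := (R.erase x).erase z with hU
  have hmemU : ∀ y, y ∈ U ↔ y ≠ z ∧ y ≠ x ∧ y ∈ R := by
    intro y; simp [hU, mem_erase]
  have hlt : ∀ Q : Finset V, Q ⊆ D → x ∉ Q → Q.card < D.card := by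
    intro Q hQ hxQ
    exact card_lt_card ⟨hQ, fun h1 => hxQ (h1 hxD)⟩
  -- a component of U avoiding v and w gives a contradiction
  have hno : ∀ y ∈ U, v ∉ cpt G U y → w ∉ cpt G U y → False := by
    intro y hy hvY hwY
    set Y := cpt G U y with hY
    have hYc : Cn G Y := cn_cpt hy
    have hyY : y ∈ Y := mem_cpt_self hy
    have hYU : Y ⊆ U := cpt_subset
    have hYS : Y ⊆ S := by
      intro a ha
      have := (hmemU a).1 (hYU ha)
      exact (hmemS a).2 ⟨fun h1 => hwY (h1 ▸ ha), fun h1 => hvY (h1 ▸ ha), this.2.2⟩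
    have hYa : ∀ a ∈ Y, ∀ b ∈ U \ Y, ¬ G.Adj a b := fun a ha b hb =>
      not_adj_cpt hy ha (mem_sdiff.1 hb).1 (mem_sdiff.1 hb).2
    by_cases hyD : y ∈ D
    · have hYD : Y ⊆ D := subset_cpt_of_inter hxS hYS hYc ⟨y, mem_inter.2 ⟨hyY, hyD⟩⟩
      have hxY : x ∉ Y := fun h1 => ((hmemU x).1 (hYU h1)).2.1 rfl
      have h1 := hlt Y hYD hxY
      have hne : (U \ Y).Nonempty := by
        rw [sdiff_nonempty]
        intro hs
        exact hxz (cn_of_cpt_eq hy (subset_antisymm hYU hs))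
      have h2 := hmin' x hxR z hzR hzx y ((hmemU y).1 hy).2.2 ((hmemU y).1 hy).2.1
        ((hmemU y).1 hy).1 Y hYU hyY hne hYa
      omega
    · -- Y inside E, so z is a cut vertex
      have hYE : ∀ a ∈ Y, a ∉ D := by
        intro a ha haD
        have : Y ⊆ D := subset_cpt_of_inter hxS hYS hYc ⟨a, mem_inter.2 ⟨ha, haD⟩⟩
        exact hyD (this hyY)
      have hxY : x ∉ Y := fun h1 => ((hmemU x).1 (hYU h1)).2.1 rfl
      refine not_cn_of (S := R.erase z) (T := Y) ?_ ⟨y, hyY⟩ ⟨x, ?_⟩ ?_ (h.del z hzR)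
      · intro a ha
        have := (hmemU a).1 (hYU ha)
        exact mem_erase.2 ⟨this.1, this.2.2⟩
      · exact mem_sdiff.2 ⟨mem_erase.2 ⟨hzx.symm, hxR⟩, hxY⟩
      · intro a ha b hb hab
        rw [mem_sdiff, mem_erase] at hb
        by_cases hbx : b = x
        · subst hbx
          exact hDE b hxD a (mem_sdiff.2 ⟨hYS ha, hYE a ha⟩) hab.symm
        · exact hYa a ha b (mem_sdiff.2 ⟨(hmemU b).2 ⟨hb.1.1, hbx, hb.1.2⟩, hb.2⟩) hab
  have hvx : v ≠ x := fun h1 => hvD (h1 ▸ hxD)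
  have hwx : w ≠ x := fun h1 => hwD (h1 ▸ hxD)
  have hUne : ∀ y ∈ U, (U \ cpt G U y).Nonempty := by
    intro y hy
    rw [sdiff_nonempty]
    intro hs
    exact hxz (cn_of_cpt_eq hy (subset_antisymm cpt_subset hs))
  by_cases hzv : z = v
  · -- E ∪ {w} is connected in U
    have hsub : insert w (S \ D) ⊆ U := by
      intro a ha
      rw [mem_insert, mem_sdiff] at ha
      rcases ha with rfl | ha
      · exact (hmemU a).2 ⟨by rw [hzv]; exact hwv', hwx, hwR⟩
      · have := (hmemS a).1 ha.1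
        exact (hmemU a).2 ⟨by rw [hzv]; exact this.2.1, fun h1 => ha.2 (h1 ▸ hxD), this.2.2⟩
    have hwU : w ∈ U := hsub (by simp)
    obtain ⟨y, hy⟩ := hUne w hwU
    rw [mem_sdiff] at hy
    refine hno y hy.1 ?_ ?_
    · intro h1
      exact ((hmemU v).1 (cpt_subset h1)).1 hzv.symm
    · intro h1
      apply hy.2
      rw [cpt_eq_of_mem hy.1 h1]
      exact mem_cpt_self hy.1
  by_cases hzw : z = w
  · have hsub : insert v (S \ D) ⊆ U := by
      intro a ha
      rw [mem_insert, mem_sdiff] at ha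
      rcases ha with rfl | ha
      · exact (hmemU a).2 ⟨by rw [hzw]; exact hwv'.symm, hvx, hvR⟩
      · have := (hmemS a).1 ha.1
        exact (hmemU a).2 ⟨by rw [hzw]; exact this.1, fun h1 => ha.2 (h1 ▸ hxD), this.2.2⟩
    have hvU : v ∈ U := hsub (by simp)
    obtain ⟨y, hy⟩ := hUne v hvU
    rw [mem_sdiff] at hy
    refine hno y hy.1 ?_ ?_
    · intro h1
      apply hy.2
      rw [cpt_eq_of_mem hy.1 h1]
      exact mem_cpt_self hy.1
    · intro h1
      exact ((hmemU w).1 (cpt_subset h1)).1 hzw.symm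
  have hvU : v ∈ U := (hmemU v).2 ⟨Ne.symm hzv, hvx, hvR⟩
  have hwU : w ∈ U := (hmemU w).2 ⟨Ne.symm hzw, hwx, hwR⟩
  by_cases hwv2 : w ∈ cpt G U v
  · obtain ⟨y, hy⟩ := hUne v hvU
    rw [mem_sdiff] at hy
    have e := cpt_eq_of_mem hvU hwv2
    refine hno y hy.1 ?_ ?_
    · intro h1
      apply hy.2
      rw [cpt_eq_of_mem hy.1 h1]
      exact mem_cpt_self hy.1
    · intro h1
      apply hy.2
      rw [← e, cpt_eq_of_mem hy.1 h1]
      exact mem_cpt_self hy.1
  -- z is not in D (otherwise E ∪ {v, w} is connected in U)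
  have hzD : z ∉ D := by
    intro hzD
    apply hwv2
    refine subset_cpt (C := insert v (S \ D) ∪ insert w (S \ D)) ?_ hEvw (by simp) (by simp)
    intro a ha
    simp only [mem_union, mem_insert, mem_sdiff] at ha
    have key : a = v ∨ a = w ∨ (a ∈ S ∧ a ∉ D) := by tauto
    rcases key with rfl | rfl | ⟨h1, h2⟩
    · exact hvU
    · exact hwU
    · exact (hmemU a).2 ⟨fun h4 => h2 (h4 ▸ hzD), fun h4 => h2 (h4 ▸ hxD), ((hmemS a).1 h1).2.2⟩
  obtain ⟨p, hp⟩ : ∃ p ∈ D, p ≠ x := by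
    by_contra hc
    push Not at hc
    have : D ⊆ {x} := fun y hy => by rw [mem_singleton]; exact hc y hy
    have := card_le_card this
    rw [card_singleton] at this
    omega
  obtain ⟨hpD, hpx⟩ := hp
  have hpU : p ∈ U := (hmemU p).2 ⟨fun h1 => hzD (h1 ▸ hpD), hpx, hDR p hpD⟩
  set P := cpt G U p with hP
  have hpP : p ∈ P := mem_cpt_self hpU
  have hPa : ∀ a ∈ P, ∀ b ∈ U \ P, ¬ G.Adj a b := fun a ha b hb =>
    not_adj_cpt hpU ha (mem_sdiff.1 hb).1 (mem_sdiff.1 hb).2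
  have hPU : P ⊆ U := cpt_subset
  have hnotboth : ¬ (v ∈ P ∧ w ∈ P) := by
    rintro ⟨h1, h2⟩
    apply hwv2
    rw [cpt_eq_of_mem hpU h1]
    exact h2
  have hxQ : x ∉ P ∩ D := fun h1 => ((hmemU x).1 (hPU (mem_inter.1 h1).1)).2.1 rfl
  by_cases hvP : v ∈ P
  · have hwP : w ∉ P := fun h1 => hnotboth ⟨hvP, h1⟩
    have h1 := hlt (P ∩ D) inter_subset_right hxQ
    have h2 := hmin' x hxR v hvR hvx p (hDR p hpD) hpx (fun h1 => hvD (h1 ▸ hpD)) (P ∩ D)
      (by
        intro a ha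
        rw [mem_inter] at ha
        simp only [mem_erase]
        exact ⟨fun h1 => hvD (h1 ▸ ha.2), ((hmemU a).1 (hPU ha.1)).2.1, hDR a ha.2⟩)
      (mem_inter.2 ⟨hpP, hpD⟩)
      ⟨w, by
        simp only [mem_sdiff, mem_erase, mem_inter]
        exact ⟨⟨hwv', hwx, hwR⟩, fun h1 => hwP h1.1⟩⟩
      (by
        intro a ha b hb hab
        rw [mem_inter] at ha
        simp only [mem_sdiff, mem_erase, mem_inter, not_and] at hb
        obtain ⟨⟨hb1, hb2, hb3⟩, hb4⟩ := hb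
        -- b is in D ∪ {w}
        by_cases hbw : b = w
        · subst hbw
          exact hPa a ha.1 b (mem_sdiff.2 ⟨hwU, hwP⟩) hab
        have hbS : b ∈ S := (hmemS b).2 ⟨hbw, hb1, hb3⟩
        by_cases hbD : b ∈ D
        · have hbP : b ∉ P := fun h1 => hb4 h1 hbD
          refine hPa a ha.1 b (mem_sdiff.2 ⟨(hmemU b).2 ⟨fun h1 => hzD (h1 ▸ hbD), hb2, hb3⟩, hbP⟩) hab
        · exact hDE a ha.2 b (mem_sdiff.2 ⟨hbS, hbD⟩) hab)
    omega
  by_cases hwP : w ∈ P
  · have h1 := hlt (P ∩ D) inter_subset_right hxQ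
    have h2 := hmin' x hxR w hwR hwx p (hDR p hpD) hpx (fun h1 => hwD (h1 ▸ hpD)) (P ∩ D)
      (by
        intro a ha
        rw [mem_inter] at ha
        simp only [mem_erase]
        exact ⟨fun h1 => hwD (h1 ▸ ha.2), ((hmemU a).1 (hPU ha.1)).2.1, hDR a ha.2⟩)
      (mem_inter.2 ⟨hpP, hpD⟩)
      ⟨v, by
        simp only [mem_sdiff, mem_erase, mem_inter]
        exact ⟨⟨hwv'.symm, hvx, hvR⟩, fun h1 => hvP h1.1⟩⟩
      (by
        intro a ha b hb hab
        rw [mem_inter] at ha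
        simp only [mem_sdiff, mem_erase, mem_inter, not_and] at hb
        obtain ⟨⟨hb1, hb2, hb3⟩, hb4⟩ := hb
        by_cases hbw : b = v
        · subst hbw
          exact hPa a ha.1 b (mem_sdiff.2 ⟨hvU, hvP⟩) hab
        have hbS : b ∈ S := (hmemS b).2 ⟨hb1, hbw, hb3⟩
        by_cases hbD : b ∈ D
        · have hbP : b ∉ P := fun h1 => hb4 h1 hbD
          refine hPa a ha.1 b (mem_sdiff.2 ⟨(hmemU b).2 ⟨fun h1 => hzD (h1 ▸ hbD), hb2, hb3⟩, hbP⟩) hab
        · exact hDE a ha.2 b (mem_sdiff.2 ⟨hbS, hbD⟩) hab)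
    omega
  exact hno p hpU hvP hwP

end Pool.Agent.T6.H89.ITM
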